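import Pool.Agent.TreeMSO.Base

/-!
# Tree-to-tree MSO interpretations: composition from pull-back

Isomorphism invariance of satisfaction, renaming of free variables, interpretations respect
isomorphisms, and the composition of two interpretations, given that formulas can be pulled back
under the first one.
-/

set_option autoImplicit false

namespace Pool.Agent.TreeMSO

/-! ### Isomorphism invariance -/

theorem Fm.Sat_iso {τ : Vocab} {V : Type} {M N : Str τ} (e : M.U ≃ N.U)
    (he : ∀ (R : τ.Sym) (a : Fin (τ.ar R) → M.U), M.rel R a ↔ N.rel R (fun j => e (a j)))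
    (v : V → M.U) {n m : ℕ} (φ : Fm τ V n m) (w : Fin n → M.U) (S : Fin m → Set M.U) :
    φ.Sat M v w S ↔ φ.Sat N (fun i => e (v i)) (fun i => e (w i)) (fun i => e '' S i) := by
  have hel : ∀ {k : ℕ} (w : Fin k → M.U) (x : V ⊕ Fin k),
      Sum.elim (fun i => e (v i)) (fun i => e (w i)) x = e (Sum.elim v w x) := by
    intro k w x
    cases x <;> rfl
  induction φ with
  | rel R a =>
    simp only [Fm.Sat, hel]
    exact he R _
  | eq x y => simp only [Fm.Sat, hel, EmbeddingLike.apply_eq_iff_eq]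
  | mem x X =>
    simp only [Fm.Sat, hel]
    exact (e.injective.mem_set_image).symm
  | not φ ih => simp only [Fm.Sat, ih]
  | and φ ψ ih1 ih2 => simp only [Fm.Sat, ih1, ih2]
  | @exE n m φ ih =>
    have hs : ∀ u : M.U, (fun i => e ((Fin.snoc w u : Fin (n + 1) → M.U) i)) =
        (Fin.snoc (fun i => e (w i)) (e u) : Fin (n + 1) → N.U) := by
      intro u
      funext i
      refine Fin.lastCases ?_ (fun i => ?_) i
      · simp
      · simp
    simp only [Fm.Sat]
    constructor
    · rintro ⟨u, hu⟩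
      refine ⟨e u, ?_⟩
      have := (ih _ _).1 hu
      rw [hs u] at this
      exact this
    · rintro ⟨u, hu⟩
      refine ⟨e.symm u, (ih _ _).2 ?_⟩
      rw [hs, e.apply_symm_apply]
      exact hu
  | @exS n m φ ih =>
    have hs : ∀ P : Set M.U, (fun i => e '' ((Fin.snoc S P : Fin (m + 1) → Set M.U) i)) =
        (Fin.snoc (fun i => e '' S i) (e '' P) : Fin (m + 1) → Set N.U) := by
      intro u
      funext i
      refine Fin.lastCases ?_ (fun i => ?_) i
      · simp
      · simp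
    simp only [Fm.Sat]
    constructor
    · rintro ⟨P, hP⟩
      refine ⟨e '' P, ?_⟩
      have := (ih _ _).1 hP
      rw [hs P] at this
      exact this
    · rintro ⟨P, hP⟩
      refine ⟨e.symm '' P, (ih _ _).2 ?_⟩
      rw [hs]
      have : e '' (e.symm '' P) = P := by
        rw [← Set.image_comp]
        simp
      rw [this]
      exact hP

theorem Fm.Holds_iso {τ : Vocab} {V : Type} (φ : Fm τ V 0 0) {M N : Str τ} (e : M.U ≃ N.U)
    (he : ∀ (R : τ.Sym) (a : Fin (τ.ar R) → M.U), M.rel R a ↔ N.rel R (fun j => e (a j)))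
    (v : V → M.U) : φ.Holds M v ↔ φ.Holds N (fun i => e (v i)) := by
  unfold Fm.Holds
  rw [Fm.Sat_iso e he]
  have h1 : (fun i : Fin 0 => e ((Fin.elim0 : Fin 0 → M.U) i)) = (Fin.elim0 : Fin 0 → N.U) := by
    funext i; exact i.elim0
  have h2 : (fun i : Fin 0 => e '' ((Fin.elim0 : Fin 0 → Set M.U) i)) =
      (Fin.elim0 : Fin 0 → Set N.U) := by
    funext i; exact i.elim0
  rw [h1, h2]

/-! ### Renaming of free variables -/

/-- Renaming of the free first-order variables. -/
def Fm.ren {τ : Vocab} {V W : Type} (e : V → W) : {n m : ℕ} → Fm τ V n m → Fm τ W n m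
  | _, _, .rel R a => .rel R (fun j => Sum.map e id (a j))
  | _, _, .eq x y => .eq (Sum.map e id x) (Sum.map e id y)
  | _, _, .mem x X => .mem (Sum.map e id x) X
  | _, _, .not φ => .not (Fm.ren e φ)
  | _, _, .and φ ψ => .and (Fm.ren e φ) (Fm.ren e ψ)
  | _, _, .exE φ => .exE (Fm.ren e φ)
  | _, _, .exS φ => .exS (Fm.ren e φ)

theorem Fm.Sat_ren {τ : Vocab} {V W : Type} (e : V → W) (M : Str τ) (v : W → M.U) {n m : ℕ}
    (φ : Fm τ V n m) (w : Fin n → M.U) (S : Fin m → Set M.U) :
    (φ.ren e).Sat M v w S ↔ φ.Sat M (fun i => v (e i)) w S := by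
  have hel : ∀ {k : ℕ} (w : Fin k → M.U) (x : V ⊕ Fin k),
      Sum.elim v w (Sum.map e id x) = Sum.elim (fun i => v (e i)) w x := by
    intro k w x
    cases x <;> rfl
  induction φ with
  | rel R a => simp only [Fm.ren, Fm.Sat, hel]
  | eq x y => simp only [Fm.ren, Fm.Sat, hel]
  | mem x X => simp only [Fm.ren, Fm.Sat, hel]
  | not φ ih => simp only [Fm.ren, Fm.Sat, ih]
  | and φ ψ ih1 ih2 => simp only [Fm.ren, Fm.Sat, ih1, ih2]
  | exE φ ih => simp only [Fm.ren, Fm.Sat, ih]
  | exS φ ih => simp only [Fm.ren, Fm.Sat, ih]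

theorem Fm.Holds_ren {τ : Vocab} {V W : Type} (e : V → W) (M : Str τ) (v : W → M.U)
    (φ : Fm τ V 0 0) : (φ.ren e).Holds M v ↔ φ.Holds M (fun i => v (e i)) :=
  Fm.Sat_ren e M v φ _ _

/-! ### Isomorphisms of structures -/

theorem Str.Iso.refl {τ : Vocab} (M : Str τ) : M.Iso M := ⟨Equiv.refl _, fun _ _ => Iff.rfl⟩

theorem Str.Iso.trans {τ : Vocab} {M N P : Str τ} (h : M.Iso N) (h' : N.Iso P) : M.Iso P := by
  obtain ⟨e, he⟩ := h
  obtain ⟨e', he'⟩ := h'
  refine ⟨e.trans e', fun R a => ?_⟩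
  rw [he, he']
  rfl

theorem Str.Iso.symm {τ : Vocab} {M N : Str τ} (h : M.Iso N) : N.Iso M := by
  obtain ⟨e, he⟩ := h
  refine ⟨e.symm, fun R a => ?_⟩
  rw [he]
  simp

/-- Interpretations respect isomorphisms. -/
theorem Interp.out_iso {τ σ : Vocab} (I : Interp τ σ) {M N : Str τ} (h : M.Iso N) :
    (I.out M).Iso (I.out N) := by
  obtain ⟨e, he⟩ := h
  refine ⟨Equiv.sigmaCongrRight fun i => Equiv.subtypeEquiv (Equiv.arrowCongr (Equiv.refl _) e)
    (fun x => ?_), fun R a => ?_⟩
  · exact Fm.Holds_iso (I.dom i) e he x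
  · exact Fm.Holds_iso (I.rel R fun j => (a j).1) e he (fun z => (a z.1).2.1 z.2)

/-! ### The composition -/

section
variable {τ σ ρ : Vocab}

/-- Formulas can be pulled back under `I`, on the structures in the class `K`. -/
def Interp.Pulls (I : Interp τ σ) (K : Set (Str τ)) : Prop :=
  ∀ (V : Type) (_ : Finite V) (c : V → I.Comp) (ψ : Fm σ V 0 0),
    ∃ φ : Fm τ ((v : V) × Fin (I.dim (c v))) 0 0,
      ∀ M ∈ K, ∀ z : ((v : V) × Fin (I.dim (c v))) → M.U,
        φ.Holds M z ↔
          ∃ h : ∀ v, (I.dom (c v)).Holds M (fun l => z ⟨v, l⟩),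
            ψ.Holds (I.out M) (fun v => ⟨c v, fun l => z ⟨v, l⟩, h v⟩)

theorem Interp.comp_exists (I : Interp τ σ) (J : Interp σ ρ) (K : Set (Str τ)) (hK : I.Pulls K) :
    ∃ H : Interp τ ρ, ∀ M ∈ K, (H.out M).Iso (J.out (I.out M)) := by
  classical
  have hfinI : Finite I.Comp := I.fin
  have hfinJ : Finite J.Comp := J.fin
  choose pull hpull using hK
  -- components of the composition
  let Cm : Type := (j : J.Comp) × (Fin (J.dim j) → I.Comp)
  let dm : Cm → ℕ := fun c => ∑ l, I.dim (c.2 l)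
  let E : (c : Cm) → ((l : Fin (J.dim c.1)) × Fin (I.dim (c.2 l))) ≃ Fin (dm c) :=
    fun c => finSigmaFinEquiv
  let H : Interp τ ρ :=
    { Comp := Cm
      fin := inferInstance
      dim := dm
      dim_pos := fun c => by
        have h1 := J.dim_pos c.1
        have h2 := I.dim_pos (c.2 ⟨0, h1⟩)
        exact h2.trans (Finset.single_le_sum (f := fun l => I.dim (c.2 l))
          (fun _ _ => Nat.zero_le _) (Finset.mem_univ (⟨0, h1⟩ : Fin (J.dim c.1))))
      dom := fun c => (pull (Fin (J.dim c.1)) inferInstance c.2 (J.dom c.1)).ren (E c)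
      rel := fun R c =>
        (pull ((k : Fin (ρ.ar R)) × Fin (J.dim (c k).1)) inferInstance
          (fun v => (c v.1).2 v.2) (J.rel R (fun k => (c k).1))).ren
          (fun v => ⟨v.1.1, E (c v.1.1) ⟨v.1.2, v.2⟩⟩) }
  refine ⟨H, fun M hM => ?_⟩
  have hdom : ∀ (c : Cm) (x : Fin (dm c) → M.U), (H.dom c).Holds M x ↔
      ∃ h : ∀ l, (I.dom (c.2 l)).Holds M (fun i => x (E c ⟨l, i⟩)),
        (J.dom c.1).Holds (I.out M) (fun l => ⟨c.2 l, fun i => x (E c ⟨l, i⟩), h l⟩) := by
    intro c x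
    change ((pull (Fin (J.dim c.1)) inferInstance c.2 (J.dom c.1)).ren (E c)).Holds M x ↔ _
    rw [Fm.Holds_ren, hpull _ _ _ _ M hM]
  -- the map
  let F : (H.out M).U → (J.out (I.out M)).U := fun u =>
    ⟨u.1.1, fun l => ⟨u.1.2 l, fun i => u.2.1 (E u.1 ⟨l, i⟩), ((hdom u.1 u.2.1).1 u.2.2).choose l⟩,
      ((hdom u.1 u.2.1).1 u.2.2).choose_spec⟩
  have hF : Function.Bijective F := by
    constructor
    · rintro ⟨⟨j, c⟩, x, hx⟩ ⟨⟨j', c'⟩, x', hx'⟩ h
      have h1 : j = j' := congrArg Sigma.fst h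
      subst h1
      have h2 := eq_of_heq (Sigma.mk.inj h).2
      have h3 := congrArg Subtype.val h2
      have h4 : c = c' := by
        funext l
        exact congrArg Sigma.fst (congrFun h3 l)
      subst h4
      have h5 : x = x' := by
        funext k
        obtain ⟨⟨l, i⟩, rfl⟩ := (E ⟨j, c⟩).surjective k
        have h6 := congrFun h3 l
        have h7 := eq_of_heq (Sigma.mk.inj h6).2
        exact congrFun (congrArg Subtype.val h7) i
      subst h5
      rfl
    · rintro ⟨j, y, hy⟩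
      let c : Cm := ⟨j, fun l => (y l).1⟩
      let x : Fin (dm c) → M.U := fun k => (y ((E c).symm k).1).2.1 ((E c).symm k).2
      have hxE : ∀ l i, x (E c ⟨l, i⟩) = (y l).2.1 i := by
        intro l i
        simp only [x]
        rw [Equiv.symm_apply_apply]
      have hxE' : ∀ l, (fun i => x (E c ⟨l, i⟩)) = (y l).2.1 := fun l => funext (hxE l)
      have hh : ∀ l, (I.dom (c.2 l)).Holds M (fun i => x (E c ⟨l, i⟩)) := by
        intro l
        rw [hxE' l]
        exact (y l).2.2
      have hfun : (fun l => (⟨c.2 l, fun i => x (E c ⟨l, i⟩), hh l⟩ : (I.out M).U)) = y := by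
        funext l
        refine Sigma.ext rfl (heq_of_eq (Subtype.ext ?_))
        exact hxE' l
      have hxd : (H.dom c).Holds M x := by
        rw [hdom]
        refine ⟨hh, ?_⟩
        rw [hfun]
        exact hy
      refine ⟨⟨c, x, hxd⟩, ?_⟩
      refine Sigma.ext rfl (heq_of_eq (Subtype.ext ?_))
      exact hfun
  refine ⟨Equiv.ofBijective F hF, fun R a => ?_⟩
  change Fm.Holds ((pull ((k : Fin (ρ.ar R)) × Fin (J.dim (a k).1.1)) inferInstance
          (fun v => (a v.1).1.2 v.2) (J.rel R (fun k => (a k).1.1))).ren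
          (fun v => (⟨v.1.1, E (a v.1.1).1 ⟨v.1.2, v.2⟩⟩ :
            (k : Fin (ρ.ar R)) × Fin (dm (a k).1)))) M
          (fun z => (a z.1).2.1 z.2) ↔ (J.rel R (fun k => (a k).1.1)).Holds (I.out M)
          (fun z => (F (a z.1)).2.1 z.2)
  rw [Fm.Holds_ren, hpull _ _ _ _ M hM]
  constructor
  · rintro ⟨h, h'⟩
    exact h'
  · intro h'
    exact ⟨fun v => ((hdom (a v.1).1 (a v.1).2.1).1 (a v.1).2.2).choose v.2, h'⟩

end

/-- Composition of tree-to-tree interpretations, given the pull-back of formulas. -/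
theorem composition_of_pulls {A B C : Type} (f : Tr A → Tr B) (g : Tr B → Tr C)
    (hpull : ∀ I : Interp (treeVocab A) (treeVocab B),
      (∀ t : Tr A, ∃ t' : Tr B, (I.out (treeStr t)).Iso (treeStr t')) →
        I.Pulls (Set.range (treeStr (A := A))))
    (hf : IsTreeInterp f) (hg : IsTreeInterp g) : IsTreeInterp (g ∘ f) := by
  obtain ⟨I, hI⟩ := hf
  obtain ⟨J, hJ⟩ := hg
  obtain ⟨H, hH⟩ := I.comp_exists J _ (hpull I fun t => ⟨f t, hI t⟩)
  refine ⟨H, fun t => ?_⟩
  exact (hH _ ⟨t, rfl⟩).trans ((J.out_iso (hI t)).trans (hJ (f t)))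

/-- The composition theorem, from the statement of the pull-back theorem. -/
theorem composition_of_pullback
    (pullback : ∀ {A B : Type} [Finite A] [Finite B] (I : Interp (treeVocab A) (treeVocab B))
      (_ : ∀ t : Tr A, ∃ t' : Tr B, (I.out (treeStr t)).Iso (treeStr t'))
      {V : Type} [Finite V] (c : V → I.Comp) (ψ : Fm (treeVocab B) V 0 0),
      ∃ φ : Fm (treeVocab A) ((v : V) × Fin (I.dim (c v))) 0 0,
        ∀ (t : Tr A) (z : ((v : V) × Fin (I.dim (c v))) → t.Node),
          φ.Holds (treeStr t) z ↔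
            ∃ h : ∀ v, (I.dom (c v)).Holds (treeStr t) (fun l => z ⟨v, l⟩),
              ψ.Holds (I.out (treeStr t)) (fun v => ⟨c v, fun l => z ⟨v, l⟩, h v⟩))
    {A B C : Type} [Finite A] [Finite B] [Finite C] (f : Tr A → Tr B)
    (g : Tr B → Tr C) (hf : IsTreeInterp f) (hg : IsTreeInterp g) : IsTreeInterp (g ∘ f) := by
  refine composition_of_pulls f g (fun I hI V hV c ψ => ?_) hf hg
  obtain ⟨φ, hφ⟩ := pullback I hI c ψ
  refine ⟨φ, ?_⟩
  rintro M ⟨t, rfl⟩ z
  exact hφ t z

end Pool.Agent.TreeMSO
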