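import Pool.Agent.TreeMSO.Defs

/-!
# Tree-to-tree MSO interpretations: auxiliary definitions used in the proof
-/

namespace Pool.Agent.TreeMSO

/-! ## Recognizable sets of trees -/

/-- Relabelling with access to the position. -/
def Tr.mapPos {A B : Type} : (List Bool → A → B) → Tr A → Tr B
  | g, .leaf a => .leaf (g [] a)
  | g, .node a l r => .node (g [] a) (Tr.mapPos (fun p => g (false :: p)) l)
      (Tr.mapPos (fun p => g (true :: p)) r)

/-- Deterministic bottom-up automata (without final states). -/
structure Alg (A Q : Type) where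
  leaf : A → Q
  node : A → Q → Q → Q

/-- The state of the automaton at the root. -/
def Alg.eval {A Q : Type} (α : Alg A Q) : Tr A → Q
  | .leaf a => α.leaf a
  | .node a l r => α.node a (α.eval l) (α.eval r)

/-- Recognizable (regular) sets of trees. -/
def Recog {A : Type} (K : Set (Tr A)) : Prop :=
  ∃ (Q : Type) (_ : Finite Q) (α : Alg A Q) (F : Set Q), ∀ t, t ∈ K ↔ α.eval t ∈ F

/-- Mark the nodes `v i` in the tree: the label of the node at position `p` becomes
`(a, {i | v i = p})`. -/
def Tr.ann {A V : Type} (t : Tr A) (v : V → List Bool) : Tr (A × Set V) :=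
  t.mapPos fun p a => (a, {i | v i = p})

/-! ## Contexts -/

/-- Trees with exactly one hole. -/
inductive Ctx (A : Type) : Type
  | hole : Ctx A
  | left (a : A) (C : Ctx A) (r : Tr A) : Ctx A
  | right (a : A) (l : Tr A) (C : Ctx A) : Ctx A

/-- Fill the hole. -/
def Ctx.fill {A : Type} : Ctx A → Tr A → Tr A
  | .hole, s => s
  | .left a C r, s => .node a (C.fill s) r
  | .right a l C, s => .node a l (C.fill s)

/-- Position of the hole. -/
def Ctx.pos {A : Type} : Ctx A → List Bool
  | .hole => []
  | .left _ C _ => false :: C.pos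
  | .right _ _ C => true :: C.pos

/-- Label at a position of the context (`none` for the hole and below). -/
def Ctx.lab? {A : Type} : Ctx A → List Bool → Option A
  | .hole, _ => none
  | .left a _ _, [] => some a
  | .left _ C _, false :: p => C.lab? p
  | .left _ _ r, true :: p => r.lab? p
  | .right a _ _, [] => some a
  | .right _ l _, false :: p => l.lab? p
  | .right _ _ C, true :: p => C.lab? p

/-- Relabelling a context. -/
def Ctx.mapPos {A B : Type} : (List Bool → A → B) → Ctx A → Ctx B
  | _, .hole => .hole
  | g, .left a C r => .left (g [] a) (Ctx.mapPos (fun p => g (false :: p)) C)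
      (Tr.mapPos (fun p => g (true :: p)) r)
  | g, .right a l C => .right (g [] a) (Tr.mapPos (fun p => g (false :: p)) l)
      (Ctx.mapPos (fun p => g (true :: p)) C)

/-- The state transformation of a context. -/
def Alg.ctx {A Q : Type} (α : Alg A Q) : Ctx A → Q → Q
  | .hole, q => q
  | .left a C r, q => α.node a (α.ctx C q) (α.eval r)
  | .right a l C, q => α.node a (α.eval l) (α.ctx C q)

/-! ## Relative position of two bit strings -/

/-- Relative position of `p` with respect to `q`: equal, `p` proper ancestor of `q` (and `q` in the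
`b`-subtree of `p`), `p` proper descendant (in the `b`-subtree) of `q`, left of, right of. -/
inductive Rel : Type
  | eq : Rel
  | anc (b : Bool) : Rel
  | des (b : Bool) : Rel
  | lt : Rel
  | gt : Rel
  deriving DecidableEq

/-- The relative position of the converse pair. -/
def Rel.inv : Rel → Rel
  | .eq => .eq
  | .anc b => .des b
  | .des b => .anc b
  | .lt => .gt
  | .gt => .lt

/-- Relative position of `p` with respect to `q`. -/
def rel : List Bool → List Bool → Rel
  | [], [] => .eq
  | [], b :: _ => .anc b
  | a :: _, [] => .des a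
  | a :: p, b :: q => if a = b then rel p q else if a = false then .lt else .gt

/-- Left-to-right preorder (strict). -/
def pre (p q : List Bool) : Prop := rel p q = .lt ∨ ∃ b, rel p q = .anc b

/-- Right-to-left preorder (strict). -/
def pre' (p q : List Bool) : Prop := rel p q = .gt ∨ ∃ b, rel p q = .anc b

/-- Longest common prefix. -/
def lcp : List Bool → List Bool → List Bool
  | a :: p, b :: q => if a = b then a :: lcp p q else []
  | _, _ => []

/-! ## Ehrenfeucht–Fraïssé equivalence for sets with a finite-valued binary type function -/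

/-- `EF τ τ' n ρ σ`: Duplicator wins the `n`-round MSO game on `(Y, τ)` and `(Y', τ')` from the
position in which the pairs in `ρ` of elements and the pairs in `σ` of subsets are chosen. -/
def EF {Y Y' T : Type} (τ : Y → Y → T) (τ' : Y' → Y' → T) :
    ℕ → Set (Y × Y') → Set (Set Y × Set Y') → Prop
  | 0, ρ, σ => (∀ a ∈ ρ, ∀ b ∈ ρ, τ a.1 b.1 = τ' a.2 b.2 ∧ (a.1 = b.1 ↔ a.2 = b.2)) ∧
      ∀ a ∈ ρ, ∀ P ∈ σ, (a.1 ∈ P.1 ↔ a.2 ∈ P.2)
  | n + 1, ρ, σ => EF τ τ' n ρ σ ∧
      (∀ y, ∃ y', EF τ τ' n (insert (y, y') ρ) σ) ∧
      (∀ y', ∃ y, EF τ τ' n (insert (y, y') ρ) σ) ∧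
      (∀ P, ∃ P', EF τ τ' n ρ (insert (P, P') σ)) ∧
      (∀ P', ∃ P, EF τ τ' n ρ (insert (P, P') σ))

/-! ## Product trees -/

/-- Tables describing a product tree: which cells are present, their labels, and the relative
position of two cells, in terms of the type of the pair of first coordinates and the type of the
pair of second coordinates. -/
structure Tab (S T G : Type) where
  dom : S → T → Prop
  lab : S → T → G
  rel : S → T → Rel

/-- A tree (prefix-closed set of bit strings of bounded length, labelled) whose nodes are the cells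
`(x, y) ∈ X × Y` allowed by the table. -/
structure PTree {S T G : Type} (tab : Tab S T G) {X Y : Type} (τX : X → X → S) (τY : Y → Y → T)
    where
  lab : List Bool → Option G
  bound : ℕ
  lab_bound : ∀ p, (lab p).isSome → p.length ≤ bound
  closed : ∀ p b, (lab (p ++ [b])).isSome → (lab p).isSome
  cx : List Bool → X
  cy : List Bool → Y
  dom_iff : ∀ x y, tab.dom (τX x x) (τY y y) ↔ ∃ p, (lab p).isSome ∧ cx p = x ∧ cy p = y
  lab_eq : ∀ p, (lab p).isSome → lab p = some (tab.lab (τX (cx p) (cx p)) (τY (cy p) (cy p)))
  rel_eq : ∀ p q, (lab p).isSome → (lab q).isSome →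
    TreeMSO.rel p q = tab.rel (τX (cx p) (cx q)) (τY (cy p) (cy q))

/-- The set of nodes. -/
def PTree.dom {S T G : Type} {tab : Tab S T G} {X Y : Type} {τX : X → X → S} {τY : Y → Y → T}
    (W : PTree tab τX τY) (p : List Bool) : Prop := (W.lab p).isSome

/-- Same column (`b = true`) or same row (`b = false`). -/
def PTree.same {S T G : Type} {tab : Tab S T G} {X Y : Type} {τX : X → X → S} {τY : Y → Y → T}
    (W : PTree tab τX τY) (b : Bool) (p q : List Bool) : Prop :=
  if b then W.cy p = W.cy q else W.cx p = W.cx q

/-- A piece: all nodes extending `c` which do not extend the hole `h`. -/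
structure Pc where
  c : List Bool
  h : Option (List Bool)

/-- The positions of a piece. -/
def Pc.Mem (P : Pc) (v : List Bool) : Prop := P.c <+: v ∧ ∀ h ∈ P.h, ¬ h <+: v

/-- `P'` is a column refinement (`b = true`) resp. row refinement (`b = false`) of `P`. -/
def PTree.Refines {S T G : Type} {tab : Tab S T G} {X Y : Type} {τX : X → X → S} {τY : Y → Y → T}
    (W : PTree tab τX τY) (b : Bool) (P P' : Pc) : Prop :=
  (∀ v, W.dom v → P'.Mem v → P.Mem v) ∧
  (∀ h ∈ P.h, P'.c <+: h → ∃ h' ∈ P'.h, h' <+: h) ∧
  (∀ v, W.dom v → P'.Mem v →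
    (∃ f, W.dom f ∧ P.Mem f ∧ ¬ P'.Mem f ∧ W.same b f v ∧ pre f v) ∧
    (∃ g, W.dom g ∧ P.Mem g ∧ ¬ P'.Mem g ∧ W.same b g v ∧ pre' g v))

/-- All alternating refinement sequences of length `m` starting at `P` end in an empty piece. -/
def PTree.Dep {S T G : Type} {tab : Tab S T G} {X Y : Type} {τX : X → X → S} {τY : Y → Y → T}
    (W : PTree tab τX τY) : ℕ → Bool → Pc → Prop
  | 0, _, P => ∀ v, W.dom v → ¬ P.Mem v
  | m + 1, b, P => ∀ P', W.Refines b P P' → W.Dep m (!b) P'

/-! ## Runs -/

/-- The local rule for the states of a bottom-up automaton on a labelled set of positions: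
`q0` outside the tree, `comb` inside. -/
def step {G Q : Type} (q0 : Q) (comb : G → Q → Q → Q) (lab : List Bool → Option G)
    (st : List Bool → Q) (p : List Bool) : Q :=
  match lab p with
  | none => q0
  | some g => comb g (st (p ++ [false])) (st (p ++ [true]))

/-- `st` is the run with the state at `h` overridden by `q` (`ov = some (h, q)`), or the run
without override (`ov = none`). -/
def IsRun {G Q : Type} (q0 : Q) (comb : G → Q → Q → Q) (lab : List Bool → Option G)
    (ov : Option (List Bool × Q)) (st : List Bool → Q) : Prop :=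
  ∀ p, (∀ q, ov = some (p, q) → st p = q) ∧
    ((∀ q, ov ≠ some (p, q)) → st p = step q0 comb lab st p)

end Pool.Agent.TreeMSO
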