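import Mathlib

/-!
# Tree-to-tree MSO interpretations: definitions

Relational vocabularies and structures, monadic second-order formulas, (multi-component,
multi-dimensional) MSO interpretations, finite binary trees in which every node has 0 or 2
children, viewed as structures with label predicates, the descendant order and the document
(infix) order, and tree-to-tree functions computed by MSO interpretations.
-/

namespace Pool.Agent.TreeMSO

/-- A relational vocabulary: relation symbols with their arities. -/
structure Vocab where
  Sym : Type
  ar : Sym → ℕ

/-- A relational structure over the vocabulary `τ`. -/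
structure Str (τ : Vocab) where
  U : Type
  rel : (R : τ.Sym) → (Fin (τ.ar R) → U) → Prop

/-- Monadic second-order formulas over `τ`.  `V` is the type of free first-order variables;
`n` is the number of further (bound) first-order variables in scope and `m` the number of
set variables in scope. -/
inductive Fm (τ : Vocab) (V : Type) : ℕ → ℕ → Type
  | rel {n m : ℕ} (R : τ.Sym) (a : Fin (τ.ar R) → V ⊕ Fin n) : Fm τ V n m
  | eq {n m : ℕ} (x y : V ⊕ Fin n) : Fm τ V n m
  | mem {n m : ℕ} (x : V ⊕ Fin n) (X : Fin m) : Fm τ V n m
  | not {n m : ℕ} (φ : Fm τ V n m) : Fm τ V n m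
  | and {n m : ℕ} (φ ψ : Fm τ V n m) : Fm τ V n m
  /-- quantification over elements -/
  | exE {n m : ℕ} (φ : Fm τ V (n + 1) m) : Fm τ V n m
  /-- quantification over subsets of the universe -/
  | exS {n m : ℕ} (φ : Fm τ V n (m + 1)) : Fm τ V n m

/-- Satisfaction of a formula in the structure `M` under a valuation `v` of the free variables,
`w` of the first-order variables in scope and `S` of the set variables in scope. -/
def Fm.Sat {τ : Vocab} {V : Type} (M : Str τ) (v : V → M.U) :
    {n m : ℕ} → Fm τ V n m → (Fin n → M.U) → (Fin m → Set M.U) → Prop
  | _, _, .rel R a, w, _ => M.rel R (fun j => Sum.elim v w (a j))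
  | _, _, .eq x y, w, _ => Sum.elim v w x = Sum.elim v w y
  | _, _, .mem x X, w, S => Sum.elim v w x ∈ S X
  | _, _, .not φ, w, S => ¬ φ.Sat M v w S
  | _, _, .and φ ψ, w, S => φ.Sat M v w S ∧ ψ.Sat M v w S
  | _, _, .exE φ, w, S => ∃ u : M.U, φ.Sat M v (Fin.snoc w u) S
  | _, _, .exS φ, w, S => ∃ P : Set M.U, φ.Sat M v w (Fin.snoc S P)

/-- Satisfaction of a formula without bound variables in scope. -/
def Fm.Holds {τ : Vocab} {V : Type} (φ : Fm τ V 0 0) (M : Str τ) (v : V → M.U) : Prop :=
  φ.Sat M v Fin.elim0 Fin.elim0

/-- An MSO interpretation from structures over `τ` to structures over `σ`: finitely many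
components, component `i` having a dimension `dim i ≥ 1` and a domain formula with `dim i` free
first-order variables; for each relation symbol `R` of `σ` and each choice `c` of components for
its arguments, a formula whose free variables are the coordinates of the arguments. -/
structure Interp (τ σ : Vocab) where
  Comp : Type
  fin : Finite Comp
  dim : Comp → ℕ
  dim_pos : ∀ i, 1 ≤ dim i
  dom : (i : Comp) → Fm τ (Fin (dim i)) 0 0
  rel : (R : σ.Sym) → (c : Fin (σ.ar R) → Comp) → Fm τ ((j : Fin (σ.ar R)) × Fin (dim (c j))) 0 0

/-- The output structure of an interpretation on the input structure `M`: its universe is the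
disjoint union over the components `i` of the tuples in `M.U ^ dim i` satisfying `dom i`. -/
def Interp.out {τ σ : Vocab} (I : Interp τ σ) (M : Str τ) : Str σ where
  U := (i : I.Comp) × {x : Fin (I.dim i) → M.U // (I.dom i).Holds M x}
  rel R a := (I.rel R (fun j => (a j).1)).Holds M (fun z => (a z.1).2.1 z.2)

/-- Isomorphism of structures. -/
def Str.Iso {τ : Vocab} (M N : Str τ) : Prop :=
  ∃ e : M.U ≃ N.U, ∀ (R : τ.Sym) (a : Fin (τ.ar R) → M.U), M.rel R a ↔ N.rel R (fun j => e (a j))

/-- Finite binary trees labelled by `A` in which every node has 0 or 2 children. -/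
inductive Tr (A : Type) : Type
  | leaf (a : A) : Tr A
  | node (a : A) (l r : Tr A) : Tr A

/-- The label at a position (a word of directions, `false` = left, `true` = right), `none` if the
tree has no node there. -/
def Tr.lab? {A : Type} : Tr A → List Bool → Option A
  | .leaf a, [] => some a
  | .leaf _, _ :: _ => none
  | .node a _ _, [] => some a
  | .node _ l _, false :: p => l.lab? p
  | .node _ _ r, true :: p => r.lab? p

/-- The nodes of a tree, as positions. -/
def Tr.Node {A : Type} (t : Tr A) : Type := {p : List Bool // (t.lab? p).isSome}

/-- Document (infix) order on positions: left subtree < root < right subtree. -/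
def docLt : List Bool → List Bool → Prop
  | [], [] => False
  | [], b :: _ => b = true
  | a :: _, [] => a = false
  | a :: p, b :: q => (a = false ∧ b = true) ∨ (a = b ∧ docLt p q)

/-- The symbols of the vocabulary of trees over `A`: unary label predicates, the descendant order
and the document order. -/
inductive TSym (A : Type) : Type
  | lab (a : A) : TSym A
  | desc : TSym A
  | doc : TSym A

/-- Arities of the symbols of the vocabulary of trees. -/
def TSym.ar {A : Type} : TSym A → ℕ
  | .lab _ => 1
  | .desc => 2
  | .doc => 2

/-- The vocabulary of trees over `A`. -/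
def treeVocab (A : Type) : Vocab := ⟨TSym A, TSym.ar⟩

/-- A tree as a relational structure: universe = nodes; `lab a` = the nodes labelled `a`;
`desc x y` iff `y` is a descendant of `x` or `x = y`; `doc x y` iff `x` is before `y` in the
document order. -/
def treeStr {A : Type} (t : Tr A) : Str (treeVocab A) where
  U := t.Node
  rel R := match R with
    | .lab a => fun (x : Fin 1 → t.Node) => t.lab? (x 0).1 = some a
    | .desc => fun (x : Fin 2 → t.Node) => (x 0).1 <+: (x 1).1
    | .doc => fun (x : Fin 2 → t.Node) => docLt (x 0).1 (x 1).1

/-- `f` is a tree-to-tree MSO interpretation: some MSO interpretation maps every input tree `t`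
to a structure isomorphic to `f t`. -/
def IsTreeInterp {A B : Type} (f : Tr A → Tr B) : Prop :=
  ∃ I : Interp (treeVocab A) (treeVocab B), ∀ t : Tr A, (I.out (treeStr t)).Iso (treeStr (f t))

end Pool.Agent.TreeMSO
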