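import Pool.Agent.TreeMSO.Base

/-!
# The depth bound for alternating refinement sequences
-/

namespace Pool.Agent.TreeMSO

namespace DepthAux

theorem rel_inv (p q : List Bool) : rel q p = (rel p q).inv := by
  induction p generalizing q with
  | nil => cases q <;> rfl
  | cons a p ih =>
    cases q with
    | nil => rfl
    | cons b q =>
      simp only [rel]
      by_cases h : a = b
      · subst h; simp [ih q]
      · have h' : ¬ b = a := fun e => h e.symm
        rw [if_neg h, if_neg h']
        cases a <;> cases b <;> simp_all [Rel.inv]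

theorem prefix_iff (p q : List Bool) : p <+: q ↔ rel p q = .eq ∨ ∃ b, rel p q = .anc b := by
  induction p generalizing q with
  | nil => cases q <;> simp [rel]
  | cons a p ih =>
    cases q with
    | nil => simp [rel]
    | cons b q =>
      simp only [rel, List.cons_prefix_cons]
      by_cases h : a = b
      · subst h; simp [ih q]
      · rw [if_neg h]
        cases a <;> cases b <;> simp_all

theorem rel_const {c p v : List Bool} (h : ¬ c <+: p) (hv : c <+: v) : rel p v = rel p c := by
  induction c generalizing p v with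
  | nil => exact absurd List.nil_prefix h
  | cons a c ih =>
    cases v with
    | nil => simp at hv
    | cons a' v =>
      rw [List.cons_prefix_cons] at hv
      obtain ⟨rfl, hv⟩ := hv
      cases p with
      | nil => rfl
      | cons b p =>
        simp only [rel]
        by_cases hb : b = a
        · subst hb
          simp only [if_true]
          exact ih (fun h1 => h (by rw [List.cons_prefix_cons]; exact ⟨rfl, h1⟩)) hv
        · rw [if_neg hb, if_neg hb]

theorem rel_const' {c p v w : List Bool} (h : ¬ c <+: p) (hv : c <+: v) (hw : c <+: w) :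
    rel p v = rel p w := by rw [rel_const h hv, rel_const h hw]

/-- if `f` extends the hole `h`, `w` does not, and `f` is before `w` in preorder, then `f` and `h`
are to the left of `w` -/
theorem hole_pre {h f w : List Bool} (hf : h <+: f) (hw : ¬ h <+: w) (hp : pre f w) :
    rel f w = .lt ∧ rel h w = .lt := by
  have h1 : rel f w = .lt := by
    rcases hp with h1 | ⟨b, h1⟩
    · exact h1
    · exact absurd (hf.trans ((prefix_iff f w).mpr (Or.inr ⟨b, h1⟩))) hw
  refine ⟨h1, ?_⟩
  have h2 := rel_const hw hf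
  rw [rel_inv w h, ← h2, ← rel_inv w f, h1]

theorem hole_pre' {h f w : List Bool} (hf : h <+: f) (hw : ¬ h <+: w) (hp : pre' f w) :
    rel f w = .gt ∧ rel h w = .gt := by
  have h1 : rel f w = .gt := by
    rcases hp with h1 | ⟨b, h1⟩
    · exact h1
    · exact absurd (hf.trans ((prefix_iff f w).mpr (Or.inr ⟨b, h1⟩))) hw
  refine ⟨h1, ?_⟩
  have h2 := rel_const hw hf
  rw [rel_inv w h, ← h2, ← rel_inv w f, h1]

theorem prefix_comparable {a b c : List Bool} (ha : a <+: c) (hb : b <+: c) :
    a <+: b ∨ b <+: a := List.prefix_or_prefix_of_prefix ha hb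

section

variable {S T G : Type} {tab : Tab S T G} {X Y : Type} {τX : X → X → S} {τY : Y → Y → T}

/-- The refinement parity of step `i`. -/
def par (b : Bool) (i : ℕ) : Bool := if i % 2 = 0 then b else !b

theorem par_succ (b : Bool) (i : ℕ) : par b (i + 1) = par (!b) i := by
  unfold par
  rcases Nat.mod_two_eq_zero_or_one i with h | h
  · rw [if_pos h, if_neg (by omega)]
  · rw [if_pos (by omega), if_neg (by omega), Bool.not_not]

theorem exists_chain (W : PTree tab τX τY) (m : ℕ) : ∀ (b : Bool) (P : Pc), ¬ W.Dep m b P →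
    ∃ Q : ℕ → Pc, Q 0 = P ∧ (∀ i, i < m → W.Refines (par b i) (Q i) (Q (i + 1))) ∧
      ∃ w, W.dom w ∧ (Q m).Mem w := by
  induction m with
  | zero =>
    intro b P h
    simp only [PTree.Dep, not_forall, not_not] at h
    obtain ⟨w, hw, hm⟩ := h
    exact ⟨fun _ => P, rfl, fun i hi => absurd hi (Nat.not_lt_zero i), w, hw, hm⟩
  | succ m ih =>
    intro b P h
    simp only [PTree.Dep, not_forall] at h
    obtain ⟨P', hP', hd⟩ := h
    obtain ⟨Q, hQ0, hQ, w, hw, hm⟩ := ih (!b) P' hd
    refine ⟨fun i => Nat.casesOn i P Q, rfl, ?_, w, hw, hm⟩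
    intro i hi
    cases i with
    | zero =>
      show W.Refines (par b 0) P (Q 0)
      rw [hQ0]
      exact hP'
    | succ i =>
      show W.Refines (par b (i + 1)) (Q i) (Q (i + 1))
      rw [par_succ]
      exact hQ i (by omega)

end

end DepthAux

open DepthAux

theorem depth_bound {S T G : Type} [Finite S] {tab : Tab S T G} {X Y : Type} {τX : X → X → S}
    {τY : Y → Y → T} (W : PTree tab τX τY) (P : Pc) :
    W.Dep (4 * Nat.card S ^ 2 + 4) true P := by
  classical
  have := Fintype.ofFinite S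
  by_contra hD
  obtain ⟨Q, -, hQ, w, hw, hwm⟩ := exists_chain W _ _ _ hD
  set M := 4 * Nat.card S ^ 2 + 4 with hM
  -- monotonicity
  have hmono : ∀ j i, i ≤ j → j ≤ M → ∀ v, W.dom v → (Q j).Mem v → (Q i).Mem v := by
    intro j
    induction j with
    | zero =>
      intro i hi _ v _ hv
      rw [Nat.le_zero.mp hi]; exact hv
    | succ j ih =>
      intro i hi hj v hd hv
      rcases Nat.lt_or_ge i (j + 1) with h | h
      · exact ih i (by omega) (by omega) v hd ((hQ j (by omega)).1 v hd hv)
      · have : i = j + 1 := by omega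
        rw [this]; exact hv
  have hwQ : ∀ i, i ≤ M → (Q i).Mem w := fun i hi => hmono M i hi le_rfl w hw hwm
  -- witnesses
  have hfg : ∀ i, ∃ f g : List Bool, i < M →
      (W.dom f ∧ (Q i).Mem f ∧ ¬ (Q (i + 1)).Mem f ∧ W.same (par true i) f w ∧ pre f w) ∧
      (W.dom g ∧ (Q i).Mem g ∧ ¬ (Q (i + 1)).Mem g ∧ W.same (par true i) g w ∧ pre' g w) := by
    intro i
    by_cases hi : i < M
    · obtain ⟨⟨f, hf⟩, ⟨g, hg⟩⟩ := (hQ i hi).2.2 w hw (hwQ (i + 1) (by omega))
      exact ⟨f, g, fun _ => ⟨hf, hg⟩⟩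
    · exact ⟨[], [], fun h => absurd h hi⟩
  choose f g hfg using hfg
  have hf := fun i hi => (hfg i hi).1
  have hg := fun i hi => (hfg i hi).2
  -- the codes: step `4 * j` (column steps)
  obtain ⟨j, j', hne, hcode⟩ : ∃ j j' : Fin (Nat.card S ^ 2 + 1), j ≠ j' ∧
      (τX (W.cx (f (4 * j.1))) (W.cx w), τX (W.cx (g (4 * j.1))) (W.cx w)) =
      (τX (W.cx (f (4 * j'.1))) (W.cx w), τX (W.cx (g (4 * j'.1))) (W.cx w)) := by
    apply Fintype.exists_ne_map_eq_of_card_lt
      (fun j : Fin (Nat.card S ^ 2 + 1) =>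
        (τX (W.cx (f (4 * j.1))) (W.cx w), τX (W.cx (g (4 * j.1))) (W.cx w)))
    rw [Fintype.card_prod, Fintype.card_fin, Nat.card_eq_fintype_card]
    nlinarith
  -- main argument, for `i + 4 ≤ i'`, both column steps
  have main : ∀ i i' : ℕ, i % 2 = 0 → i' % 2 = 0 → i + 4 ≤ i' → i' < M →
      τX (W.cx (f i)) (W.cx w) = τX (W.cx (f i')) (W.cx w) →
      τX (W.cx (g i)) (W.cx w) = τX (W.cx (g i')) (W.cx w) → False := by
    intro i i' hi hi' hii hM' hcf hcg
    have hiM : i < M := by omega
    -- same-position facts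
    have hrow : ∀ k, k % 2 = 1 → k < M → W.cx (f k) = W.cx w ∧ W.cx (g k) = W.cx w := by
      intro k hk hkM
      have h1 := (hf k hkM).2.2.2.1
      have h2 := (hg k hkM).2.2.2.1
      have hp : par true k = false := by unfold par; rw [if_neg (by omega)]; rfl
      rw [hp] at h1 h2
      exact ⟨by simpa [PTree.same] using h1, by simpa [PTree.same] using h2⟩
    have hcol : ∀ k, k % 2 = 0 → k < M → W.cy (f k) = W.cy w ∧ W.cy (g k) = W.cy w := by
      intro k hk hkM
      have h1 := (hf k hkM).2.2.2.1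
      have h2 := (hg k hkM).2.2.2.1
      have hp : par true k = true := by unfold par; rw [if_pos hk]
      rw [hp] at h1 h2
      exact ⟨by simpa [PTree.same] using h1, by simpa [PTree.same] using h2⟩
    -- equality of relative positions
    have key : ∀ (a a' b : List Bool), W.dom a → W.dom a' → W.dom b → W.cy a = W.cy w →
        W.cy a' = W.cy w → W.cx b = W.cx w → τX (W.cx a) (W.cx w) = τX (W.cx a') (W.cx w) →
        rel a b = rel a' b := by
      intro a a' b ha ha' hb hay hay' hbx hc
      rw [W.rel_eq a b ha hb, W.rel_eq a' b ha' hb, hay, hay', hbx, hc]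
    -- constant relative positions
    have inC : ∀ k l, k ≤ l → l ≤ M → ∀ v, W.dom v → (Q l).Mem v → (Q k).c <+: v :=
      fun k l hkl hl v hd hv => (hmono l k hkl hl v hd hv).1
    have hwc : ∀ k, k ≤ M → (Q k).c <+: w := fun k hk => (hwQ k hk).1
    -- out: constant
    have outr : ∀ k l (z v : List Bool), ¬ (Q (k + 1)).c <+: z → k + 1 ≤ l → l ≤ M → W.dom v →
        (Q l).Mem v → rel z v = rel z w := fun k l z v hz hkl hl hd hv =>
      rel_const' hz (inC (k + 1) l hkl hl v hd hv) (hwc (k + 1) (by omega))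
    have ffH : ∀ k, k < M → (Q (k + 1)).c <+: f k →
        ∃ h ∈ (Q (k + 1)).h, h <+: f k ∧ rel (f k) w = .lt ∧ rel h w = .lt := by
      intro k hk hc
      have h1 := (hf k hk).2.2.1
      simp only [Pc.Mem, not_and, not_forall, not_not] at h1
      obtain ⟨h, hh, hhf⟩ := h1 hc
      exact ⟨h, hh, hhf, hole_pre hhf ((hwQ (k + 1) (by omega)).2 h hh) (hf k hk).2.2.2.2⟩
    have ggH : ∀ k, k < M → (Q (k + 1)).c <+: g k →
        ∃ h ∈ (Q (k + 1)).h, h <+: g k ∧ rel (g k) w = .gt ∧ rel h w = .gt := by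
      intro k hk hc
      have h1 := (hg k hk).2.2.1
      simp only [Pc.Mem, not_and, not_forall, not_not] at h1
      obtain ⟨h, hh, hhf⟩ := h1 hc
      exact ⟨h, hh, hhf, hole_pre' hhf ((hwQ (k + 1) (by omega)).2 h hh) (hg k hk).2.2.2.2⟩
    have notboth : ∀ k, k < M → (Q (k + 1)).c <+: f k → (Q (k + 1)).c <+: g k → False := by
      intro k hk h1 h2
      obtain ⟨h, hh, -, -, hl⟩ := ffH k hk h1
      obtain ⟨h', hh', -, -, hr⟩ := ggH k hk h2
      have : h = h' := by
        rw [Option.mem_def] at hh hh'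
        rw [hh] at hh'
        exact Option.some.inj hh'
      subst this
      rw [hl] at hr
      cases hr
    -- the four comparisons for a row step `k` between `i` and `i'`
    have cmp : ∀ k, k % 2 = 1 → i < k → k < i' →
        (((Q (i + 1)).c <+: f i) ∨ ((Q (k + 1)).c <+: f k)) ∧
        (((Q (i + 1)).c <+: g i) ∨ ((Q (k + 1)).c <+: g k)) ∧
        (¬ ((Q (i + 1)).c <+: f i) → ¬ ((Q (k + 1)).c <+: g k) →
          rel (f i) w = .lt ∧ rel (g k) w = .gt) ∧
        (¬ ((Q (i + 1)).c <+: g i) → ¬ ((Q (k + 1)).c <+: f k) →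
          rel (g i) w = .gt ∧ rel (f k) w = .lt) := by
      intro k hk hik hki
      have hkM : k < M := by omega
      obtain ⟨hfi1, hfi2, -, -, hfi5⟩ := hf i hiM
      obtain ⟨hgi1, hgi2, -, -, hgi5⟩ := hg i hiM
      obtain ⟨hfk1, hfk2, -, -, hfk5⟩ := hf k hkM
      obtain ⟨hgk1, hgk2, -, -, hgk5⟩ := hg k hkM
      obtain ⟨hfi1', hfi2', -, -, -⟩ := hf i' hM'
      obtain ⟨hgi1', hgi2', -, -, -⟩ := hg i' hM'
      have eff := key (f i) (f i') (f k) hfi1 hfi1' hfk1 (hcol i hi hiM).1 (hcol i' hi' hM').1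
        (hrow k hk hkM).1 hcf
      have efg := key (f i) (f i') (g k) hfi1 hfi1' hgk1 (hcol i hi hiM).1 (hcol i' hi' hM').1
        (hrow k hk hkM).2 hcf
      have egf := key (g i) (g i') (f k) hgi1 hgi1' hfk1 (hcol i hi hiM).2 (hcol i' hi' hM').2
        (hrow k hk hkM).1 hcg
      have egg := key (g i) (g i') (g k) hgi1 hgi1' hgk1 (hcol i hi hiM).2 (hcol i' hi' hM').2
        (hrow k hk hkM).2 hcg
      -- positions
      have A1 : ∀ v, W.dom v → (Q k).Mem v → ∀ z, ¬ (Q (i + 1)).c <+: z → rel z v = rel z w :=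
        fun v hd hv z hz => outr i k z v hz (by omega) (by omega) hd hv
      have A2 : ∀ v, W.dom v → (Q i').Mem v → ∀ z, ¬ (Q (k + 1)).c <+: z → rel z v = rel z w :=
        fun v hd hv z hz => outr k i' z v hz (by omega) (by omega) hd hv
      refine ⟨?_, ?_, ?_, ?_⟩
      · by_contra hcon
        push Not at hcon
        obtain ⟨h1, h2⟩ := hcon
        have e1 := A1 (f k) hfk1 hfk2 (f i) h1
        have e2 := A2 (f i') hfi1' hfi2' (f k) h2
        rw [eff, rel_inv (f k) (f i'), e2] at e1
        rcases hfi5 with h | ⟨b, h⟩ <;> rcases hfk5 with h' | ⟨b', h'⟩ <;>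
          rw [h, h'] at e1 <;> cases e1
      · by_contra hcon
        push Not at hcon
        obtain ⟨h1, h2⟩ := hcon
        have e1 := A1 (g k) hgk1 hgk2 (g i) h1
        have e2 := A2 (g i') hgi1' hgi2' (g k) h2
        rw [egg, rel_inv (g k) (g i'), e2] at e1
        rcases hgi5 with h | ⟨b, h⟩ <;> rcases hgk5 with h' | ⟨b', h'⟩ <;>
          rw [h, h'] at e1 <;> cases e1
      · intro h1 h2
        have e1 := A1 (g k) hgk1 hgk2 (f i) h1
        have e2 := A2 (f i') hfi1' hfi2' (g k) h2
        rw [efg, rel_inv (g k) (f i'), e2] at e1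
        rcases hfi5 with h | ⟨b, h⟩ <;> rcases hgk5 with h' | ⟨b', h'⟩ <;>
          rw [h, h'] at e1 <;> first | exact ⟨h, h'⟩ | cases e1
      · intro h1 h2
        have e1 := A1 (f k) hfk1 hfk2 (g i) h1
        have e2 := A2 (g i') hgi1' hgi2' (f k) h2
        rw [egf, rel_inv (f k) (g i'), e2] at e1
        rcases hgi5 with h | ⟨b, h⟩ <;> rcases hfk5 with h' | ⟨b', h'⟩ <;>
          rw [h, h'] at e1 <;> first | exact ⟨h, h'⟩ | cases e1
    have hk1 := cmp (i + 1) (by omega) (by omega) (by omega)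
    have hk3 := cmp (i + 3) (by omega) (by omega) (by omega)
    by_cases hA : (Q (i + 1)).c <+: g i
    · -- case A : `g i` in the hole
      have hfi : ¬ (Q (i + 1)).c <+: f i := fun h => notboth i hiM h hA
      have hfk1 : (Q (i + 1 + 1)).c <+: f (i + 1) := hk1.1.resolve_left hfi
      have hfk3 : (Q (i + 3 + 1)).c <+: f (i + 3) := hk3.1.resolve_left hfi
      have hgk3 : ¬ (Q (i + 3 + 1)).c <+: g (i + 3) := fun h => notboth (i + 3) (by omega) hfk3 h
      obtain ⟨h, hh, hhg, hgw, hhw⟩ := ggH i hiM hA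
      obtain ⟨h', hh', hhf', hfw', hhw'⟩ := ffH (i + 1) (by omega) hfk1
      have n1 : ¬ (Q (i + 1 + 1)).c <+: h := by
        intro hc
        obtain ⟨h2, hh2, hp2⟩ := (hQ (i + 1) (by omega)).2.1 h hh hc
        have : h2 = h' := by
          rw [Option.mem_def] at hh2 hh'
          rw [hh2] at hh'
          exact Option.some.inj hh'
        subst this
        have h3 := rel_const ((hwQ (i + 1 + 1) (by omega)).2 h2 hh') hp2
        have h4 : rel h w = rel h2 w := by rw [rel_inv w h, rel_inv w h2, h3]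
        rw [hhw, hhw'] at h4
        cases h4
      have n2 : ¬ (Q (i + 1 + 1)).c <+: g i := by
        intro hc
        rcases prefix_comparable hc hhg with h5 | h5
        · exact n1 h5
        · exact (hwQ (i + 1) (by omega)).2 h hh (h5.trans (hwc (i + 1 + 1) (by omega)))
      have e1 := outr (i + 1) (i + 3) (g i) (g (i + 3)) n2 (by omega) (by omega)
        (hg (i + 3) (by omega)).1 (hg (i + 3) (by omega)).2.1
      have e2 := outr (i + 3) i' (g (i + 3)) (g i') hgk3 (by omega) (by omega)
        (hg i' hM').1 (hg i' hM').2.1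
      have egg := key (g i) (g i') (g (i + 3)) (hg i hiM).1 (hg i' hM').1 (hg (i + 3) (by omega)).1
        (hcol i hi hiM).2 (hcol i' hi' hM').2 (hrow (i + 3) (by omega) (by omega)).2 hcg
      have h6 := (hk3.2.2.1 hfi hgk3).2
      rw [egg, rel_inv (g (i + 3)) (g i'), e2, h6, hgw] at e1
      cases e1
    · -- case B : `g i` outside, `f i` in the hole
      have hgk1 : (Q (i + 1 + 1)).c <+: g (i + 1) := hk1.2.1.resolve_left hA
      have hgk3 : (Q (i + 3 + 1)).c <+: g (i + 3) := hk3.2.1.resolve_left hA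
      have hfk1 : ¬ (Q (i + 1 + 1)).c <+: f (i + 1) := fun h => notboth (i + 1) (by omega) h hgk1
      have hfk3 : ¬ (Q (i + 3 + 1)).c <+: f (i + 3) := fun h => notboth (i + 3) (by omega) h hgk3
      have hB : (Q (i + 1)).c <+: f i := hk1.1.resolve_right hfk1
      obtain ⟨h, hh, hhf, hfw, hhw⟩ := ffH i hiM hB
      obtain ⟨h', hh', hhg', hgw', hhw'⟩ := ggH (i + 1) (by omega) hgk1
      have n1 : ¬ (Q (i + 1 + 1)).c <+: h := by
        intro hc
        obtain ⟨h2, hh2, hp2⟩ := (hQ (i + 1) (by omega)).2.1 h hh hc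
        have : h2 = h' := by
          rw [Option.mem_def] at hh2 hh'
          rw [hh2] at hh'
          exact Option.some.inj hh'
        subst this
        have h3 := rel_const ((hwQ (i + 1 + 1) (by omega)).2 h2 hh') hp2
        have h4 : rel h w = rel h2 w := by rw [rel_inv w h, rel_inv w h2, h3]
        rw [hhw, hhw'] at h4
        cases h4
      have n2 : ¬ (Q (i + 1 + 1)).c <+: f i := by
        intro hc
        rcases prefix_comparable hc hhf with h5 | h5
        · exact n1 h5
        · exact (hwQ (i + 1) (by omega)).2 h hh (h5.trans (hwc (i + 1 + 1) (by omega)))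
      have e1 := outr (i + 1) (i + 3) (f i) (f (i + 3)) n2 (by omega) (by omega)
        (hf (i + 3) (by omega)).1 (hf (i + 3) (by omega)).2.1
      have e2 := outr (i + 3) i' (f (i + 3)) (f i') hfk3 (by omega) (by omega)
        (hf i' hM').1 (hf i' hM').2.1
      have eff := key (f i) (f i') (f (i + 3)) (hf i hiM).1 (hf i' hM').1 (hf (i + 3) (by omega)).1
        (hcol i hi hiM).1 (hcol i' hi' hM').1 (hrow (i + 3) (by omega) (by omega)).1 hcf
      have h6 := (hk3.2.2.2 hA hfk3).2
      rw [eff, rel_inv (f (i + 3)) (f i'), e2, h6, hfw] at e1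
      cases e1
  obtain ⟨hc1, hc2⟩ := Prod.mk.inj hcode
  have hjM : 4 * j.1 < M := by have := j.2; omega
  have hjM' : 4 * j'.1 < M := by have := j'.2; omega
  rcases Nat.lt_or_ge j.1 j'.1 with h | h
  · exact main (4 * j.1) (4 * j'.1) (by omega) (by omega) (by omega) hjM' hc1 hc2
  · have hne' : j.1 ≠ j'.1 := fun e => hne (Fin.ext e)
    exact main (4 * j'.1) (4 * j.1) (by omega) (by omega) (by omega) hjM hc1.symm hc2.symm

end Pool.Agent.TreeMSO
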