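import Pool.Agent.TreeMSO.Base

/-!
# Finitely many Ehrenfeucht–Fraïssé types, and multi-moves
-/

namespace Pool.Agent.TreeMSO

/-- Codes of positions in the game. -/
def EfCode (T : Type) : ℕ → ℕ → ℕ → Type
  | 0, i, j => (Fin i → Fin i → T × Prop) × (Fin i → Fin j → Prop)
  | n + 1, i, j => EfCode T n i j × Set (EfCode T n (i + 1) j) × Set (EfCode T n i (j + 1))

theorem EfCode.finite (T : Type) [Finite T] : ∀ n i j : ℕ, Finite (EfCode T n i j)
  | 0, i, j => by unfold EfCode; infer_instance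
  | n + 1, i, j => by
    have h1 := EfCode.finite T n i j
    have h2 := EfCode.finite T n (i + 1) j
    have h3 := EfCode.finite T n i (j + 1)
    unfold EfCode
    infer_instance

/-- The code of a position in the game. -/
def efCode {T Y : Type} (τ : Y → Y → T) :
    (n i j : ℕ) → (Fin i → Y) → (Fin j → Set Y) → EfCode T n i j
  | 0, _, _, u, P => (fun a b => (τ (u a) (u b), u a = u b), fun a b => u a ∈ P b)
  | n + 1, i, j, u, P => (efCode τ n i j u P,
      Set.range fun y : Y => efCode τ n (i + 1) j (Fin.snoc (α := fun _ => Y) u y) P,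
      Set.range fun R : Set Y => efCode τ n i (j + 1) u (Fin.snoc (α := fun _ => Set Y) P R))

theorem range_snoc_pair {Y Y' : Type} {i : ℕ} (u : Fin i → Y) (u' : Fin i → Y') (y : Y)
    (y' : Y') :
    (Set.range fun a : Fin (i + 1) => (Fin.snoc (α := fun _ => Y) u y a,
      Fin.snoc (α := fun _ => Y') u' y' a)) = insert (y, y') (Set.range fun a => (u a, u' a)) := by
  ext z
  constructor
  · rintro ⟨a, rfl⟩
    refine Fin.lastCases ?_ (fun a => ?_) a
    · left
      simp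
    · right
      exact ⟨a, by simp⟩
  · rintro (rfl | ⟨a, rfl⟩)
    · exact ⟨Fin.last i, by simp⟩
    · exact ⟨a.castSucc, by simp⟩

theorem ef_of_efCode {T Y Y' : Type} (τ : Y → Y → T) (τ' : Y' → Y' → T) :
    ∀ (n i j : ℕ) (u : Fin i → Y) (P : Fin j → Set Y) (u' : Fin i → Y') (P' : Fin j → Set Y'),
      efCode τ n i j u P = efCode τ' n i j u' P' →
      EF τ τ' n (Set.range fun a => (u a, u' a)) (Set.range fun b => (P b, P' b))
  | 0, i, j, u, P, u', P' => by
    intro h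
    have h1 : (fun a b => (τ (u a) (u b), u a = u b)) =
        (fun a b => (τ' (u' a) (u' b), u' a = u' b)) := congrArg Prod.fst h
    have h2 : (fun a b => u a ∈ P b) = (fun a b => u' a ∈ P' b) := congrArg Prod.snd h
    refine ⟨?_, ?_⟩
    · rintro _ ⟨a, rfl⟩ _ ⟨b, rfl⟩
      have h3 := congrFun (congrFun h1 a) b
      exact ⟨congrArg Prod.fst h3, iff_of_eq (congrArg Prod.snd h3)⟩
    · rintro _ ⟨a, rfl⟩ _ ⟨b, rfl⟩
      exact iff_of_eq (congrFun (congrFun h2 a) b)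
  | n + 1, i, j, u, P, u', P' => by
    intro h
    have h1 : efCode τ n i j u P = efCode τ' n i j u' P' := congrArg Prod.fst h
    have h2 : (Set.range fun y : Y => efCode τ n (i + 1) j (Fin.snoc (α := fun _ => Y) u y) P) =
        Set.range fun y : Y' => efCode τ' n (i + 1) j (Fin.snoc (α := fun _ => Y') u' y) P' :=
      congrArg (fun z => z.2.1) h
    have h3 : (Set.range fun R : Set Y =>
          efCode τ n i (j + 1) u (Fin.snoc (α := fun _ => Set Y) P R)) =
        Set.range fun R : Set Y' =>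
          efCode τ' n i (j + 1) u' (Fin.snoc (α := fun _ => Set Y') P' R) :=
      congrArg (fun z => z.2.2) h
    refine ⟨ef_of_efCode τ τ' n i j u P u' P' h1, ?_, ?_, ?_, ?_⟩
    · intro y
      have : efCode τ n (i + 1) j (Fin.snoc (α := fun _ => Y) u y) P ∈
          Set.range fun y : Y' => efCode τ' n (i + 1) j (Fin.snoc (α := fun _ => Y') u' y) P' := by
        rw [← h2]; exact ⟨y, rfl⟩
      obtain ⟨y', hy'⟩ := this
      refine ⟨y', ?_⟩
      rw [← range_snoc_pair]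
      exact ef_of_efCode τ τ' n (i + 1) j _ P _ P' hy'.symm
    · intro y'
      have : efCode τ' n (i + 1) j (Fin.snoc (α := fun _ => Y') u' y') P' ∈
          Set.range fun y : Y => efCode τ n (i + 1) j (Fin.snoc (α := fun _ => Y) u y) P := by
        rw [h2]; exact ⟨y', rfl⟩
      obtain ⟨y, hy⟩ := this
      refine ⟨y, ?_⟩
      rw [← range_snoc_pair]
      exact ef_of_efCode τ τ' n (i + 1) j _ P _ P' hy
    · intro R
      have : efCode τ n i (j + 1) u (Fin.snoc (α := fun _ => Set Y) P R) ∈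
          Set.range fun R : Set Y' =>
            efCode τ' n i (j + 1) u' (Fin.snoc (α := fun _ => Set Y') P' R) := by
        rw [← h3]; exact ⟨R, rfl⟩
      obtain ⟨R', hR'⟩ := this
      refine ⟨R', ?_⟩
      rw [← range_snoc_pair]
      exact ef_of_efCode τ τ' n i (j + 1) u _ u' _ hR'.symm
    · intro R'
      have : efCode τ' n i (j + 1) u' (Fin.snoc (α := fun _ => Set Y') P' R') ∈
          Set.range fun R : Set Y =>
            efCode τ n i (j + 1) u (Fin.snoc (α := fun _ => Set Y) P R) := by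
        rw [h3]; exact ⟨R', rfl⟩
      obtain ⟨R, hR⟩ := this
      refine ⟨R, ?_⟩
      rw [← range_snoc_pair]
      exact ef_of_efCode τ τ' n i (j + 1) u _ u' _ hR

theorem ef_code (T : Type) [Finite T] (n : ℕ) :
    ∃ (Q : Type) (_ : Finite Q) (code : (Y : Type) → (Y → Y → T) → Q),
      ∀ (Y Y' : Type) (τ : Y → Y → T) (τ' : Y' → Y' → T), code Y τ = code Y' τ' →
        EF τ τ' n ∅ ∅ := by
  refine ⟨EfCode T n 0 0, EfCode.finite T n 0 0,
    fun Y τ => efCode τ n 0 0 Fin.elim0 Fin.elim0, fun Y Y' τ τ' h => ?_⟩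
  have := ef_of_efCode τ τ' n 0 0 _ _ _ _ h
  rwa [Set.range_eq_empty, Set.range_eq_empty] at this

section
variable {Y Y' T : Type} {τ : Y → Y → T} {τ' : Y' → Y' → T}

theorem EF.le {n m : ℕ} {ρ : Set (Y × Y')} {σ : Set (Set Y × Set Y')}
    (h : EF τ τ' n ρ σ) (hm : m ≤ n) : EF τ τ' m ρ σ := by
  induction n with
  | zero =>
    obtain rfl : m = 0 := by omega
    exact h
  | succ n ih =>
    rcases Nat.lt_or_ge m (n + 1) with h1 | h1
    · exact ih h.1 (by omega)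
    · obtain rfl : m = n + 1 := by omega
      exact h

theorem EF.subset : ∀ {n : ℕ} {ρ ρ' : Set (Y × Y')} {σ σ' : Set (Set Y × Set Y')},
    EF τ τ' n ρ σ → ρ' ⊆ ρ → σ' ⊆ σ → EF τ τ' n ρ' σ'
  | 0, _, _, _, _, h, hρ, hσ =>
    ⟨fun a ha b hb => h.1 a (hρ ha) b (hρ hb), fun a ha P hP => h.2 a (hρ ha) P (hσ hP)⟩
  | n + 1, _, _, _, _, ⟨h0, h1, h2, h3, h4⟩, hρ, hσ => by
    refine ⟨EF.subset h0 hρ hσ, fun y => ?_, fun y' => ?_, fun P => ?_, fun P' => ?_⟩
    · obtain ⟨y', hy⟩ := h1 y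
      exact ⟨y', EF.subset hy (Set.insert_subset_insert hρ) hσ⟩
    · obtain ⟨y, hy⟩ := h2 y'
      exact ⟨y, EF.subset hy (Set.insert_subset_insert hρ) hσ⟩
    · obtain ⟨P', hP⟩ := h3 P
      exact ⟨P', EF.subset hP hρ (Set.insert_subset_insert hσ)⟩
    · obtain ⟨P, hP⟩ := h4 P'
      exact ⟨P, EF.subset hP hρ (Set.insert_subset_insert hσ)⟩

theorem EF.mono {n m : ℕ} {ρ ρ' : Set (Y × Y')} {σ σ' : Set (Set Y × Set Y')}
    (h : EF τ τ' n ρ σ) (hm : m ≤ n) (hρ : ρ' ⊆ ρ) (hσ : σ' ⊆ σ) : EF τ τ' m ρ' σ' :=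
  (h.le hm).subset hρ hσ

theorem EF.symm {n : ℕ} {ρ : Set (Y × Y')} {σ : Set (Set Y × Set Y')} (h : EF τ τ' n ρ σ) :
    EF τ' τ n (Prod.swap '' ρ) (Prod.swap '' σ) := by
  induction n generalizing ρ σ with
  | zero =>
    refine ⟨?_, ?_⟩
    · rintro _ ⟨a, ha, rfl⟩ _ ⟨b, hb, rfl⟩
      have := h.1 a ha b hb
      exact ⟨this.1.symm, this.2.symm⟩
    · rintro _ ⟨a, ha, rfl⟩ _ ⟨P, hP, rfl⟩
      exact (h.2 a ha P hP).symm
  | succ n ih =>
    obtain ⟨h0, h1, h2, h3, h4⟩ := h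
    refine ⟨ih h0, fun y => ?_, fun y' => ?_, fun P => ?_, fun P' => ?_⟩
    · obtain ⟨y', hy⟩ := h2 y
      refine ⟨y', ?_⟩
      have := ih hy
      rwa [Set.image_insert_eq] at this
    · obtain ⟨y, hy⟩ := h1 y'
      refine ⟨y, ?_⟩
      have := ih hy
      rwa [Set.image_insert_eq] at this
    · obtain ⟨P', hP⟩ := h4 P
      refine ⟨P', ?_⟩
      have := ih hP
      rwa [Set.image_insert_eq] at this
    · obtain ⟨P, hP⟩ := h3 P'
      refine ⟨P, ?_⟩
      have := ih hP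
      rwa [Set.image_insert_eq] at this

theorem EF.type_eq {n : ℕ} {ρ : Set (Y × Y')} {σ : Set (Set Y × Set Y')} (h : EF τ τ' n ρ σ)
    {a b : Y} {a' b' : Y'} (ha : (a, a') ∈ ρ) (hb : (b, b') ∈ ρ) : τ a b = τ' a' b' :=
  ((h.le (Nat.zero_le n)).1 _ ha _ hb).1

theorem EF.eq_iff {n : ℕ} {ρ : Set (Y × Y')} {σ : Set (Set Y × Set Y')} (h : EF τ τ' n ρ σ)
    {a b : Y} {a' b' : Y'} (ha : (a, a') ∈ ρ) (hb : (b, b') ∈ ρ) : a = b ↔ a' = b' :=
  ((h.le (Nat.zero_le n)).1 _ ha _ hb).2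

theorem EF.mem_iff {n : ℕ} {ρ : Set (Y × Y')} {σ : Set (Set Y × Set Y')} (h : EF τ τ' n ρ σ)
    {a : Y} {a' : Y'} {P : Set Y} {P' : Set Y'} (ha : (a, a') ∈ ρ) (hP : (P, P') ∈ σ) :
    a ∈ P ↔ a' ∈ P' :=
  (h.le (Nat.zero_le n)).2 _ ha _ hP

/-- Move a finite family of elements. -/
theorem EF.move_elems [Nonempty Y'] {n k : ℕ} {ρ : Set (Y × Y')} {σ : Set (Set Y × Set Y')}
    (h : EF τ τ' (n + k) ρ σ) (F : Finset Y) (hF : F.card ≤ k) :
    ∃ g : Y → Y', EF τ τ' n (ρ ∪ {a | a.1 ∈ F ∧ a.2 = g a.1}) σ := by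
  classical
  induction F using Finset.induction_on generalizing k ρ with
  | empty =>
    refine ⟨fun _ => Classical.arbitrary Y', h.mono (by omega) ?_ subset_rfl⟩
    rintro a (ha | ha)
    · exact ha
    · simp at ha
  | insert y F hy ih =>
    rw [Finset.card_insert_of_notMem hy] at hF
    obtain ⟨k, rfl⟩ : ∃ k', k = k' + 1 := ⟨k - 1, by omega⟩
    obtain ⟨-, h1, -, -, -⟩ := h
    obtain ⟨y', hy'⟩ := h1 y
    obtain ⟨g, hg⟩ := ih hy' (by omega)
    refine ⟨Function.update g y y', hg.subset ?_ subset_rfl⟩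
    rintro ⟨a, a'⟩ (ha | ⟨ha, ha'⟩)
    · exact Or.inl (Set.mem_insert_of_mem _ ha)
    · simp only at ha ha'
      rcases Finset.mem_insert.1 ha with rfl | ha2
      · rw [Function.update_self] at ha'
        subst ha'
        exact Or.inl (Set.mem_insert _ _)
      · have hne : a ≠ y := by rintro rfl; exact hy ha2
        rw [Function.update_of_ne hne] at ha'
        exact Or.inr ⟨ha2, ha'⟩

theorem EF.move_sets_fin (m : ℕ) : ∀ {n k : ℕ} {ρ : Set (Y × Y')} {σ : Set (Set Y × Set Y')},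
    EF τ τ' (n + k) ρ σ → m ≤ k → ∀ (R : Fin m → Set Y),
      ∃ R' : Fin m → Set Y', EF τ τ' n ρ (σ ∪ Set.range fun j => (R j, R' j)) := by
  induction m with
  | zero =>
    intro n k ρ σ h _ R
    refine ⟨Fin.elim0, h.mono (by omega) subset_rfl ?_⟩
    rintro P (hP | ⟨j, -⟩)
    · exact hP
    · exact j.elim0
  | succ m ih =>
    intro n k ρ σ h hk R
    obtain ⟨k, rfl⟩ : ∃ k', k = k' + 1 := ⟨k - 1, by omega⟩
    obtain ⟨-, -, -, h3, -⟩ := h
    obtain ⟨P', hP'⟩ := h3 (R (Fin.last m))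
    obtain ⟨R', hR'⟩ := ih hP' (by omega) (fun j => R j.castSucc)
    refine ⟨Fin.snoc (α := fun _ => Set Y') R' P', hR'.subset subset_rfl ?_⟩
    rintro P (hP | ⟨j, rfl⟩)
    · exact Or.inl (Set.mem_insert_of_mem _ hP)
    · refine Fin.lastCases ?_ (fun j => ?_) j
      · left
        simp
      · right
        exact ⟨j, by simp⟩

/-- Move a finite family of subsets. -/
theorem EF.move_sets {n k : ℕ} {ρ : Set (Y × Y')} {σ : Set (Set Y × Set Y')} {J : Type} [Finite J]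
    (h : EF τ τ' (n + k) ρ σ) (hJ : Nat.card J ≤ k) (R : J → Set Y) :
    ∃ R' : J → Set Y', EF τ τ' n ρ (σ ∪ Set.range fun j => (R j, R' j)) := by
  obtain ⟨m, ⟨e⟩⟩ := Finite.exists_equiv_fin J
  have hm : m ≤ k := by
    rw [Nat.card_congr e, Nat.card_fin] at hJ
    exact hJ
  obtain ⟨R', hR'⟩ := EF.move_sets_fin m h hm (fun j => R (e.symm j))
  refine ⟨fun j => R' (e j), hR'.subset subset_rfl ?_⟩
  rintro P (hP | ⟨j, rfl⟩)
  · exact Or.inl hP
  · exact Or.inr ⟨e j, by simp⟩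

end

end Pool.Agent.TreeMSO
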