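import Pool.Agent.TreeMSO.Pos

/-!
# Events

In a piece `P` of a product tree there is a set `E` of nodes (the events) closed under longest
common prefixes which contains the first and the last node of each column, and which uses
boundedly many first coordinates; similarly for rows.
-/

set_option autoImplicit false
namespace Pool.Agent.TreeMSO

section Aux

private theorem prefix_trans' {a b c : List Bool} (h : a <+: b) (h' : b <+: c) : a <+: c :=
  h.trans h'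

private theorem prefix_antisymm' {a b : List Bool} (h : a <+: b) (h' : b <+: a) : a = b :=
  h.eq_of_length (le_antisymm h.length_le h'.length_le)

private theorem lcp_self' (a : List Bool) : lcp a a = a :=
  prefix_antisymm' (lcp_prefix_left a a) (prefix_lcp (List.prefix_refl a) (List.prefix_refl a))

private theorem lcp_comm' (a b : List Bool) : lcp a b = lcp b a :=
  prefix_antisymm' (prefix_lcp (lcp_prefix_right a b) (lcp_prefix_left a b))
    (prefix_lcp (lcp_prefix_right b a) (lcp_prefix_left b a))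

/-- The longest common prefixes of pairs of elements of `M`. -/
private def lcps (M : Set (List Bool)) : Set (List Bool) := {z | ∃ a ∈ M, ∃ b ∈ M, z = lcp a b}

private theorem lcps_closed (M : Set (List Bool)) :
    ∀ p ∈ lcps M, ∀ q ∈ lcps M, lcp p q ∈ lcps M := by
  rintro p ⟨a, ha, b, hb, rfl⟩ q ⟨c, hc, d, hd, rfl⟩
  -- the shortest of lcp a b, lcp a c, lcp a d
  have hab : lcp a b <+: a := lcp_prefix_left a b
  have hac : lcp a c <+: a := lcp_prefix_left a c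
  have had : lcp a d <+: a := lcp_prefix_left a d
  have main : ∀ m : List Bool, m <+: lcp a b → m <+: lcp a c → m <+: lcp a d →
      m <+: lcp (lcp a b) (lcp c d) := by
    intro m h1 h2 h3
    exact prefix_lcp h1 (prefix_lcp (h2.trans (lcp_prefix_right a c))
      (h3.trans (lcp_prefix_right a d)))
  have h0a : lcp (lcp a b) (lcp c d) <+: a := (lcp_prefix_left _ _).trans hab
  have up1 : lcp (lcp a b) (lcp c d) <+: lcp a b := lcp_prefix_left _ _
  have up2 : lcp (lcp a b) (lcp c d) <+: lcp a c :=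
    prefix_lcp h0a ((lcp_prefix_right _ _).trans (lcp_prefix_left c d))
  have up3 : lcp (lcp a b) (lcp c d) <+: lcp a d :=
    prefix_lcp h0a ((lcp_prefix_right _ _).trans (lcp_prefix_right c d))
  rcases List.prefix_or_prefix_of_prefix hab hac with h | h
  · rcases List.prefix_or_prefix_of_prefix hab had with h' | h'
    · exact ⟨a, ha, b, hb, prefix_antisymm' up1 (main _ (List.prefix_refl _) h h')⟩
    · exact ⟨a, ha, d, hd, prefix_antisymm' up3 (main _ h' (h'.trans h) (List.prefix_refl _))⟩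
  · rcases List.prefix_or_prefix_of_prefix hac had with h' | h'
    · exact ⟨a, ha, c, hc, prefix_antisymm' up2 (main _ h (List.prefix_refl _) h')⟩
    · exact ⟨a, ha, d, hd, prefix_antisymm' up3 (main _ (h'.trans h) h' (List.prefix_refl _))⟩

/-- Counting with partial codes. -/
private theorem finset_of_code {X κ : Type} [Finite κ] (A : Set X) (R : X → κ → Prop)
    (hR : ∀ a ∈ A, ∃ k, R a k) (hinj : ∀ a a' k, R a k → R a' k → a = a') :
    ∃ F : Finset X, F.card ≤ Nat.card κ ∧ ∀ a ∈ A, a ∈ F := by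
  classical
  choose f hf using fun a : A => hR a.1 a.2
  have hfi : Function.Injective f := by
    intro a b h
    apply Subtype.ext
    exact hinj a.1 b.1 (f a) (hf a) (by rw [h]; exact hf b)
  have : Finite A := Finite.of_injective f hfi
  refine ⟨(Set.toFinite A).toFinset, ?_, fun a ha => by simpa using ha⟩
  have h1 : Nat.card A ≤ Nat.card κ := Nat.card_le_card_of_injective f hfi
  have h2 : (Set.toFinite A).toFinset.card = Nat.card A := by
    rw [← Set.ncard_eq_toFinset_card A (Set.toFinite A)]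
    rfl
  omega

end Aux

section Tree

variable {S T G : Type} {tab : Tab S T G} {X Y : Type} {τX : X → X → S} {τY : Y → Y → T}

/-- Equal coordinates force equality of nodes. -/
private theorem PTree.node_ext (W : PTree tab τX τY) {p q : List Bool} (hp : W.dom p)
    (hq : W.dom q) (hx : W.cx p = W.cx q) (hy : W.cy p = W.cy q) : p = q := by
  rw [← rel_eq_iff, W.rel_eq p q hp hq, ← hx, ← hy, ← W.rel_eq p p hp hp, rel_eq_iff]

private theorem PTree.dom_of_prefix (W : PTree tab τX τY) {p q : List Bool} (h : p <+: q)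
    (hq : W.dom q) : W.dom p := by
  obtain ⟨r, rfl⟩ := h
  induction r using List.reverseRecOn with
  | nil => simpa using hq
  | append_singleton r b ih =>
    apply ih
    have : W.dom ((p ++ r) ++ [b]) := by simpa [List.append_assoc] using hq
    exact W.closed _ _ this

/-- Exchange of coordinates: if `v` and `w` are nodes such that the columns `cy v`, `cy w` have
the same type then there is a node with coordinates `(cx v, cy w)`. -/
private theorem PTree.exch (W : PTree tab τX τY) {v w : List Bool} (hv : W.dom v)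
    (h : τY (W.cy v) (W.cy v) = τY (W.cy w) (W.cy w)) :
    ∃ z, W.dom z ∧ W.cx z = W.cx v ∧ W.cy z = W.cy w := by
  have h1 : tab.dom (τX (W.cx v) (W.cx v)) (τY (W.cy v) (W.cy v)) :=
    (W.dom_iff _ _).2 ⟨v, hv, rfl, rfl⟩
  rw [h] at h1
  obtain ⟨z, hz, h2, h3⟩ := (W.dom_iff _ _).1 h1
  exact ⟨z, hz, h2, h3⟩

private theorem mem_piece_of_rel {P : Pc} {u v w : List Bool} {δ : Bool} (hP : P.c = u ++ [δ])
    (hv : P.Mem v) (h1 : rel u v = rel u w) (h2 : ∀ h ∈ P.h, rel h v = rel h w) : P.Mem w := by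
  constructor
  · rw [hP, ← rel_anc_iff, ← h1, rel_anc_iff, ← hP]
    exact hv.1
  · intro h hh hw
    apply hv.2 h hh
    rw [prefix_iff_rel] at hw ⊢
    rw [h2 h hh]
    exact hw

/-- `v` is the first node of its column in `P` (for the order `lt`). -/
private def PTree.First (W : PTree tab τX τY) (P : Pc) (lt : List Bool → List Bool → Prop)
    (v : List Bool) : Prop :=
  W.dom v ∧ P.Mem v ∧ ∀ w, W.dom w → P.Mem w → W.cy v = W.cy w → v = w ∨ lt v w

private theorem PTree.first_unique (W : PTree tab τX τY) {P : Pc} {u hh : List Bool} {δ : Bool}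
    (hP : P.c = u ++ [δ]) (hu : W.dom u) (hhd : W.dom hh) (hhh : ∀ h ∈ P.h, h = hh)
    (lt : List Bool → List Bool → Prop)
    (C : Rel → Prop) (hC : ∀ p q, lt p q ↔ C (rel p q)) (hasymm : ∀ p q, lt p q → ¬ lt q p)
    {v v' : List Bool} (hv : W.First P lt v) (hv' : W.First P lt v')
    (h1 : τY (W.cy v) (W.cy v) = τY (W.cy v') (W.cy v'))
    (h2 : τY (W.cy u) (W.cy v) = τY (W.cy u) (W.cy v'))
    (h3 : τY (W.cy hh) (W.cy v) = τY (W.cy hh) (W.cy v')) : W.cx v = W.cx v' := by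
  obtain ⟨w, hw, hwx, hwy⟩ := W.exch hv.1 h1
  obtain ⟨w', hw', hwx', hwy'⟩ := W.exch hv'.1 h1.symm
  have hwP : P.Mem w := by
    refine mem_piece_of_rel hP hv.2.1 ?_ ?_
    · rw [W.rel_eq u v hu hv.1, W.rel_eq u w hu hw, hwx, hwy, h2]
    · intro h hh'
      obtain rfl := hhh h hh'
      rw [W.rel_eq h v hhd hv.1, W.rel_eq h w hhd hw, hwx, hwy, h3]
  have hwP' : P.Mem w' := by
    refine mem_piece_of_rel hP hv'.2.1 ?_ ?_
    · rw [W.rel_eq u v' hu hv'.1, W.rel_eq u w' hu hw', hwx', hwy', h2]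
    · intro h hh'
      obtain rfl := hhh h hh'
      rw [W.rel_eq h v' hhd hv'.1, W.rel_eq h w' hhd hw', hwx', hwy', h3]
  -- v = (a, y), w' = (a', y); v' = (a', y'), w = (a, y')
  have hr : rel v w' = rel w v' := by
    rw [W.rel_eq v w' hv.1 hw', W.rel_eq w v' hw hv'.1, hwx, hwy, hwx', hwy', h1]
  rcases hv.2.2 w' hw' hwP' hwy'.symm with h | h
  · rw [h, hwx']
  · rcases hv'.2.2 w hw hwP hwy.symm with h' | h'
    · rw [h', hwx]
    · exfalso
      have : lt w v' := by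
        rw [hC, ← hr, ← hC]
        exact h
      exact hasymm _ _ this h'

private theorem PTree.lcp_unique (W : PTree tab τX τY) {v₁ v₂ v₁' v₂' : List Bool}
    (h₁ : W.dom v₁) (h₂ : W.dom v₂) (h₁' : W.dom v₁') (h₂' : W.dom v₂')
    (hx₁ : W.cx v₁ = W.cx v₁') (hx₂ : W.cx v₂ = W.cx v₂')
    (t₀ : τY (W.cy (lcp v₁ v₂)) (W.cy (lcp v₁ v₂)) =
      τY (W.cy (lcp v₁' v₂')) (W.cy (lcp v₁' v₂')))
    (t₁ : τY (W.cy (lcp v₁ v₂)) (W.cy v₁) = τY (W.cy (lcp v₁' v₂')) (W.cy v₁'))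
    (t₂ : τY (W.cy (lcp v₁ v₂)) (W.cy v₂) = τY (W.cy (lcp v₁' v₂')) (W.cy v₂')) :
    W.cx (lcp v₁ v₂) = W.cx (lcp v₁' v₂') := by
  have hd : W.dom (lcp v₁ v₂) := W.dom_of_prefix (lcp_prefix_left _ _) h₁
  have hd' : W.dom (lcp v₁' v₂') := W.dom_of_prefix (lcp_prefix_left _ _) h₁'
  obtain ⟨w, hw, hwx, hwy⟩ := W.exch hd t₀
  obtain ⟨w', hw', hwx', hwy'⟩ := W.exch hd' t₀.symm
  have e1 : rel w v₁' = rel (lcp v₁ v₂) v₁ := by
    rw [W.rel_eq w v₁' hw h₁', W.rel_eq _ v₁ hd h₁, hwx, hwy, t₁, hx₁]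
  have e2 : rel w v₂' = rel (lcp v₁ v₂) v₂ := by
    rw [W.rel_eq w v₂' hw h₂', W.rel_eq _ v₂ hd h₂, hwx, hwy, t₂, hx₂]
  have e1' : rel w' v₁ = rel (lcp v₁' v₂') v₁' := by
    rw [W.rel_eq w' v₁ hw' h₁, W.rel_eq _ v₁' hd' h₁', hwx', hwy', t₁, hx₁]
  have e2' : rel w' v₂ = rel (lcp v₁' v₂') v₂' := by
    rw [W.rel_eq w' v₂ hw' h₂, W.rel_eq _ v₂' hd' h₂', hwx', hwy', t₂, hx₂]
  have p1 : w <+: lcp v₁' v₂' := by
    apply prefix_lcp
    · rw [prefix_iff_rel, e1, ← prefix_iff_rel]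
      exact lcp_prefix_left _ _
    · rw [prefix_iff_rel, e2, ← prefix_iff_rel]
      exact lcp_prefix_right _ _
  have p2 : w' <+: lcp v₁ v₂ := by
    apply prefix_lcp
    · rw [prefix_iff_rel, e1', ← prefix_iff_rel]
      exact lcp_prefix_left _ _
    · rw [prefix_iff_rel, e2', ← prefix_iff_rel]
      exact lcp_prefix_right _ _
  have hr : rel w (lcp v₁' v₂') = rel (lcp v₁ v₂) w' := by
    rw [W.rel_eq w _ hw hd', W.rel_eq _ w' hd hw', hwx, hwy, hwx', hwy', t₀]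
  have p3 : lcp v₁ v₂ <+: w' := by
    rw [prefix_iff_rel, ← hr, ← prefix_iff_rel]
    exact p1
  have := prefix_antisymm' p3 p2
  rw [this, hwx']

end Tree

/-- Column version. -/
private theorem exists_events_col (T : Type) [Finite T] :
    ∃ N : ℕ, ∀ (S G : Type) (tab : Tab S T G) (X Y : Type) (τX : X → X → S) (τY : Y → Y → T)
      (W : PTree tab τX τY) (P : Pc) (u : List Bool) (δ : Bool),
      P.c = u ++ [δ] → W.dom u → (∀ h ∈ P.h, W.dom h ∧ P.c <+: h) →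
      ∃ E : Set (List Bool),
        (∀ v ∈ E, W.dom v ∧ P.Mem v) ∧
        (∀ v, W.dom v → P.Mem v → (∃ f ∈ E, W.cy f = W.cy v ∧ (f = v ∨ pre f v)) ∧
          (∃ g ∈ E, W.cy g = W.cy v ∧ (g = v ∨ pre' g v))) ∧
        (∀ c, (∃ z, (z ∈ E ∨ z ∈ P.h) ∧ c <+: z) →
          ∃ h₁, (h₁ ∈ E ∨ h₁ ∈ P.h) ∧ c <+: h₁ ∧ ∀ z, (z ∈ E ∨ z ∈ P.h) → c <+: z → h₁ <+: z) ∧
        (∃ F : Finset X, F.card ≤ N ∧ ∀ v ∈ E, W.cx v ∈ F) := by
  classical
  refine ⟨Nat.card ((Bool × T × T × T) × Option (Bool × T × T × T) × T × T × T), ?_⟩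
  intro S G tab X Y τX τY W P u δ hPc hu hh
  set E₀ : Set (List Bool) := {v | W.First P pre v ∨ W.First P pre' v} with hE₀
  have hE₀dom : ∀ v ∈ E₀, W.dom v ∧ P.Mem v := by
    rintro v (hv | hv)
    · exact ⟨hv.1, hv.2.1⟩
    · exact ⟨hv.1, hv.2.1⟩
  set M : Set (List Bool) := {v | v ∈ E₀ ∨ v ∈ P.h} with hM
  set E : Set (List Bool) := {z | ∃ a ∈ E₀, ∃ b ∈ M, z = lcp a b} with hE
  have hMdom : ∀ v ∈ M, W.dom v := by
    rintro v (hv | hv)
    · exact (hE₀dom v hv).1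
    · exact (hh v hv).1
  have hMc : ∀ v ∈ M, P.c <+: v := by
    rintro v (hv | hv)
    · exact (hE₀dom v hv).2.1
    · exact (hh v hv).2
  have hEh : {z | z ∈ E ∨ z ∈ P.h} = lcps M := by
    ext z
    constructor
    · rintro (⟨a, ha, b, hb, rfl⟩ | hz)
      · exact ⟨a, Or.inl ha, b, hb, rfl⟩
      · exact ⟨z, Or.inr hz, z, Or.inr hz, (lcp_self' z).symm⟩
    · rintro ⟨a, ha | ha, b, hb | hb, rfl⟩
      · exact Or.inl ⟨a, ha, b, Or.inl hb, rfl⟩
      · exact Or.inl ⟨a, ha, b, Or.inr hb, rfl⟩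
      · exact Or.inl ⟨b, hb, a, Or.inr ha, lcp_comm' a b⟩
      · right
        have hab : a = b := Option.mem_unique ha hb
        rw [hab, lcp_self']
        exact hb
  have hE₀E : ∀ v ∈ E₀, v ∈ E := fun v hv => ⟨v, hv, v, Or.inl hv, (lcp_self' v).symm⟩
  refine ⟨E, ?_, ?_, ?_, ?_⟩
  · rintro v ⟨a, ha, b, hb, rfl⟩
    refine ⟨W.dom_of_prefix (lcp_prefix_left _ _) (hE₀dom a ha).1,
      prefix_lcp (hE₀dom a ha).2.1 (hMc b hb), ?_⟩
    intro h hh' hpre
    exact (hE₀dom a ha).2.2 h hh' (hpre.trans (lcp_prefix_left _ _))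
  · intro v hv hvP
    have hb : ∀ p ∈ {w | W.dom w ∧ P.Mem w ∧ W.cy w = W.cy v}, p.length ≤ W.bound :=
      fun p hp => W.lab_bound p hp.1
    have hne : ({w | W.dom w ∧ P.Mem w ∧ W.cy w = W.cy v} : Set (List Bool)).Nonempty :=
      ⟨v, hv, hvP, rfl⟩
    constructor
    · obtain ⟨f, ⟨hf1, hf2, hf3⟩, hf4⟩ := exists_pre_min hb hne
      refine ⟨f, hE₀E f (Or.inl ⟨hf1, hf2, ?_⟩), hf3, hf4 v ⟨hv, hvP, rfl⟩⟩
      intro w hw hwP hwy
      exact hf4 w ⟨hw, hwP, by rw [← hwy, hf3]⟩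
    · obtain ⟨f, ⟨hf1, hf2, hf3⟩, hf4⟩ := exists_pre'_min hb hne
      refine ⟨f, hE₀E f (Or.inr ⟨hf1, hf2, ?_⟩), hf3, hf4 v ⟨hv, hvP, rfl⟩⟩
      intro w hw hwP hwy
      exact hf4 w ⟨hw, hwP, by rw [← hwy, hf3]⟩
  · rintro c ⟨z, hz, hcz⟩
    have hne : ({z | (z ∈ E ∨ z ∈ P.h) ∧ c <+: z} : Set (List Bool)).Nonempty := ⟨z, hz, hcz⟩
    have hcl : ∀ p ∈ {z | (z ∈ E ∨ z ∈ P.h) ∧ c <+: z}, ∀ q ∈ {z | (z ∈ E ∨ z ∈ P.h) ∧ c <+: z},
        lcp p q ∈ {z | (z ∈ E ∨ z ∈ P.h) ∧ c <+: z} := by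
      rintro p ⟨hp, hcp⟩ q ⟨hq, hcq⟩
      refine ⟨?_, prefix_lcp hcp hcq⟩
      have hp' : p ∈ lcps M := by rw [← hEh]; exact hp
      have hq' : q ∈ lcps M := by rw [← hEh]; exact hq
      have := lcps_closed M p hp' q hq'
      rw [← hEh] at this
      exact this
    obtain ⟨h₁, ⟨hh1, hh2⟩, hh3⟩ := exists_least_of_lcp_closed hne hcl
    exact ⟨h₁, hh1, hh2, fun z hz hcz => hh3 z ⟨hz, hcz⟩⟩
  · -- boundedness
    set hh0 : List Bool := P.h.getD u with hhh0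
    have hhd : W.dom hh0 := by
      rw [hhh0]
      cases hPh : P.h with
      | none => simpa using hu
      | some h => simpa using (hh h (by rw [hPh]; rfl)).1
    have hhh : ∀ h ∈ P.h, h = hh0 := by
      intro h hmem
      rw [hhh0, Option.mem_def.1 hmem]
      rfl
    -- codes of elements of E₀
    set cd : List Bool → (Bool × T × T × T) → Prop := fun v k =>
      ((k.1 = true ∧ W.First P pre v) ∨ (k.1 = false ∧ W.First P pre' v)) ∧
        τY (W.cy v) (W.cy v) = k.2.1 ∧ τY (W.cy u) (W.cy v) = k.2.2.1 ∧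
        τY (W.cy hh0) (W.cy v) = k.2.2.2 with hcd
    have hcd_ex : ∀ v ∈ E₀, ∃ k, cd v k := by
      rintro v (hv | hv)
      · exact ⟨(true, _, _, _), Or.inl ⟨rfl, hv⟩, rfl, rfl, rfl⟩
      · exact ⟨(false, _, _, _), Or.inr ⟨rfl, hv⟩, rfl, rfl, rfl⟩
    have hcd_dom : ∀ v k, cd v k → W.dom v := by
      rintro v k ⟨⟨-, h⟩ | ⟨-, h⟩, -⟩
      · exact h.1
      · exact h.1
    have hcd_uni : ∀ v v' k, cd v k → cd v' k → W.cx v = W.cx v' := by
      rintro v v' k ⟨hk, h1, h2, h3⟩ ⟨hk', h1', h2', h3'⟩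
      rcases hk with ⟨hk, hv⟩ | ⟨hk, hv⟩
      · rcases hk' with ⟨-, hv'⟩ | ⟨hk', -⟩
        · exact W.first_unique hPc hu hhd hhh pre (fun r => r = .lt ∨ ∃ b, r = .anc b)
            (fun p q => Iff.rfl) (fun p q h h' => pre_irrefl p (pre_trans h h')) hv hv'
            (h1.trans h1'.symm) (h2.trans h2'.symm) (h3.trans h3'.symm)
        · rw [hk] at hk'; cases hk'
      · rcases hk' with ⟨hk', -⟩ | ⟨-, hv'⟩
        · rw [hk] at hk'; cases hk'
        · exact W.first_unique hPc hu hhd hhh pre' (fun r => r = .gt ∨ ∃ b, r = .anc b)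
            (fun p q => Iff.rfl) (fun p q h h' => pre'_irrefl p (pre'_trans h h')) hv hv'
            (h1.trans h1'.symm) (h2.trans h2'.symm) (h3.trans h3'.symm)
    -- codes of elements of M
    set cm : List Bool → Option (Bool × T × T × T) → Prop := fun v k =>
      (k = none ∧ v ∈ P.h) ∨ ∃ k', k = some k' ∧ cd v k' with hcm
    have hcm_ex : ∀ v ∈ M, ∃ k, cm v k := by
      rintro v (hv | hv)
      · obtain ⟨k, hk⟩ := hcd_ex v hv
        exact ⟨some k, Or.inr ⟨k, rfl, hk⟩⟩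
      · exact ⟨none, Or.inl ⟨rfl, hv⟩⟩
    have hcm_dom : ∀ v k, cm v k → W.dom v := by
      rintro v k (⟨-, hv⟩ | ⟨k', -, hv⟩)
      · exact (hh v hv).1
      · exact hcd_dom v k' hv
    have hcm_uni : ∀ v v' k, cm v k → cm v' k → W.cx v = W.cx v' := by
      rintro v v' k (⟨hk, hv⟩ | ⟨k₁, hk, hv⟩) (⟨hk', hv'⟩ | ⟨k₂, hk', hv'⟩)
      · rw [Option.mem_unique hv hv']
      · rw [hk] at hk'; cases hk'
      · rw [hk] at hk'; cases hk'
      · rw [hk] at hk'
        obtain rfl := Option.some.inj hk'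
        exact hcd_uni v v' k₁ hv hv'
    obtain ⟨F, hF1, hF2⟩ := finset_of_code (W.cx '' E)
      (fun (x : X) (k : (Bool × T × T × T) × Option (Bool × T × T × T) × T × T × T) =>
        ∃ a b, cd a k.1 ∧ cm b k.2.1 ∧ x = W.cx (lcp a b) ∧
          τY (W.cy (lcp a b)) (W.cy (lcp a b)) = k.2.2.1 ∧
          τY (W.cy (lcp a b)) (W.cy a) = k.2.2.2.1 ∧
          τY (W.cy (lcp a b)) (W.cy b) = k.2.2.2.2)
      (by
        rintro x ⟨z, ⟨a, ha, b, hb, rfl⟩, rfl⟩
        obtain ⟨k₁, hk₁⟩ := hcd_ex a ha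
        obtain ⟨k₂, hk₂⟩ := hcm_ex b hb
        exact ⟨(k₁, k₂, _, _, _), a, b, hk₁, hk₂, rfl, rfl, rfl, rfl⟩)
      (by
        rintro x x' k ⟨a, b, ha, hb, rfl, t0, t1, t2⟩ ⟨a', b', ha', hb', rfl, t0', t1', t2'⟩
        exact W.lcp_unique (hcd_dom _ _ ha) (hcm_dom _ _ hb) (hcd_dom _ _ ha') (hcm_dom _ _ hb')
          (hcd_uni _ _ _ ha ha') (hcm_uni _ _ _ hb hb') (t0.trans t0'.symm) (t1.trans t1'.symm)
          (t2.trans t2'.symm))
    exact ⟨F, hF1, fun v hv => hF2 _ ⟨v, hv, rfl⟩⟩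

/-- The product tree with the coordinates exchanged. -/
private def PTree.swap {S T G : Type} {tab : Tab S T G} {X Y : Type} {τX : X → X → S}
    {τY : Y → Y → T} (W : PTree tab τX τY) :
    PTree (⟨fun t s => tab.dom s t, fun t s => tab.lab s t, fun t s => tab.rel s t⟩ : Tab T S G)
      τY τX where
  lab := W.lab
  bound := W.bound
  lab_bound := W.lab_bound
  closed := W.closed
  cx := W.cy
  cy := W.cx
  dom_iff x y := (W.dom_iff y x).trans
    ⟨fun ⟨p, h1, h2, h3⟩ => ⟨p, h1, h3, h2⟩, fun ⟨p, h1, h2, h3⟩ => ⟨p, h1, h3, h2⟩⟩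
  lab_eq := W.lab_eq
  rel_eq := W.rel_eq

/-- Events for a piece `P = (u·δ, h)`.  `k` bounds the number of columns resp. rows used. -/
theorem exists_events (S T : Type) [Finite S] [Finite T] :
    ∃ N : ℕ, ∀ (G : Type) (tab : Tab S T G) (X Y : Type) (τX : X → X → S) (τY : Y → Y → T)
      (W : PTree tab τX τY) (b : Bool) (P : Pc) (u : List Bool) (δ : Bool),
      P.c = u ++ [δ] → W.dom u → (∀ h ∈ P.h, W.dom h ∧ P.c <+: h) →
      ∃ E : Set (List Bool),
        (∀ v ∈ E, W.dom v ∧ P.Mem v) ∧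
        (∀ v, W.dom v → P.Mem v → (∃ f ∈ E, W.same b f v ∧ (f = v ∨ pre f v)) ∧
          (∃ g ∈ E, W.same b g v ∧ (g = v ∨ pre' g v))) ∧
        (∀ c, (∃ z, (z ∈ E ∨ z ∈ P.h) ∧ c <+: z) →
          ∃ h₁, (h₁ ∈ E ∨ h₁ ∈ P.h) ∧ c <+: h₁ ∧ ∀ z, (z ∈ E ∨ z ∈ P.h) → c <+: z → h₁ <+: z) ∧
        (b = true → ∃ F : Finset X, F.card ≤ N ∧ ∀ v ∈ E, W.cx v ∈ F) ∧
        (b = false → ∃ F : Finset Y, F.card ≤ N ∧ ∀ v ∈ E, W.cy v ∈ F) := by
  obtain ⟨N₁, hN₁⟩ := exists_events_col T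
  obtain ⟨N₂, hN₂⟩ := exists_events_col S
  refine ⟨max N₁ N₂, ?_⟩
  intro G tab X Y τX τY W b P u δ hPc hu hh
  cases b with
  | true =>
    obtain ⟨E, h1, h2, h3, F, hF1, hF2⟩ := hN₁ S G tab X Y τX τY W P u δ hPc hu hh
    refine ⟨E, h1, ?_, h3, fun _ => ⟨F, hF1.trans (le_max_left _ _), hF2⟩, fun h => by cases h⟩
    simpa [PTree.same] using h2
  | false =>
    obtain ⟨E, h1, h2, h3, F, hF1, hF2⟩ := hN₂ T G _ Y X τY τX W.swap P u δ hPc hu hh
    refine ⟨E, h1, ?_, h3, fun h => absurd h (by decide),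
      fun _ => ⟨F, hF1.trans (le_max_right _ _), hF2⟩⟩
    intro v hv hvP
    obtain ⟨⟨f, hf, hf1, hf2⟩, ⟨g, hg, hg1, hg2⟩⟩ := h2 v hv hvP
    refine ⟨⟨f, hf, ?_, hf2⟩, ⟨g, hg, ?_, hg2⟩⟩
    · change W.cx f = W.cx v
      exact hf1
    · change W.cx g = W.cx v
      exact hg1

end Pool.Agent.TreeMSO
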