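import Pool.Agent.TreeMSO.Base

/-!
# Bit strings: relative positions, preorders, longest common prefixes
-/

namespace Pool.Agent.TreeMSO

theorem rel_eq_iff (p q : List Bool) : rel p q = .eq ↔ p = q := by
  induction p generalizing q with
  | nil => cases q <;> simp [rel]
  | cons a p ih =>
    cases q with
    | nil => simp [rel]
    | cons b q =>
      by_cases hab : a = b
      · simp [rel, hab, ih]
      · cases a <;> cases b <;> simp_all [rel]

theorem rel_anc_iff (p q : List Bool) (b : Bool) : rel p q = .anc b ↔ (p ++ [b]) <+: q := by
  induction p generalizing q with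
  | nil =>
    cases q with
    | nil => simp [rel]
    | cons c q => simp [rel, List.cons_prefix_cons, eq_comm]
  | cons a p ih =>
    cases q with
    | nil => simp [rel]
    | cons c q =>
      by_cases hab : a = c
      · simp [rel, hab, ih, List.cons_prefix_cons]
      · cases a <;> cases c <;> simp_all [rel, List.cons_prefix_cons]

theorem rel_inv (p q : List Bool) : rel q p = (rel p q).inv := by
  induction p generalizing q with
  | nil => cases q <;> simp [rel, Rel.inv]
  | cons a p ih =>
    cases q with
    | nil => simp [rel, Rel.inv]
    | cons c q =>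
      by_cases hab : a = c
      · simp [rel, hab, ih]
      · cases a <;> cases c <;> simp_all [rel, Rel.inv]

/-- `p <+: q` iff `p = q` or `p` is an ancestor of `q`. -/
theorem prefix_iff_rel (p q : List Bool) : p <+: q ↔ rel p q = .eq ∨ ∃ b, rel p q = .anc b := by
  induction p generalizing q with
  | nil => cases q <;> simp [rel]
  | cons a p ih =>
    cases q with
    | nil => simp [rel]
    | cons c q =>
      by_cases hab : a = c
      · simp [rel, hab, ih, List.cons_prefix_cons]
      · cases a <;> cases c <;> simp_all [rel, List.cons_prefix_cons]

/-- Key fact: a node outside a subtree has the same relative position to all nodes of it. -/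
theorem rel_const {c p v : List Bool} (h : ¬ c <+: p) (hv : c <+: v) : rel p v = rel p c := by
  induction c generalizing p v with
  | nil => exact absurd (List.nil_prefix) h
  | cons a c ih =>
    cases v with
    | nil => simp at hv
    | cons b v =>
      rw [List.cons_prefix_cons] at hv
      obtain ⟨rfl, hv⟩ := hv
      cases p with
      | nil => simp [rel]
      | cons d p =>
        by_cases hd : d = a
        · subst hd
          rw [List.cons_prefix_cons] at h
          simp only [true_and] at h
          simp [rel, ih h hv]
        · simp [rel, hd]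

theorem rel_lt_docLt (p q : List Bool) :
    docLt p q ↔ rel p q = .lt ∨ rel p q = .anc true ∨ rel p q = .des false := by
  induction p generalizing q with
  | nil => cases q <;> simp [rel, docLt]
  | cons a p ih =>
    cases q with
    | nil => simp [rel, docLt]
    | cons c q =>
      cases a <;> cases c <;> simp [rel, docLt, ih]

theorem lcp_prefix_left (p q : List Bool) : lcp p q <+: p := by
  induction p generalizing q with
  | nil => simp [lcp]
  | cons a p ih =>
    cases q with
    | nil => simp [lcp]
    | cons c q =>
      by_cases hab : a = c
      · simp [lcp, hab, ih, List.cons_prefix_cons]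
      · simp [lcp, hab]

theorem lcp_prefix_right (p q : List Bool) : lcp p q <+: q := by
  induction p generalizing q with
  | nil => simp [lcp]
  | cons a p ih =>
    cases q with
    | nil => simp [lcp]
    | cons c q =>
      by_cases hab : a = c
      · simp [lcp, hab, ih, List.cons_prefix_cons]
      · simp [lcp, hab]

theorem prefix_lcp {p q r : List Bool} (h : r <+: p) (h' : r <+: q) : r <+: lcp p q := by
  induction r generalizing p q with
  | nil => simp
  | cons a r ih =>
    cases p with
    | nil => simp at h
    | cons b p =>
      cases q with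
      | nil => simp at h'
      | cons c q =>
        rw [List.cons_prefix_cons] at h h'
        obtain ⟨rfl, h⟩ := h
        obtain ⟨rfl, h'⟩ := h'
        simp [lcp, List.cons_prefix_cons, ih h h']

/-- A recursive description of `pre`. -/
theorem Pos_pre_cons (a b : Bool) (p q : List Bool) :
    pre (a :: p) (b :: q) ↔ (a = false ∧ b = true) ∨ (a = b ∧ pre p q) := by
  cases a <;> cases b <;> simp [pre, rel]

/-- A recursive description of `pre'`. -/
theorem Pos_pre'_cons (a b : Bool) (p q : List Bool) :
    pre' (a :: p) (b :: q) ↔ (a = true ∧ b = false) ∨ (a = b ∧ pre' p q) := by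
  cases a <;> cases b <;> simp [pre', rel]

theorem Pos_pre_nil_cons (b : Bool) (q : List Bool) : pre [] (b :: q) := by
  simp [pre, rel]

theorem Pos_pre'_nil_cons (b : Bool) (q : List Bool) : pre' [] (b :: q) := by
  simp [pre', rel]

theorem Pos_not_pre_nil (p : List Bool) : ¬ pre p [] := by
  cases p <;> simp [pre, rel]

theorem Pos_not_pre'_nil (p : List Bool) : ¬ pre' p [] := by
  cases p <;> simp [pre', rel]

theorem pre_trans {p q r : List Bool} (h : pre p q) (h' : pre q r) : pre p r := by
  induction p generalizing q r with
  | nil =>
    cases r with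
    | nil => exact absurd h' (Pos_not_pre_nil _)
    | cons c r => exact Pos_pre_nil_cons _ _
  | cons a p ih =>
    cases q with
    | nil => exact absurd h (Pos_not_pre_nil _)
    | cons b q =>
      cases r with
      | nil => exact absurd h' (Pos_not_pre_nil _)
      | cons c r =>
        rw [Pos_pre_cons] at h h' ⊢
        cases a <;> cases b <;> cases c <;> simp_all
        · exact ih h h'
        · exact ih h h'

theorem pre'_trans {p q r : List Bool} (h : pre' p q) (h' : pre' q r) : pre' p r := by
  induction p generalizing q r with
  | nil =>
    cases r with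
    | nil => exact absurd h' (Pos_not_pre'_nil _)
    | cons c r => exact Pos_pre'_nil_cons _ _
  | cons a p ih =>
    cases q with
    | nil => exact absurd h (Pos_not_pre'_nil _)
    | cons b q =>
      cases r with
      | nil => exact absurd h' (Pos_not_pre'_nil _)
      | cons c r =>
        rw [Pos_pre'_cons] at h h' ⊢
        cases a <;> cases b <;> cases c <;> simp_all
        · exact ih h h'
        · exact ih h h'

theorem pre_irrefl (p : List Bool) : ¬ pre p p := by
  have h := (rel_eq_iff p p).2 rfl
  simp [pre, h]

theorem pre'_irrefl (p : List Bool) : ¬ pre' p p := by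
  have h := (rel_eq_iff p p).2 rfl
  simp [pre', h]

theorem pre_total (p q : List Bool) : pre p q ∨ p = q ∨ pre q p := by
  induction p generalizing q with
  | nil =>
    cases q with
    | nil => simp
    | cons b q => exact Or.inl (Pos_pre_nil_cons _ _)
  | cons a p ih =>
    cases q with
    | nil => exact Or.inr (Or.inr (Pos_pre_nil_cons _ _))
    | cons b q =>
      rw [Pos_pre_cons, Pos_pre_cons]
      have := ih q
      cases a <;> cases b <;> simp_all

theorem pre'_total (p q : List Bool) : pre' p q ∨ p = q ∨ pre' q p := by
  induction p generalizing q with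
  | nil =>
    cases q with
    | nil => simp
    | cons b q => exact Or.inl (Pos_pre'_nil_cons _ _)
  | cons a p ih =>
    cases q with
    | nil => exact Or.inr (Or.inr (Pos_pre'_nil_cons _ _))
    | cons b q =>
      rw [Pos_pre'_cons, Pos_pre'_cons]
      have := ih q
      cases a <;> cases b <;> simp_all

/-- Minimum of a finite set for a strict linear order. -/
theorem Pos_exists_min {R : List Bool → List Bool → Prop}
    (htr : ∀ p q r, R p q → R q r → R p r)
    (htot : ∀ p q, R p q ∨ p = q ∨ R q p) {M : Set (List Bool)} (hfin : M.Finite)
    (hne : M.Nonempty) : ∃ p ∈ M, ∀ q ∈ M, p = q ∨ R p q := by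
  induction M, hfin using Set.Finite.induction_on with
  | empty => exact absurd hne Set.not_nonempty_empty
  | @insert a s ha hs ih =>
    by_cases hse : s.Nonempty
    · obtain ⟨p, hp, hmin⟩ := ih hse
      rcases htot a p with h | h | h
      · refine ⟨a, Set.mem_insert _ _, ?_⟩
        intro q hq
        rcases hq with rfl | hq
        · exact Or.inl rfl
        · rcases hmin q hq with rfl | h2
          · exact Or.inr h
          · exact Or.inr (htr _ _ _ h h2)
      · exact absurd (h ▸ hp) ha
      · refine ⟨p, Set.mem_insert_of_mem _ hp, ?_⟩
        intro q hq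
        rcases hq with rfl | hq
        · exact Or.inr h
        · exact hmin q hq
    · rw [Set.not_nonempty_iff_eq_empty] at hse
      subst hse
      refine ⟨a, by simp, ?_⟩
      intro q hq
      simp at hq
      exact Or.inl hq.symm

theorem Pos_finite {M : Set (List Bool)} {N : ℕ} (hb : ∀ p ∈ M, p.length ≤ N) : M.Finite :=
  (List.finite_length_le Bool N).subset hb

/-- A nonempty set of nodes of bounded length has a least element for `pre` (and `pre'`). -/
theorem exists_pre_min {M : Set (List Bool)} {N : ℕ} (hb : ∀ p ∈ M, p.length ≤ N)
    (hne : M.Nonempty) : ∃ p ∈ M, ∀ q ∈ M, p = q ∨ pre p q :=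
  Pos_exists_min (R := pre) (fun _ _ _ => pre_trans) pre_total (Pos_finite hb) hne

theorem exists_pre'_min {M : Set (List Bool)} {N : ℕ} (hb : ∀ p ∈ M, p.length ≤ N)
    (hne : M.Nonempty) : ∃ p ∈ M, ∀ q ∈ M, p = q ∨ pre' p q :=
  Pos_exists_min (R := pre') (fun _ _ _ => pre'_trans) pre'_total (Pos_finite hb) hne

/-- Least elements of sets closed under longest common prefixes. -/
theorem exists_least_of_lcp_closed {M : Set (List Bool)} (hne : M.Nonempty)
    (hc : ∀ p ∈ M, ∀ q ∈ M, lcp p q ∈ M) : ∃ p ∈ M, ∀ q ∈ M, p <+: q := by
  classical
  have hex : ∃ n, ∃ p ∈ M, p.length = n := by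
    obtain ⟨p, hp⟩ := hne
    exact ⟨p.length, p, hp, rfl⟩
  obtain ⟨p, hp, hlen⟩ := Nat.find_spec hex
  refine ⟨p, hp, ?_⟩
  intro q hq
  have h1 := hc p hp q hq
  have h2 := Nat.find_min' hex ⟨lcp p q, h1, rfl⟩
  have h3 := lcp_prefix_left p q
  have h4 : lcp p q = p := h3.eq_of_length_le (by omega)
  rw [← h4]
  exact lcp_prefix_right p q

end Pool.Agent.TreeMSO
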