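import Pool.Agent.TreeMSO.Base

/-!
# Runs of bottom-up automata on labelled sets of positions
-/

set_option autoImplicit false

namespace Pool.Agent.TreeMSO

/-- Induction from the leaves to the root. -/
theorem run_pos_induct (N : ℕ) (P : List Bool → Prop)
    (h : ∀ p, (p.length ≤ N → ∀ b, P (p ++ [b])) → P p) : ∀ p, P p := by
  have key : ∀ k, ∀ p : List Bool, N + 1 - p.length ≤ k → P p := by
    intro k
    induction k with
    | zero =>
      intro p hp
      refine h p fun hl => ?_
      omega
    | succ k ih =>
      intro p hp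
      refine h p fun hl b => ih _ ?_
      simp only [List.length_append, List.length_cons, List.length_nil]
      omega
  exact fun p => key _ p le_rfl

section
variable {G Q : Type} {q0 : Q} {comb : G → Q → Q → Q} {lab : List Bool → Option G}

open Classical in
/-- The run computed with fuel `k`. -/
noncomputable def runFuel (q0 : Q) (comb : G → Q → Q → Q) (lab : List Bool → Option G)
    (ov : Option (List Bool × Q)) : ℕ → List Bool → Q
  | 0, p => if h : ∃ q, ov = some (p, q) then h.choose else q0
  | k + 1, p => if h : ∃ q, ov = some (p, q) then h.choose else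
      match lab p with
      | none => q0
      | some g => comb g (runFuel q0 comb lab ov k (p ++ [false]))
          (runFuel q0 comb lab ov k (p ++ [true]))

theorem runFuel_ov (ov : Option (List Bool × Q)) (k : ℕ) (p : List Bool) (q : Q)
    (h : ov = some (p, q)) : runFuel q0 comb lab ov k p = q := by
  have hex : ∃ q, ov = some (p, q) := ⟨q, h⟩
  have hc : hex.choose = q := by
    have h1 : some (p, q) = some (p, hex.choose) := h.symm.trans hex.choose_spec
    have h2 := Option.some.inj h1
    exact (congrArg Prod.snd h2).symm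
  cases k with
  | zero => rw [runFuel, dif_pos hex, hc]
  | succ k => rw [runFuel, dif_pos hex, hc]

theorem exists_run (N : ℕ) (hN : ∀ p, (lab p).isSome → p.length ≤ N)
    (ov : Option (List Bool × Q)) : ∃ st, IsRun q0 comb lab ov st := by
  refine ⟨fun p => runFuel q0 comb lab ov (N + 1 - p.length) p, fun p => ⟨fun q hq =>
    runFuel_ov ov _ p q hq, fun hq => ?_⟩⟩
  have hne : ¬ ∃ q, ov = some (p, q) := fun ⟨q, h⟩ => hq q h
  by_cases hl : p.length ≤ N
  · obtain ⟨k, hk⟩ : ∃ k, N + 1 - p.length = k + 1 := ⟨N - p.length, by omega⟩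
    have hk' : ∀ b : Bool, N + 1 - (p ++ [b]).length = k := by
      intro b
      simp only [List.length_append, List.length_cons, List.length_nil]
      omega
    simp only [step, hk', hk]
    rw [runFuel, dif_neg hne]
    rcases lab p with _ | g <;> rfl
  · have hn : lab p = none := by
      rcases hlab : lab p with _ | g
      · rfl
      · exact absurd (hN p (by simp [hlab])) hl
    have hk : N + 1 - p.length = 0 := by omega
    simp only [step, hk, hn]
    rw [runFuel, dif_neg hne]

theorem run_eq_step {ov : Option (List Bool × Q)} {st : List Bool → Q}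
    (h : IsRun q0 comb lab ov st) {p : List Bool} (hp : ∀ a, ov = some a → a.1 ≠ p) :
    st p = step q0 comb lab st p :=
  (h p).2 fun _ hq => hp _ hq rfl

theorem step_congr {N : ℕ} (hN : ∀ p, (lab p).isSome → p.length ≤ N) {st st₁ : List Bool → Q}
    {p : List Bool} (h : p.length ≤ N → ∀ b, st (p ++ [b]) = st₁ (p ++ [b])) :
    step q0 comb lab st p = step q0 comb lab st₁ p := by
  unfold step
  rcases hlab : lab p with _ | g
  · rfl
  · have hl := hN p (by simp [hlab])
    simp only [h hl]

theorem run_prefix_append {h₁ p : List Bool} {b : Bool} (h : h₁ <+: p ++ [b])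
    (hn : ¬ h₁ <+: p) : p ++ [b] = h₁ := by
  rcases List.prefix_concat_iff.mp h with h' | h'
  · exact h'.symm
  · exact absurd h' hn

/-- Two runs of the same tree agree at `c` if their overrides are compatible: the second run is
overridden at `h₁ ≥ c` by the value of the first one, and the override of the first, if in the
subtree of `c`, is in the subtree of `h₁`. -/
theorem run_comp {N : ℕ} (hN : ∀ p, (lab p).isSome → p.length ≤ N)
    {ov : Option (List Bool × Q)} {st st₁ : List Bool → Q} {c h₁ : List Bool}
    (h : IsRun q0 comb lab ov st) (h1 : IsRun q0 comb lab (some (h₁, st h₁)) st₁)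
    (hc : c <+: h₁) (hov : ∀ a, ov = some a → c <+: a.1 → h₁ <+: a.1) : st c = st₁ c := by
  have key : ∀ p, c <+: p → (¬ h₁ <+: p ∨ p = h₁) → st p = st₁ p := by
    refine run_pos_induct N _ ?_
    intro p ih hcp hp
    by_cases hph : p = h₁
    · subst hph
      exact ((h1 p).1 _ rfl).symm
    · have hn : ¬ h₁ <+: p := hp.resolve_right hph
      rw [run_eq_step h (p := p), run_eq_step h1 (p := p)]
      · refine step_congr hN fun hl b => ih hl b (hcp.trans (List.prefix_append _ _)) ?_
        by_cases hb : h₁ <+: p ++ [b]
        · exact Or.inr (run_prefix_append hb hn)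
        · exact Or.inl hb
      · intro a ha hap
        have : a = (h₁, st h₁) := by simpa using ha.symm
        rw [this] at hap
        exact hph hap.symm
      · intro a ha hap
        exact hn (hap ▸ hov a ha (hap ▸ hcp))
  by_cases hch : c = h₁
  · exact key c (List.prefix_refl c) (Or.inr hch)
  · refine key c (List.prefix_refl c) (Or.inl fun hh => hch ?_)
    exact hc.eq_of_length (le_antisymm hc.length_le hh.length_le)

/-- Two runs agree at `c` if none of the overrides is in the subtree of `c`. -/
theorem run_noov {N : ℕ} (hN : ∀ p, (lab p).isSome → p.length ≤ N)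
    {ov ov₁ : Option (List Bool × Q)} {st st₁ : List Bool → Q} {c : List Bool}
    (h : IsRun q0 comb lab ov st) (h1 : IsRun q0 comb lab ov₁ st₁)
    (hov : ∀ a, ov = some a → ¬ c <+: a.1) (hov₁ : ∀ a, ov₁ = some a → ¬ c <+: a.1) :
    st c = st₁ c := by
  have key : ∀ p, c <+: p → st p = st₁ p := by
    refine run_pos_induct N _ ?_
    intro p ih hcp
    rw [run_eq_step h (p := p), run_eq_step h1 (p := p)]
    · exact step_congr hN fun hl b => ih hl b (hcp.trans (List.prefix_append _ _))
    · intro a ha hap
      exact hov₁ a ha (hap ▸ hcp)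
    · intro a ha hap
      exact hov a ha (hap ▸ hcp)
  exact key c (List.prefix_refl c)

/-- Run lemma: a labelling `r` of the events `E` (and the hole) satisfying the local conditions is
the restriction of the run.  `E` together with the hole has least elements in subtrees. -/
theorem run_unique_on_events {N : ℕ} (hN : ∀ p, (lab p).isSome → p.length ≤ N)
    {ov : Option (List Bool × Q)} {st : List Bool → Q} (h : IsRun q0 comb lab ov st)
    (E : Set (List Bool)) (hE : ∀ v ∈ E, ∀ a, ov = some a → ¬ a.1 <+: v)
    (hEd : ∀ v ∈ E, (lab v).isSome)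
    (r : List Bool → Q) (hr : ∀ a, ov = some a → r a.1 = a.2)
    (hloc : ∀ v ∈ E, ∃ g, lab v = some g ∧ ∃ s : Bool → Q, r v = comb g (s false) (s true) ∧
      ∀ b : Bool,
        (∃ h₁, (h₁ ∈ E ∨ ∃ a, ov = some a ∧ a.1 = h₁) ∧ (v ++ [b]) <+: h₁ ∧
          (∀ z, (z ∈ E ∨ ∃ a, ov = some a ∧ a.1 = z) → (v ++ [b]) <+: z → h₁ <+: z) ∧
          ∀ st₁, IsRun q0 comb lab (some (h₁, r h₁)) st₁ → s b = st₁ (v ++ [b])) ∨
        ((∀ z, (z ∈ E ∨ ∃ a, ov = some a ∧ a.1 = z) → ¬ (v ++ [b]) <+: z) ∧
          ∀ st₁, IsRun q0 comb lab none st₁ → s b = st₁ (v ++ [b]))) :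
    ∀ v ∈ E, r v = st v := by
  have key : ∀ k, ∀ v ∈ E, N - v.length = k → r v = st v := by
    intro k
    induction k using Nat.strong_induction_on with
    | _ k ih =>
      intro v hv hk
      obtain ⟨g, hg, s, hs, hb⟩ := hloc v hv
      have hchild : ∀ b : Bool, s b = st (v ++ [b]) := by
        intro b
        rcases hb b with ⟨h₁, hmem, hpre, hleast, hst⟩ | ⟨hno, hst⟩
        · have hrh : r h₁ = st h₁ := by
            rcases hmem with hh | ⟨a, ha, rfl⟩
            · have hl1 := hN h₁ (hEd h₁ hh)
              have hl2 := hpre.length_le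
              simp only [List.length_append, List.length_cons, List.length_nil] at hl2
              exact ih (N - h₁.length) (by omega) h₁ hh rfl
            · rw [hr a ha]
              exact ((h a.1).1 a.2 ha).symm
          obtain ⟨st₁, hst₁⟩ := exists_run (q0 := q0) (comb := comb) N hN (some (h₁, r h₁))
          rw [hst st₁ hst₁]
          rw [hrh] at hst₁
          refine (run_comp hN h hst₁ hpre fun a ha hca => ?_).symm
          exact hleast a.1 (Or.inr ⟨a, ha, rfl⟩) hca
        · obtain ⟨st₁, hst₁⟩ := exists_run (q0 := q0) (comb := comb) (lab := lab) N hN none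
          rw [hst st₁ hst₁]
          refine (run_noov hN h hst₁ (fun a ha hca => ?_) (fun a ha => by simp at ha)).symm
          exact hno a.1 (Or.inr ⟨a, ha, rfl⟩) hca
      rw [hs, run_eq_step h (p := v) (fun a ha hav => hE v hv a ha (hav ▸ List.prefix_refl _))]
      simp only [step, hg, hchild]
  exact fun v hv => key _ v hv rfl

end

end Pool.Agent.TreeMSO
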