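import Pool.Agent.TreeMSO.Ef
import Pool.Agent.TreeMSO.Pos
import Pool.Agent.TreeMSO.Depth
import Pool.Agent.TreeMSO.Events
import Pool.Agent.TreeMSO.Run

/-!
# Main induction: the value of a product tree is determined by the EF types of the factors
-/

set_option autoImplicit false

namespace Pool.Agent.TreeMSO

section Basic

variable {S T G : Type} {tab : Tab S T G} {X Y Y' : Type} {τX : X → X → S} {τY : Y → Y → T}
  {τY' : Y' → Y' → T}

theorem PTree.dom_of_prefix (W : PTree tab τX τY) {p q : List Bool} (h : p <+: q)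
    (hq : W.dom q) : W.dom p := by
  obtain ⟨r, rfl⟩ := h
  induction r using List.reverseRecOn with
  | nil => simpa using hq
  | append_singleton r b ih =>
    apply ih
    rw [← List.append_assoc] at hq
    exact W.closed _ _ hq

theorem PTree.cell_inj (W : PTree tab τX τY) {p q : List Bool} (hp : W.dom p) (hq : W.dom q)
    (hx : W.cx p = W.cx q) (hy : W.cy p = W.cy q) : p = q := by
  rw [← rel_eq_iff]
  rw [W.rel_eq p q hp hq, ← hx, ← hy, ← W.rel_eq p p hp hp, rel_eq_iff]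

/-- Linked positions. -/
structure Lk (W : PTree tab τX τY) (W' : PTree tab τX τY') (ρ : Set (Y × Y'))
    (p p' : List Bool) : Prop where
  dom : W.dom p
  dom' : W'.dom p'
  cx : W.cx p = W'.cx p'
  cy : (W.cy p, W'.cy p') ∈ ρ

theorem Lk.mono {W : PTree tab τX τY} {W' : PTree tab τX τY'} {ρ ρ' : Set (Y × Y')}
    {p p' : List Bool} (h : Lk W W' ρ p p') (hρ : ρ ⊆ ρ') : Lk W W' ρ' p p' :=
  ⟨h.dom, h.dom', h.cx, hρ h.cy⟩

theorem Lk.rel {W : PTree tab τX τY} {W' : PTree tab τX τY'} {ρ : Set (Y × Y')}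
    {σ : Set (Set Y × Set Y')} {n : ℕ} (hE : EF τY τY' n ρ σ)
    {p p' q q' : List Bool} (h : Lk W W' ρ p p') (h' : Lk W W' ρ q q') :
    TreeMSO.rel p q = TreeMSO.rel p' q' := by
  rw [W.rel_eq p q h.dom h'.dom, W'.rel_eq p' q' h.dom' h'.dom', h.cx, h'.cx,
    hE.type_eq h.cy h'.cy]

theorem Lk.lab {W : PTree tab τX τY} {W' : PTree tab τX τY'} {ρ : Set (Y × Y')}
    {σ : Set (Set Y × Set Y')} {n : ℕ} (hE : EF τY τY' n ρ σ)
    {p p' : List Bool} (h : Lk W W' ρ p p') : W.lab p = W'.lab p' := by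
  rw [W.lab_eq p h.dom, W'.lab_eq p' h.dom', h.cx, hE.type_eq h.cy h.cy]

theorem Lk.eq_iff {W : PTree tab τX τY} {W' : PTree tab τX τY'} {ρ : Set (Y × Y')}
    {σ : Set (Set Y × Set Y')} {n : ℕ} (hE : EF τY τY' n ρ σ)
    {p p' q q' : List Bool} (h : Lk W W' ρ p p') (h' : Lk W W' ρ q q') : p = q ↔ p' = q' := by
  rw [← rel_eq_iff, ← rel_eq_iff, h.rel hE h']

theorem Lk.prefix_iff {W : PTree tab τX τY} {W' : PTree tab τX τY'} {ρ : Set (Y × Y')}
    {σ : Set (Set Y × Set Y')} {n : ℕ} (hE : EF τY τY' n ρ σ)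
    {p p' q q' : List Bool} (h : Lk W W' ρ p p') (h' : Lk W W' ρ q q') :
    p <+: q ↔ p' <+: q' := by
  rw [prefix_iff_rel, prefix_iff_rel, h.rel hE h']

theorem Lk.child_iff {W : PTree tab τX τY} {W' : PTree tab τX τY'} {ρ : Set (Y × Y')}
    {σ : Set (Set Y × Set Y')} {n : ℕ} (hE : EF τY τY' n ρ σ)
    {p p' q q' : List Bool} (b : Bool) (h : Lk W W' ρ p p') (h' : Lk W W' ρ q q') :
    (p ++ [b]) <+: q ↔ (p' ++ [b]) <+: q' := by
  rw [← rel_anc_iff, ← rel_anc_iff, h.rel hE h']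

theorem Lk.pre_iff {W : PTree tab τX τY} {W' : PTree tab τX τY'} {ρ : Set (Y × Y')}
    {σ : Set (Set Y × Set Y')} {n : ℕ} (hE : EF τY τY' n ρ σ)
    {p p' q q' : List Bool} (h : Lk W W' ρ p p') (h' : Lk W W' ρ q q') :
    pre p q ↔ pre p' q' := by
  unfold pre; rw [h.rel hE h']

theorem Lk.pre'_iff {W : PTree tab τX τY} {W' : PTree tab τX τY'} {ρ : Set (Y × Y')}
    {σ : Set (Set Y × Set Y')} {n : ℕ} (hE : EF τY τY' n ρ σ)
    {p p' q q' : List Bool} (h : Lk W W' ρ p p') (h' : Lk W W' ρ q q') :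
    pre' p q ↔ pre' p' q' := by
  unfold pre'; rw [h.rel hE h']

theorem Lk.same_iff {W : PTree tab τX τY} {W' : PTree tab τX τY'} {ρ : Set (Y × Y')}
    {σ : Set (Set Y × Set Y')} {n : ℕ} (hE : EF τY τY' n ρ σ)
    {p p' q q' : List Bool} (b : Bool) (h : Lk W W' ρ p p') (h' : Lk W W' ρ q q') :
    W.same b p q ↔ W'.same b p' q' := by
  cases b with
  | true => simp only [PTree.same, if_true]; exact hE.eq_iff h.cy h'.cy
  | false => simp only [PTree.same]; simp [h.cx, h'.cx]

/-- Back: an element of `W'` is linked with an element of `W`. -/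
theorem link_back {W : PTree tab τX τY} {W' : PTree tab τX τY'} {ρ : Set (Y × Y')}
    {σ : Set (Set Y × Set Y')} {n : ℕ} (hE : EF τY τY' (n + 1) ρ σ) {p' : List Bool}
    (hp' : W'.dom p') : ∃ (p : List Bool) (ρ₁ : Set (Y × Y')), ρ ⊆ ρ₁ ∧ EF τY τY' n ρ₁ σ ∧
      Lk W W' ρ₁ p p' := by
  obtain ⟨y, hy⟩ := hE.2.2.1 (W'.cy p')
  have hmem : (y, W'.cy p') ∈ insert (y, W'.cy p') ρ := Set.mem_insert _ _
  have ht := hy.type_eq hmem hmem
  have hd : tab.dom (τX (W'.cx p') (W'.cx p')) (τY' (W'.cy p') (W'.cy p')) :=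
    (W'.dom_iff _ _).2 ⟨p', hp', rfl, rfl⟩
  rw [← ht] at hd
  obtain ⟨p, hp, hx, hyy⟩ := (W.dom_iff _ _).1 hd
  exact ⟨p, _, Set.subset_insert _ _, hy, ⟨hp, hp', hx, by rw [hyy]; exact hmem⟩⟩

/-- Forth. -/
theorem link_forth {W : PTree tab τX τY} {W' : PTree tab τX τY'} {ρ : Set (Y × Y')}
    {σ : Set (Set Y × Set Y')} {n : ℕ} (hE : EF τY τY' (n + 1) ρ σ) {p : List Bool}
    (hp : W.dom p) : ∃ (p' : List Bool) (ρ₁ : Set (Y × Y')), ρ ⊆ ρ₁ ∧ EF τY τY' n ρ₁ σ ∧
      Lk W W' ρ₁ p p' := by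
  obtain ⟨y', hy⟩ := hE.2.1 (W.cy p)
  have hmem : (W.cy p, y') ∈ insert (W.cy p, y') ρ := Set.mem_insert _ _
  have ht := hy.type_eq hmem hmem
  have hd : tab.dom (τX (W.cx p) (W.cx p)) (τY (W.cy p) (W.cy p)) :=
    (W.dom_iff _ _).2 ⟨p, hp, rfl, rfl⟩
  rw [ht] at hd
  obtain ⟨p', hp', hx, hyy⟩ := (W'.dom_iff _ _).1 hd
  exact ⟨p', _, Set.subset_insert _ _, hy, ⟨hp, hp', hx.symm, by rw [hyy]; exact hmem⟩⟩

/-- The three properties of a set of events. -/
structure Events (W : PTree tab τX τY) (b : Bool) (P : Pc) (E : Set (List Bool)) : Prop where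
  mem : ∀ v ∈ E, W.dom v ∧ P.Mem v
  cover : ∀ v, W.dom v → P.Mem v → (∃ f ∈ E, W.same b f v ∧ (f = v ∨ pre f v)) ∧
    (∃ g ∈ E, W.same b g v ∧ (g = v ∨ pre' g v))

/-- Sub-pieces below an event are refinements. -/
theorem Events.refines_some {W : PTree tab τX τY} {b : Bool} {P : Pc} {E : Set (List Bool)}
    (hE : Events W b P E) {v : List Bool} (hv : v ∈ E) (δ : Bool) {h₁ : List Bool}
    (hle : ∀ z, (z ∈ E ∨ z ∈ P.h) → (v ++ [δ]) <+: z → h₁ <+: z) :
    W.Refines b P ⟨v ++ [δ], some h₁⟩ := by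
  have hvP := (hE.mem v hv).2
  refine ⟨?_, ?_, ?_⟩
  · intro w hw hm
    obtain ⟨hm1, hm2⟩ := hm
    refine ⟨?_, ?_⟩
    · exact hvP.1.trans ((List.prefix_append v [δ]).trans hm1)
    · intro h hh hhw
      have hcomp := List.prefix_or_prefix_of_prefix hm1 hhw
      rcases hcomp with hc | hc
      · exact hm2 h₁ rfl ((hle h (Or.inr hh) hc).trans hhw)
      · -- h <+: v ++ [δ]
        rcases List.prefix_concat_iff.1 hc with h1 | h1
        · subst h1
          exact hm2 h₁ rfl ((hle _ (Or.inr hh) (List.prefix_refl _)).trans hhw)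
        · exact hvP.2 h hh h1
  · intro h hh hc
    exact ⟨h₁, rfl, hle h (Or.inr hh) hc⟩
  · intro w hw hm
    have hnE : ∀ f ∈ E, ¬ (Pc.Mem ⟨v ++ [δ], some h₁⟩ f) := by
      intro f hf hmf
      exact hmf.2 h₁ rfl (hle f (Or.inl hf) hmf.1)
    have hPw : P.Mem w := by
      obtain ⟨hm1, hm2⟩ := hm
      refine ⟨?_, ?_⟩
      · exact hvP.1.trans ((List.prefix_append v [δ]).trans hm1)
      · intro h hh hhw
        have hcomp := List.prefix_or_prefix_of_prefix hm1 hhw
        rcases hcomp with hc | hc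
        · exact hm2 h₁ rfl ((hle h (Or.inr hh) hc).trans hhw)
        · rcases List.prefix_concat_iff.1 hc with h1 | h1
          · subst h1
            exact hm2 h₁ rfl ((hle _ (Or.inr hh) (List.prefix_refl _)).trans hhw)
          · exact hvP.2 h hh h1
    obtain ⟨⟨f, hf, hfs, hfp⟩, ⟨g, hg, hgs, hgp⟩⟩ := hE.cover w hw hPw
    refine ⟨⟨f, (hE.mem f hf).1, (hE.mem f hf).2, hnE f hf, hfs, ?_⟩,
      ⟨g, (hE.mem g hg).1, (hE.mem g hg).2, hnE g hg, hgs, ?_⟩⟩
    · rcases hfp with rfl | hfp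
      · exact absurd hm (hnE _ hf)
      · exact hfp
    · rcases hgp with rfl | hgp
      · exact absurd hm (hnE _ hg)
      · exact hgp

theorem Events.refines_none {W : PTree tab τX τY} {b : Bool} {P : Pc} {E : Set (List Bool)}
    (hE : Events W b P E) {v : List Bool} (hv : v ∈ E) (δ : Bool)
    (hle : ∀ z, (z ∈ E ∨ z ∈ P.h) → ¬ (v ++ [δ]) <+: z) :
    W.Refines b P ⟨v ++ [δ], none⟩ := by
  have hvP := (hE.mem v hv).2
  have hmemP : ∀ w, Pc.Mem ⟨v ++ [δ], none⟩ w → P.Mem w := by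
    intro w hm
    obtain ⟨hm1, hm2⟩ := hm
    refine ⟨?_, ?_⟩
    · exact hvP.1.trans ((List.prefix_append v [δ]).trans hm1)
    · intro h hh hhw
      have hcomp := List.prefix_or_prefix_of_prefix hm1 hhw
      rcases hcomp with hc | hc
      · exact hle h (Or.inr hh) hc
      · rcases List.prefix_concat_iff.1 hc with h1 | h1
        · subst h1
          exact hle _ (Or.inr hh) (List.prefix_refl _)
        · exact hvP.2 h hh h1
  refine ⟨?_, ?_, ?_⟩
  · intro w hw hm
    exact hmemP w hm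
  · intro h hh hc
    exact absurd hc (hle h (Or.inr hh))
  · intro w hw hm
    have hnE : ∀ f ∈ E, ¬ (Pc.Mem ⟨v ++ [δ], none⟩ f) := by
      intro f hf hmf
      exact hle f (Or.inl hf) hmf.1
    obtain ⟨⟨f, hf, hfs, hfp⟩, ⟨g, hg, hgs, hgp⟩⟩ := hE.cover w hw (hmemP w hm)
    refine ⟨⟨f, (hE.mem f hf).1, (hE.mem f hf).2, hnE f hf, hfs, ?_⟩,
      ⟨g, (hE.mem g hg).1, (hE.mem g hg).2, hnE g hg, hgs, ?_⟩⟩
    · rcases hfp with rfl | hfp
      · exact absurd hm (hnE _ hf)
      · exact hfp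
    · rcases hgp with rfl | hgp
      · exact absurd hm (hnE _ hg)
      · exact hgp

end Basic

section Finish

variable {S T G Q : Type} {tab : Tab S T G} {q0 : Q} {comb : G → Q → Q → Q}
  {X Y Y' : Type} {τX : X → X → S} {τY : Y → Y → T} {τY' : Y' → Y' → T}

/-- The holes of corresponding pieces. -/
inductive HM (W : PTree tab τX τY) (W' : PTree tab τX τY') (ρ : Set (Y × Y')) (c : List Bool) :
    Option (List Bool) → Option (List Bool) → Prop
  | none : HM W W' ρ c none none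
  | some {h h' : List Bool} (hl : Lk W W' ρ h h') (hc : c <+: h) : HM W W' ρ c (some h) (some h')

theorem HM.mono {W : PTree tab τX τY} {W' : PTree tab τX τY'} {ρ ρ' : Set (Y × Y')}
    {c : List Bool} {oh oh' : Option (List Bool)} (h : HM W W' ρ c oh oh') (hρ : ρ ⊆ ρ') :
    HM W W' ρ' c oh oh' := by
  cases h with
  | none => exact HM.none
  | some hl hc => exact HM.some (hl.mono hρ) hc

theorem HM.mem_iff {W : PTree tab τX τY} {W' : PTree tab τX τY'} {ρ : Set (Y × Y')}
    {σ : Set (Set Y × Set Y')} {n : ℕ} (hE : EF τY τY' n ρ σ)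
    {c : List Bool} {oh oh' : Option (List Bool)} (h : HM W W' ρ c oh oh') {z z' : List Bool}
    (hz : Lk W W' ρ z z') : z ∈ oh ↔ z' ∈ oh' := by
  cases h with
  | none => simp
  | some hl hc => simpa using hl.eq_iff hE hz

theorem HM.pcMem_iff {W : PTree tab τX τY} {W' : PTree tab τX τY'} {ρ : Set (Y × Y')}
    {σ : Set (Set Y × Set Y')} {n : ℕ} (hE : EF τY τY' n ρ σ)
    {u u' : List Bool} {δ : Bool} {oh oh' : Option (List Bool)}
    (h : HM W W' ρ (u ++ [δ]) oh oh') (hu : Lk W W' ρ u u') {z z' : List Bool}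
    (hz : Lk W W' ρ z z') : Pc.Mem ⟨u ++ [δ], oh⟩ z ↔ Pc.Mem ⟨u' ++ [δ], oh'⟩ z' := by
  unfold Pc.Mem
  cases h with
  | none => simp [hu.child_iff hE δ hz]
  | some hl hc => simp [hu.child_iff hE δ hz, hl.prefix_iff hE hz]

/-- The induction statement. -/
def St (tab : Tab S T G) (q0 : Q) (comb : G → Q → Q → Q) (rk m : ℕ) (b : Bool) : Prop :=
  ∀ (X Y Y' : Type) (τX : X → X → S) (τY : Y → Y → T) (τY' : Y' → Y' → T)
    (W : PTree tab τX τY) (W' : PTree tab τX τY') (ρ : Set (Y × Y')) (σ : Set (Set Y × Set Y'))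
    (u u' : List Bool) (δ : Bool) (oh oh' : Option (List Bool)),
    EF τY τY' rk ρ σ → Lk W W' ρ u u' → HM W W' ρ (u ++ [δ]) oh oh' →
    W.Dep m b ⟨u ++ [δ], oh⟩ → W'.Dep m b ⟨u' ++ [δ], oh'⟩ →
    ∀ (q : Q) (st st' : List Bool → Q), IsRun q0 comb W.lab (oh.map (·, q)) st →
      IsRun q0 comb W'.lab (oh'.map (·, q)) st' → st (u ++ [δ]) = st' (u' ++ [δ])

theorem run_hole {lab : List Bool → Option G} {oh : Option (List Bool)} {q : Q}
    {st : List Bool → Q} (h : IsRun q0 comb lab (oh.map (·, q)) st) {z : List Bool}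
    (hz : z ∈ oh) : st z = q := by
  apply (h z).1
  rw [Option.mem_def.1 hz]; rfl

theorem run_step {lab : List Bool → Option G} {oh : Option (List Bool)} {q : Q}
    {st : List Bool → Q} (h : IsRun q0 comb lab (oh.map (·, q)) st) {z : List Bool}
    (hz : z ∉ oh) : st z = step q0 comb lab st z := by
  apply (h z).2
  intro q' hq'
  apply hz
  cases oh with
  | none => simp at hq'
  | some h0 => simp at hq'; simp [hq'.1]

/-- The root of a nonempty subtree: if `u` and `u'` are linked, then the `δ`-children of `u`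
and `u'` are linked. -/
theorem link_child {W : PTree tab τX τY} {W' : PTree tab τX τY'} {ρ : Set (Y × Y')}
    {σ : Set (Set Y × Set Y')} {n : ℕ} (hE : EF τY τY' (n + 1) ρ σ)
    {u u' : List Bool} (δ : Bool) (hu : Lk W W' ρ u u') {c' : List Bool}
    (hc : Lk W W' ρ (u ++ [δ]) c') : c' = u' ++ [δ] := by
  have h1 : (u' ++ [δ]) <+: c' := (hu.child_iff hE δ hc).1 (List.prefix_refl _)
  have hd : W'.dom (u' ++ [δ]) := W'.dom_of_prefix h1 hc.dom'
  obtain ⟨w, ρ₁, hρ, hEF, hw⟩ := link_back hE hd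
  have h2 : (u ++ [δ]) <+: w := ((hu.mono hρ).child_iff hEF δ hw).2 (List.prefix_refl _)
  have h3 : c' <+: (u' ++ [δ]) := ((hc.mono hρ).prefix_iff hEF hw).1 h2
  exact h3.eq_of_length_le h1.length_le

/-- The finishing argument of the induction step. -/
theorem finish {rk m : ℕ} {b : Bool} (IH : St tab q0 comb rk m (!b))
    {W : PTree tab τX τY} {W' : PTree tab τX τY'} {ρ : Set (Y × Y')}
    {σ : Set (Set Y × Set Y')} {u u' : List Bool} {δ : Bool} {oh oh' : Option (List Bool)}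
    (hEF : EF τY τY' (rk + 4) ρ σ) (hu : Lk W W' ρ u u') (hh : HM W W' ρ (u ++ [δ]) oh oh')
    (hD : W.Dep (m + 1) b ⟨u ++ [δ], oh⟩) (hD' : W'.Dep (m + 1) b ⟨u' ++ [δ], oh'⟩)
    {E : Set (List Bool)} (hE : Events W b ⟨u ++ [δ], oh⟩ E)
    (hleast : ∀ c, (∃ z, (z ∈ E ∨ z ∈ oh) ∧ c <+: z) →
      ∃ h₁, (h₁ ∈ E ∨ h₁ ∈ oh) ∧ c <+: h₁ ∧ ∀ z, (z ∈ E ∨ z ∈ oh) → c <+: z → h₁ <+: z)
    {E' : Set (List Bool)} (hE'd : ∀ v' ∈ E', W'.dom v')
    {q : Q} {st st' : List Bool → Q} (hst : IsRun q0 comb W.lab (oh.map (·, q)) st)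
    (hst' : IsRun q0 comb W'.lab (oh'.map (·, q)) st') {r' : List Bool → Q}
    (hTr : ∀ (k : ℕ) (ρ₂ : Set (Y × Y')), ρ ⊆ ρ₂ → EF τY τY' k ρ₂ σ → ∀ v v',
      Lk W W' ρ₂ v v' → ((v ∈ E ↔ v' ∈ E') ∧ (v ∈ E → r' v' = st v))) :
    st (u ++ [δ]) = st' (u' ++ [δ]) := by
  classical
  have hev : ∀ (k : ℕ) (ρ₂ : Set (Y × Y')), ρ ⊆ ρ₂ → EF τY τY' k ρ₂ σ → ∀ v v',
      Lk W W' ρ₂ v v' → ((v ∈ E ∨ v ∈ oh) ↔ (v' ∈ E' ∨ v' ∈ oh')) := by
    intro k ρ₂ hρ hk v v' hl
    rw [(hTr k ρ₂ hρ hk v v' hl).1, (hh.mono hρ).mem_iff hk hl]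
  -- `E'` is a set of events
  have hE' : Events W' b ⟨u' ++ [δ], oh'⟩ E' := by
    constructor
    · intro v' hv'
      obtain ⟨v, ρ₁, hρ, hk, hl⟩ := link_back (n := rk + 3) hEF (hE'd v' hv')
      have hv := (hTr _ _ hρ hk v v' hl).1.2 hv'
      exact ⟨hE'd v' hv', ((hh.mono hρ).pcMem_iff hk (hu.mono hρ) hl).1 (hE.mem v hv).2⟩
    · intro w' hw' hm'
      obtain ⟨w, ρ₁, hρ, hk, hl⟩ := link_back (n := rk + 3) hEF hw'
      have hm := ((hh.mono hρ).pcMem_iff hk (hu.mono hρ) hl).2 hm'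
      obtain ⟨⟨f, hf, hfs, hfp⟩, ⟨g, hg, hgs, hgp⟩⟩ := hE.cover w hl.dom hm
      constructor
      · obtain ⟨f', ρ₂, hρ₂, hk₂, hl₂⟩ := link_forth (n := rk + 2) hk (hE.mem f hf).1
        have hl₁ := hl.mono hρ₂
        refine ⟨f', (hTr _ _ (hρ.trans hρ₂) hk₂ f f' hl₂).1.1 hf,
          (hl₂.same_iff hk₂ b hl₁).1 hfs, ?_⟩
        rcases hfp with hfp | hfp
        · exact Or.inl ((hl₂.eq_iff hk₂ hl₁).1 hfp)
        · exact Or.inr ((hl₂.pre_iff hk₂ hl₁).1 hfp)
      · obtain ⟨g', ρ₂, hρ₂, hk₂, hl₂⟩ := link_forth (n := rk + 2) hk (hE.mem g hg).1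
        have hl₁ := hl.mono hρ₂
        refine ⟨g', (hTr _ _ (hρ.trans hρ₂) hk₂ g g' hl₂).1.1 hg,
          (hl₂.same_iff hk₂ b hl₁).1 hgs, ?_⟩
        rcases hgp with hgp | hgp
        · exact Or.inl ((hl₂.eq_iff hk₂ hl₁).1 hgp)
        · exact Or.inr ((hl₂.pre'_iff hk₂ hl₁).1 hgp)
  -- the labelling on the other side
  set r : List Bool → Q := fun z => if z ∈ oh' then q else r' z with hr
  have hr_hole : ∀ z, z ∈ oh' → r z = q := fun z hz => if_pos hz
  have hE'oh : ∀ z, z ∈ E' → z ∉ oh' := by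
    intro z hz hzo
    exact (hE'.mem z hz).2.2 z hzo (List.prefix_refl _)
  have hr_E : ∀ z, z ∈ E' → r z = r' z := fun z hz => if_neg (hE'oh z hz)
  have hEoh : ∀ z, z ∈ E → z ∉ oh := by
    intro z hz hzo
    exact (hE.mem z hz).2.2 z hzo (List.prefix_refl _)
  have hrst : ∀ (k : ℕ) (ρ₂ : Set (Y × Y')), ρ ⊆ ρ₂ → EF τY τY' k ρ₂ σ → ∀ v v',
      Lk W W' ρ₂ v v' → (v ∈ E ∨ v ∈ oh) → r v' = st v := by
    intro k ρ₂ hρ hk v v' hl hv
    rcases hv with hv | hv
    · rw [hr_E v' ((hTr k ρ₂ hρ hk v v' hl).1.1 hv), (hTr k ρ₂ hρ hk v v' hl).2 hv]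
    · rw [hr_hole v' (((hh.mono hρ).mem_iff hk hl).1 hv), run_hole hst hv]
  have hov : ∀ z, (∃ a, oh'.map (·, q) = some a ∧ a.1 = z) ↔ z ∈ oh' := by
    intro z
    constructor
    · rintro ⟨a, ha, rfl⟩
      cases hoh : oh' with
      | none => simp [hoh] at ha
      | some h0 => simp [hoh] at ha; simp [← ha]
    · intro hz
      rw [Option.mem_def] at hz
      exact ⟨(z, q), by simp [hz], rfl⟩
  have huniq : ∀ v ∈ E', r v = st' v := by
    apply run_unique_on_events (q0 := q0) (comb := comb) (lab := W'.lab) (N := W'.bound)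
      W'.lab_bound hst' E'
    · intro v hv a ha
      have : a.1 ∈ oh' := (hov a.1).1 ⟨a, ha, rfl⟩
      exact (hE'.mem v hv).2.2 _ this
    · intro v hv
      exact (hE'.mem v hv).1
    · intro a ha
      have : a.1 ∈ oh' := (hov a.1).1 ⟨a, ha, rfl⟩
      rw [hr_hole _ this]
      cases hoh : oh' with
      | none => simp [hoh] at ha
      | some h0 => simp [hoh] at ha; simp [← ha]
    · intro v' hv'
      obtain ⟨v, ρ₁, hρ₁, hk₁, hl⟩ := link_back (n := rk + 3) hEF (hE'd v' hv')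
      have hv : v ∈ E := (hTr _ _ hρ₁ hk₁ v v' hl).1.2 hv'
      have hlab := hl.lab hk₁
      obtain ⟨g, hg⟩ := Option.isSome_iff_exists.1 hl.dom
      refine ⟨g, by rw [← hlab, hg], fun β => st (v ++ [β]), ?_, ?_⟩
      · rw [hrst _ _ hρ₁ hk₁ v v' hl (Or.inl hv), run_step hst (hEoh v hv)]
        simp [step, hg]
      · intro β
        by_cases hex : ∃ z, (z ∈ E ∨ z ∈ oh) ∧ (v ++ [β]) <+: z
        · left
          obtain ⟨h₁, hh₁, hvh₁, hmin⟩ := hleast (v ++ [β]) hex
          have hdh₁ : W.dom h₁ := by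
            rcases hh₁ with h | h
            · exact (hE.mem h₁ h).1
            · cases hh with
              | none => simp at h
              | some hl hc =>
                simp at h; subst h; exact hl.dom
          obtain ⟨h₁', ρ₂, hρ₂, hk₂, hl₂⟩ := link_forth (n := rk + 2) hk₁ hdh₁
          have hh₁' : h₁' ∈ E' ∨ h₁' ∈ oh' :=
            (hev _ _ (hρ₁.trans hρ₂) hk₂ h₁ h₁' hl₂).1 hh₁
          have hvh₁' : (v' ++ [β]) <+: h₁' :=
            ((hl.mono hρ₂).child_iff hk₂ β hl₂).1 hvh₁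
          have hmin' : ∀ z, (z ∈ E' ∨ z ∈ oh') → (v' ++ [β]) <+: z → h₁' <+: z := by
            intro z' hz' hvz'
            have hdz' : W'.dom z' := by
              rcases hz' with h | h
              · exact hE'd z' h
              · cases hh with
                | none => simp at h
                | some hl hc =>
                  simp at h; subst h; exact hl.dom'
            obtain ⟨z, ρ₃, hρ₃, hk₃, hl₃⟩ := link_back (n := rk + 1) hk₂ hdz'
            have hz := (hev _ _ ((hρ₁.trans hρ₂).trans hρ₃) hk₃ z z' hl₃).2 hz'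
            have hvz := (((hl.mono hρ₂).mono hρ₃).child_iff hk₃ β hl₃).2 hvz'
            exact ((hl₂.mono hρ₃).prefix_iff hk₃ hl₃).1 (hmin z hz hvz)
          refine ⟨h₁', ?_, hvh₁', ?_, ?_⟩
          · rcases hh₁' with h | h
            · exact Or.inl h
            · exact Or.inr ((hov h₁').2 h)
          · intro z hz hvz
            apply hmin' z _ hvz
            rcases hz with h | h
            · exact Or.inl h
            · exact Or.inr ((hov z).1 h)
          · intro st₁' hst₁'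
            have hrh : r h₁' = st h₁ := hrst _ _ (hρ₁.trans hρ₂) hk₂ h₁ h₁' hl₂ hh₁
            obtain ⟨st₁, hst₁⟩ := exists_run (q0 := q0) (comb := comb) W.bound W.lab_bound
              (some (h₁, st h₁))
            have hcomp := run_comp W.lab_bound hst hst₁ hvh₁ (by
              intro a ha hca
              apply hmin a.1 _ hca
              right
              cases hoh : oh with
              | none => simp [hoh] at ha
              | some h0 => simp [hoh] at ha; simp [← ha])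
            have hDep := hD ⟨v ++ [β], some h₁⟩ (hE.refines_some hv β (fun z hz => hmin z hz))
            have hDep' := hD' ⟨v' ++ [β], some h₁'⟩
              (hE'.refines_some hv' β (fun z hz => hmin' z hz))
            have hih := IH X Y Y' τX τY τY' W W' ρ₂ σ v v' β (some h₁) (some h₁')
              (hk₂.mono (by omega) (le_refl _) (le_refl _)) (hl.mono hρ₂)
              (HM.some hl₂ hvh₁) hDep hDep' (st h₁) st₁ st₁' hst₁ (by simpa [hrh] using hst₁')
            exact hcomp.trans hih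
        · right
          push Not at hex
          have hno' : ∀ z, (z ∈ E' ∨ z ∈ oh') → ¬ (v' ++ [β]) <+: z := by
            intro z' hz' hvz'
            have hdz' : W'.dom z' := by
              rcases hz' with h | h
              · exact hE'd z' h
              · cases hh with
                | none => simp at h
                | some hl hc =>
                  simp at h; subst h; exact hl.dom'
            obtain ⟨z, ρ₃, hρ₃, hk₃, hl₃⟩ := link_back (n := rk + 2) hk₁ hdz'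
            have hz := (hev _ _ (hρ₁.trans hρ₃) hk₃ z z' hl₃).2 hz'
            exact hex z hz (((hl.mono hρ₃).child_iff hk₃ β hl₃).2 hvz')
          refine ⟨?_, ?_⟩
          · intro z hz
            apply hno'
            rcases hz with h | h
            · exact Or.inl h
            · exact Or.inr ((hov z).1 h)
          · intro st₁' hst₁'
            obtain ⟨st₁, hst₁⟩ := exists_run (q0 := q0) (comb := comb) W.bound W.lab_bound
              (none)
            have hcomp := run_noov W.lab_bound hst hst₁ (c := v ++ [β]) (by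
              intro a ha
              apply hex a.1
              right
              cases hoh : oh with
              | none => simp [hoh] at ha
              | some h0 => simp [hoh] at ha; simp [← ha]) (by intro a ha; simp at ha)
            have hDep := hD ⟨v ++ [β], none⟩ (hE.refines_none hv β (fun z hz => hex z hz))
            have hDep' := hD' ⟨v' ++ [β], none⟩
              (hE'.refines_none hv' β (fun z hz => hno' z hz))
            have hih := IH X Y Y' τX τY τY' W W' ρ₁ σ v v' β none none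
              (hk₁.mono (by omega) (le_refl _) (le_refl _)) hl
              HM.none hDep hDep' q0 st₁ st₁' hst₁ hst₁'
            exact hcomp.trans hih
  -- the root
  by_cases hex : ∃ z, (z ∈ E ∨ z ∈ oh) ∧ (u ++ [δ]) <+: z
  · obtain ⟨z, hz, huz⟩ := hex
    have hdz : W.dom z := by
      rcases hz with h | h
      · exact (hE.mem z h).1
      · cases hh with
        | none => simp at h
        | some hl hc =>
          simp at h; subst h; exact hl.dom
    have hdc : W.dom (u ++ [δ]) := W.dom_of_prefix huz hdz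
    have hc : (u ++ [δ]) ∈ E ∨ (u ++ [δ]) ∈ oh := by
      by_cases hm : Pc.Mem ⟨u ++ [δ], oh⟩ (u ++ [δ])
      · left
        obtain ⟨⟨f, hf, -, hfp⟩, -⟩ := hE.cover _ hdc hm
        rcases hfp with rfl | hfp
        · exact hf
        · exfalso
          have h1 : (u ++ [δ]) <+: f := (hE.mem f hf).2.1
          rw [prefix_iff_rel] at h1
          unfold pre at hfp
          rw [rel_inv (u ++ [δ]) f] at hfp
          rcases h1 with h1 | ⟨b', h1⟩
          · rw [h1] at hfp; simp [Rel.inv] at hfp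
          · rw [h1] at hfp; simp [Rel.inv] at hfp
      · right
        unfold Pc.Mem at hm
        simp only [List.prefix_refl, true_and] at hm
        push Not at hm
        obtain ⟨h, hho, hhu⟩ := hm
        have hch : (u ++ [δ]) <+: h := by
          cases hh with
          | none => simp at hho
          | some hl hc => simp at hho; subst hho; exact hc
        have : h = u ++ [δ] := hhu.eq_of_length_le hch.length_le
        rw [← this]; exact hho
    obtain ⟨c', ρ₂, hρ₂, hk₂, hl₂⟩ := link_forth (n := rk + 3) hEF hdc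
    have hc' := link_child (n := rk + 2) hk₂ δ (hu.mono hρ₂) hl₂
    subst hc'
    have h1 := hrst _ _ hρ₂ hk₂ _ _ hl₂ hc
    rw [← h1]
    rcases (hev _ _ hρ₂ hk₂ _ _ hl₂).1 hc with h | h
    · exact huniq _ h
    · rw [hr_hole _ h, run_hole hst' h]
  · push Not at hex
    have hno : oh = none := by
      cases hh with
      | none => rfl
      | some hl hc => exact absurd hc (hex _ (Or.inr rfl))
    have hno' : oh' = none := by
      cases hh with
      | none => rfl
      | some hl hc => simp at hno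
    have hndc : ¬ W.dom (u ++ [δ]) := by
      intro hdc
      have hm : Pc.Mem ⟨u ++ [δ], oh⟩ (u ++ [δ]) := ⟨List.prefix_refl _, by simp [hno]⟩
      obtain ⟨⟨f, hf, -, -⟩, -⟩ := hE.cover _ hdc hm
      exact hex f (Or.inl hf) (hE.mem f hf).2.1
    have hndc' : ¬ W'.dom (u' ++ [δ]) := by
      intro hdc
      obtain ⟨w, ρ₁, hρ₁, hk₁, hl⟩ := link_back (n := rk + 3) hEF hdc
      have := ((hu.mono hρ₁).child_iff hk₁ δ hl).2 (List.prefix_refl _)
      exact hndc (W.dom_of_prefix this hl.dom)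
    have h1 : st (u ++ [δ]) = q0 := by
      rw [run_step hst (by simp [hno])]
      unfold PTree.dom at hndc
      simp only [Bool.not_eq_true, Option.isSome_eq_false_iff, Option.isNone_iff_eq_none] at hndc
      simp [step, hndc]
    have h2 : st' (u' ++ [δ]) = q0 := by
      rw [run_step hst' (by simp [hno'])]
      unfold PTree.dom at hndc'
      simp only [Bool.not_eq_true, Option.isSome_eq_false_iff, Option.isNone_iff_eq_none] at hndc'
      simp [step, hndc']
    rw [h1, h2]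

theorem st_zero (rk : ℕ) (b : Bool) : St tab q0 comb rk 0 b := by
  intro X Y Y' τX τY τY' W W' ρ σ u u' δ oh oh' hEF hu hh hD hD' q st st' hst hst'
  have key : ∀ {Z : Type} {τZ : Z → Z → T} (U : PTree tab τX τZ) (w : List Bool)
      (o : Option (List Bool)) (s : List Bool → Q),
      (∀ v, U.dom v → ¬ Pc.Mem ⟨w ++ [δ], o⟩ v) → (∀ h ∈ o, U.dom h ∧ (w ++ [δ]) <+: h) →
      IsRun q0 comb U.lab (o.map (·, q)) s → s (w ++ [δ]) = if o = none then q0 else q := by
    intro Z τZ U w o s hD ho hs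
    cases o with
    | none =>
      simp only [if_true]
      have hn : ¬ U.dom (w ++ [δ]) := by
        intro hd
        exact hD _ hd ⟨List.prefix_refl _, by simp⟩
      rw [run_step hs (by simp)]
      unfold PTree.dom at hn
      simp only [Bool.not_eq_true, Option.isSome_eq_false_iff, Option.isNone_iff_eq_none] at hn
      simp [step, hn]
    | some h =>
      simp only [reduceCtorEq, if_false]
      obtain ⟨hd, hc⟩ := ho h rfl
      have hdc := U.dom_of_prefix hc hd
      have hm := hD _ hdc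
      unfold Pc.Mem at hm
      simp only [List.prefix_refl, true_and] at hm
      push Not at hm
      obtain ⟨h', hh', hh2⟩ := hm
      simp at hh'
      subst hh'
      have : h = w ++ [δ] := hh2.eq_of_length_le hc.length_le
      rw [← this]
      exact run_hole hs rfl
  have h1 := key W u oh st hD (by
    cases hh with
    | none => simp
    | some hl hc => intro h hh; simp at hh; subst hh; exact ⟨hl.dom, hc⟩) hst
  have h2 := key W' u' oh' st' hD' (by
    cases hh with
    | none => simp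
    | some hl hc =>
      intro h hh; simp at hh; subst hh
      exact ⟨hl.dom', (hu.child_iff hEF δ hl).1 hc⟩) hst'
  rw [h1, h2]
  cases hh <;> simp

theorem st_succ [Finite Q] {N : ℕ}
    (hN : ∀ (X Y : Type) (τX : X → X → S) (τY : Y → Y → T)
      (W : PTree tab τX τY) (b : Bool) (P : Pc) (u : List Bool) (δ : Bool),
      P.c = u ++ [δ] → W.dom u → (∀ h ∈ P.h, W.dom h ∧ P.c <+: h) →
      ∃ E : Set (List Bool),
        (∀ v ∈ E, W.dom v ∧ P.Mem v) ∧
        (∀ v, W.dom v → P.Mem v → (∃ f ∈ E, W.same b f v ∧ (f = v ∨ pre f v)) ∧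
          (∃ g ∈ E, W.same b g v ∧ (g = v ∨ pre' g v))) ∧
        (∀ c, (∃ z, (z ∈ E ∨ z ∈ P.h) ∧ c <+: z) →
          ∃ h₁, (h₁ ∈ E ∨ h₁ ∈ P.h) ∧ c <+: h₁ ∧ ∀ z, (z ∈ E ∨ z ∈ P.h) → c <+: z → h₁ <+: z) ∧
        (b = true → ∃ F : Finset X, F.card ≤ N ∧ ∀ v ∈ E, W.cx v ∈ F) ∧
        (b = false → ∃ F : Finset Y, F.card ≤ N ∧ ∀ v ∈ E, W.cy v ∈ F))
    {rk m : ℕ} {b : Bool} (IH : St tab q0 comb rk m (!b)) :
    St tab q0 comb (rk + 4 + (N * Nat.card Q + N)) (m + 1) b := by
  classical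
  intro X Y Y' τX τY τY' W W' ρ σ u u' δ oh oh' hEF hu hh hD hD' q st st' hst hst'
  obtain ⟨E, hE1, hE2, hE3, hE4, hE5⟩ := hN X Y τX τY W b ⟨u ++ [δ], oh⟩ u δ rfl hu.dom (by
    cases hh with
    | none => simp
    | some hl hc => intro h hh; simp at hh; subst hh; exact ⟨hl.dom, hc⟩)
  have hE : Events W b ⟨u ++ [δ], oh⟩ E := ⟨hE1, hE2⟩
  cases b with
  | true =>
    obtain ⟨F, hF, hFE⟩ := hE4 rfl
    -- subsets to move
    let J : Type := {x // x ∈ F} × Q
    have hJ : Nat.card J ≤ N * Nat.card Q + N := by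
      have : Nat.card J = F.card * Nat.card Q := by
        simp [J, Nat.card_prod]
      rw [this]
      calc F.card * Nat.card Q ≤ N * Nat.card Q := Nat.mul_le_mul_right _ hF
        _ ≤ _ := Nat.le_add_right _ _
    let R : J → Set Y := fun j => {y | ∃ v ∈ E, W.cx v = j.1.1 ∧ W.cy v = y ∧ st v = j.2}
    obtain ⟨R', hR'⟩ := hEF.move_sets hJ R
    have hRR : ∀ j, (R j, R' j) ∈ σ ∪ Set.range fun j => (R j, R' j) :=
      fun j => Or.inr ⟨j, rfl⟩
    let E' : Set (List Bool) := {v' | W'.dom v' ∧ ∃ (hx : W'.cx v' ∈ F) (s : Q),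
      W'.cy v' ∈ R' (⟨W'.cx v', hx⟩, s)}
    let r' : List Bool → Q := fun v' =>
      if h : ∃ (hx : W'.cx v' ∈ F) (s : Q), W'.cy v' ∈ R' (⟨W'.cx v', hx⟩, s) then
        h.choose_spec.choose else q
    refine finish (E := E) (E' := E') (r' := r') IH hR' hu hh hD hD' hE hE3 ?_ hst hst' ?_
    · rintro v' ⟨hv', -⟩; exact hv'
    · intro k ρ₂ hρ hk v v' hl
      have hkey : ∀ (hx : W'.cx v' ∈ F) (s : Q), W'.cy v' ∈ R' (⟨W'.cx v', hx⟩, s) ↔
          (v ∈ E ∧ st v = s) := by
        intro hx s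
        rw [← hk.mem_iff hl.cy (hRR (⟨W'.cx v', hx⟩, s))]
        constructor
        · rintro ⟨v₁, hv₁, hx₁, hy₁, hs₁⟩
          have : v₁ = v := W.cell_inj (hE1 v₁ hv₁).1 hl.dom (by rw [hx₁, hl.cx]) hy₁
          subst this
          exact ⟨hv₁, hs₁⟩
        · rintro ⟨hv, hs⟩
          exact ⟨v, hv, hl.cx, rfl, hs⟩
      have hiff : v ∈ E ↔ v' ∈ E' := by
        constructor
        · intro hv
          have hx : W'.cx v' ∈ F := by rw [← hl.cx]; exact hFE v hv
          exact ⟨hl.dom', hx, st v, (hkey hx (st v)).2 ⟨hv, rfl⟩⟩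
        · rintro ⟨-, hx, s, hs⟩
          exact ((hkey hx s).1 hs).1
      refine ⟨hiff, fun hv => ?_⟩
      have hv' := hiff.1 hv
      have hex := hv'.2
      have : r' v' = hex.choose_spec.choose := dif_pos hex
      rw [this]
      have hs := hex.choose_spec.choose_spec
      exact ((hkey _ _).1 hs).2.symm
  | false =>
    obtain ⟨F, hF, hFE⟩ := hE5 rfl
    haveI : Nonempty Y' := ⟨W'.cy u'⟩
    obtain ⟨g, hg⟩ := hEF.move_elems F (hF.trans (Nat.le_add_left _ _))
    have hsub : ρ ⊆ ρ ∪ {a : Y × Y' | a.1 ∈ F ∧ a.2 = g a.1} := Set.subset_union_left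
    let E' : Set (List Bool) := {v' | W'.dom v' ∧ ∃ v ∈ E, W.cx v = W'.cx v' ∧ W'.cy v' = g (W.cy v)}
    let r' : List Bool → Q := fun v' =>
      if h : ∃ v ∈ E, W.cx v = W'.cx v' ∧ W'.cy v' = g (W.cy v) then st h.choose else q
    refine finish (E := E) (E' := E') (r' := r') IH hg (hu.mono hsub) (hh.mono hsub) hD hD' hE hE3
      ?_ hst hst' ?_
    · rintro v' ⟨hv', -⟩; exact hv'
    · intro k ρ₂ hρ hk v v' hl
      have hkey : ∀ v₁ ∈ E, W.cx v₁ = W'.cx v' → W'.cy v' = g (W.cy v₁) → v₁ = v := by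
        intro v₁ hv₁ hx₁ hy₁
        have hm : (W.cy v₁, W'.cy v') ∈ ρ₂ := hρ (Or.inr ⟨hFE v₁ hv₁, hy₁⟩)
        exact W.cell_inj (hE1 v₁ hv₁).1 hl.dom (by rw [hx₁, hl.cx]) ((hk.eq_iff hm hl.cy).2 rfl)
      have hiff : v ∈ E ↔ v' ∈ E' := by
        constructor
        · intro hv
          refine ⟨hl.dom', v, hv, hl.cx, ?_⟩
          have hm : (W.cy v, g (W.cy v)) ∈ ρ₂ := hρ (Or.inr ⟨hFE v hv, rfl⟩)
          exact (hk.eq_iff hl.cy hm).1 rfl
        · rintro ⟨-, v₁, hv₁, hx₁, hy₁⟩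
          rw [← hkey v₁ hv₁ hx₁ hy₁]; exact hv₁
      refine ⟨hiff, fun hv => ?_⟩
      have hv' := hiff.1 hv
      have hex := hv'.2
      have : r' v' = st hex.choose := dif_pos hex
      rw [this]
      have hs := hex.choose_spec
      rw [hkey _ hs.1 hs.2.1 hs.2.2]

end Finish

theorem ft (S T G Q : Type) [Finite S] [Finite T] [Finite Q] (tab : Tab S T G) (q0 : Q)
    (comb : G → Q → Q → Q) :
    ∃ n : ℕ, ∀ (X Y Y' : Type) (τX : X → X → S) (τY : Y → Y → T) (τY' : Y' → Y' → T)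
      (W : PTree tab τX τY) (W' : PTree tab τX τY') (st st' : List Bool → Q),
      IsRun q0 comb W.lab none st → IsRun q0 comb W'.lab none st' →
      EF τY τY' n ∅ ∅ → st [] = st' [] := by
  obtain ⟨N, hN⟩ := exists_events S T
  have hall : ∀ m : ℕ, ∃ rk : ℕ, ∀ b, St tab q0 comb rk m b := by
    intro m
    induction m with
    | zero => exact ⟨0, fun b => st_zero 0 b⟩
    | succ m ih =>
      obtain ⟨rk, hrk⟩ := ih
      exact ⟨_, fun b => st_succ (fun X Y τX τY W b P u δ => hN G tab X Y τX τY W b P u δ)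
        (hrk (!b))⟩
  obtain ⟨rk, hrk⟩ := hall (4 * Nat.card S ^ 2 + 4)
  refine ⟨rk + 2, ?_⟩
  intro X Y Y' τX τY τY' W W' st st' hst hst' hEF
  have hstep : ∀ {lab : List Bool → Option G} {s : List Bool → Q}, IsRun q0 comb lab none s →
      ∀ p, s p = step q0 comb lab s p := fun h p => (h p).2 (by simp)
  by_cases hd : W.dom []
  · obtain ⟨r', ρ₁, -, hk₁, hl⟩ := link_forth (n := rk + 1) hEF hd
    have hd' : W'.dom [] := W'.dom_of_prefix List.nil_prefix hl.dom'
    obtain ⟨w, ρ₂, hρ₂, hk₂, hl₂⟩ := link_back (n := rk) hk₁ hd'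
    have h1 : r' <+: [] := ((hl.mono hρ₂).prefix_iff hk₂ hl₂).1 List.nil_prefix
    have h2 : r' = [] := List.prefix_nil.1 h1
    subst h2
    have hl' := hl.mono hρ₂
    rw [hstep hst [], hstep hst' []]
    have hlab := hl'.lab hk₂
    have hchild : ∀ δ : Bool, st ([] ++ [δ]) = st' ([] ++ [δ]) := by
      intro δ
      exact hrk true X Y Y' τX τY τY' W W' ρ₂ ∅ [] [] δ none none hk₂ hl' HM.none
        (depth_bound W _) (depth_bound W' _) q0 st st' hst hst'
    unfold step
    rw [hlab, hchild false, hchild true]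
  · have hd' : ¬ W'.dom [] := by
      intro hd'
      obtain ⟨w, ρ₁, -, -, hl⟩ := link_back (n := rk + 1) hEF hd'
      exact hd (W.dom_of_prefix List.nil_prefix hl.dom)
    unfold PTree.dom at hd hd'
    simp only [Bool.not_eq_true, Option.isSome_eq_false_iff, Option.isNone_iff_eq_none] at hd hd'
    rw [hstep hst [], hstep hst' []]
    simp [step, hd, hd']

end Pool.Agent.TreeMSO
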