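import Pool.Agent.TreeMSO.Base

/-!
# Recognizable sets: closure properties, contexts, Myhill–Nerode
-/

set_option autoImplicit false

namespace Pool.Agent.TreeMSO

theorem Tr.lab?_mapPos {A B : Type} (g : List Bool → A → B) (t : Tr A) (p : List Bool) :
    (t.mapPos g).lab? p = (t.lab? p).map (g p) := by
  induction t generalizing g p with
  | leaf a =>
    cases p with
    | nil => rfl
    | cons b p => rfl
  | node a l r ihl ihr =>
    cases p with
    | nil => rfl
    | cons b p =>
      cases b with
      | false =>
        simp only [Tr.mapPos, Tr.lab?]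
        exact ihl (fun p => g (false :: p)) p
      | true =>
        simp only [Tr.mapPos, Tr.lab?]
        exact ihr (fun p => g (true :: p)) p

theorem Tr.lab?_nil_isSome {A : Type} (t : Tr A) : (t.lab? []).isSome := by
  cases t <;> rfl

theorem Tr.ext_lab? {A : Type} {s t : Tr A} (h : ∀ p, s.lab? p = t.lab? p) : s = t := by
  induction s generalizing t with
  | leaf a =>
    cases t with
    | leaf b =>
      have := h []
      simp only [Tr.lab?, Option.some.injEq] at this
      rw [this]
    | node b l r =>
      have h1 := h [false]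
      simp only [Tr.lab?] at h1
      have h2 := Tr.lab?_nil_isSome l
      rw [← h1] at h2
      simp at h2
  | node a l r ihl ihr =>
    cases t with
    | leaf b =>
      have h1 := h [false]
      simp only [Tr.lab?] at h1
      have h2 := Tr.lab?_nil_isSome l
      rw [h1] at h2
      simp at h2
    | node b l' r' =>
      have h0 := h []
      simp only [Tr.lab?, Option.some.injEq] at h0
      have hl : l = l' := ihl (fun p => by
        have := h (false :: p)
        simpa only [Tr.lab?] using this)
      have hr : r = r' := ihr (fun p => by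
        have := h (true :: p)
        simpa only [Tr.lab?] using this)
      rw [h0, hl, hr]

theorem Tr.lab?_closed {A : Type} (t : Tr A) (p : List Bool) (b : Bool)
    (h : (t.lab? (p ++ [b])).isSome) : (t.lab? p).isSome := by
  induction t generalizing p with
  | leaf a =>
    cases p with
    | nil => rfl
    | cons c p => simp [Tr.lab?] at h
  | node a l r ihl ihr =>
    cases p with
    | nil => rfl
    | cons c p =>
      cases c with
      | false =>
        simp only [List.cons_append, Tr.lab?] at h ⊢
        exact ihl p h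
      | true =>
        simp only [List.cons_append, Tr.lab?] at h ⊢
        exact ihr p h

theorem Tr.lab?_bounded {A : Type} (t : Tr A) : ∃ N, ∀ p, (t.lab? p).isSome → p.length ≤ N := by
  induction t with
  | leaf a =>
    refine ⟨0, fun p hp => ?_⟩
    cases p with
    | nil => simp
    | cons b p => simp [Tr.lab?] at hp
  | node a l r ihl ihr =>
    obtain ⟨N, hN⟩ := ihl
    obtain ⟨M, hM⟩ := ihr
    refine ⟨N + M + 1, fun p hp => ?_⟩
    cases p with
    | nil => simp
    | cons b p =>
      cases b with
      | false =>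
        simp only [Tr.lab?] at hp
        have := hN p hp
        simp only [List.length_cons]
        omega
      | true =>
        simp only [Tr.lab?] at hp
        have := hM p hp
        simp only [List.length_cons]
        omega

theorem Recog.comap {A B : Type} {K : Set (Tr B)} (hK : Recog K) (g : A → B) :
    Recog {t : Tr A | t.mapPos (fun _ a => g a) ∈ K} := by
  obtain ⟨Q, hQ, α, F, h⟩ := hK
  refine ⟨Q, hQ, ⟨fun a => α.leaf (g a), fun a => α.node (g a)⟩, F, fun t => ?_⟩
  have key : ∀ t : Tr A, α.eval (t.mapPos (fun _ a => g a)) =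
      (⟨fun a => α.leaf (g a), fun a => α.node (g a)⟩ : Alg A Q).eval t := by
    intro t
    induction t with
    | leaf a => rfl
    | node a l r ihl ihr =>
      simp only [Tr.mapPos, Alg.eval]
      rw [ihl, ihr]
  rw [Set.mem_ofPred_eq, h, key]

theorem Recog.compl {A : Type} {K : Set (Tr A)} (hK : Recog K) : Recog Kᶜ := by
  obtain ⟨Q, hQ, α, F, h⟩ := hK
  refine ⟨Q, hQ, α, Fᶜ, fun t => ?_⟩
  rw [Set.mem_compl_iff, Set.mem_compl_iff, h]

theorem Recog.family {A ι : Type} [Finite ι] {K : ι → Set (Tr A)} (hK : ∀ i, Recog (K i)) :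
    ∃ (Q : Type) (_ : Finite Q) (α : Alg A Q) (F : ι → Set Q), ∀ i t, t ∈ K i ↔ α.eval t ∈ F i := by
  choose Q hQ α F h using hK
  let β : Alg A (∀ i, Q i) := ⟨fun a i => (α i).leaf a, fun a x y i => (α i).node a (x i) (y i)⟩
  have key : ∀ (t : Tr A) (i : ι), β.eval t i = (α i).eval t := by
    intro t i
    induction t with
    | leaf a => rfl
    | node a l r ihl ihr =>
      simp only [Alg.eval]
      rw [← ihl, ← ihr]
  refine ⟨∀ i, Q i, Pi.finite, β, fun i => {q | q i ∈ F i}, fun i t => ?_⟩
  rw [Set.mem_ofPred_eq, key, h]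

theorem Recog.inter {A : Type} {K L : Set (Tr A)} (hK : Recog K) (hL : Recog L) :
    Recog (K ∩ L) := by
  obtain ⟨Q, hQ, α, F, h⟩ := Recog.family (ι := Bool) (K := fun b => if b then K else L)
    (fun b => by cases b <;> simpa)
  refine ⟨Q, hQ, α, F true ∩ F false, fun t => ?_⟩
  rw [Set.mem_inter_iff, Set.mem_inter_iff, ← h, ← h]
  simp

/-- `Some label satisfies P` is recognizable. -/
theorem recog_exists {A : Type} (P : A → Prop) :
    Recog {t : Tr A | ∃ p a, t.lab? p = some a ∧ P a} := by
  refine ⟨Prop, inferInstance, ⟨fun a => P a, fun a x y => P a ∨ x ∨ y⟩, {q | q}, fun t => ?_⟩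
  rw [Set.mem_ofPred_eq, Set.mem_ofPred_eq]
  induction t with
  | leaf a =>
    simp only [Alg.eval]
    constructor
    · rintro ⟨p, b, h1, h2⟩
      cases p with
      | nil =>
        simp only [Tr.lab?, Option.some.injEq] at h1
        rw [h1]; exact h2
      | cons c p => simp [Tr.lab?] at h1
    · intro h
      exact ⟨[], a, rfl, h⟩
  | node a l r ihl ihr =>
    simp only [Alg.eval]
    rw [← ihl, ← ihr]
    constructor
    · rintro ⟨p, b, h1, h2⟩
      cases p with
      | nil =>
        simp only [Tr.lab?, Option.some.injEq] at h1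
        left; rw [h1]; exact h2
      | cons c p =>
        cases c with
        | false => exact Or.inr (Or.inl ⟨p, b, h1, h2⟩)
        | true => exact Or.inr (Or.inr ⟨p, b, h1, h2⟩)
    · rintro (h | ⟨p, b, h1, h2⟩ | ⟨p, b, h1, h2⟩)
      · exact ⟨[], a, rfl, h⟩
      · exact ⟨false :: p, b, h1, h2⟩
      · exact ⟨true :: p, b, h1, h2⟩

/-- The nodes whose label satisfies `P`. -/
private def marked {A : Type} (P : A → Prop) (t : Tr A) : Set (List Bool) :=
  {p | ∃ a, t.lab? p = some a ∧ P a}

private theorem nil_mem_marked_node {A : Type} (P : A → Prop) (a : A) (l r : Tr A) :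
    [] ∈ marked P (.node a l r) ↔ P a := by
  constructor
  · rintro ⟨b, h1, h2⟩
    simp only [Tr.lab?, Option.some.injEq] at h1
    rw [h1]; exact h2
  · intro h
    exact ⟨a, rfl, h⟩

private theorem false_mem_marked_node {A : Type} (P : A → Prop) (a : A) (l r : Tr A)
    (p : List Bool) : false :: p ∈ marked P (.node a l r) ↔ p ∈ marked P l := Iff.rfl

private theorem true_mem_marked_node {A : Type} (P : A → Prop) (a : A) (l r : Tr A)
    (p : List Bool) : true :: p ∈ marked P (.node a l r) ↔ p ∈ marked P r := Iff.rfl

private theorem marked_node_empty {A : Type} (P : A → Prop) (a : A) (l r : Tr A) :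
    (∀ p, p ∉ marked P (.node a l r)) ↔ ¬ P a ∧ (∀ p, p ∉ marked P l) ∧ ∀ p, p ∉ marked P r := by
  constructor
  · intro h
    exact ⟨fun hP => h [] ((nil_mem_marked_node P a l r).2 hP), fun p hp => h (false :: p) hp,
      fun p hp => h (true :: p) hp⟩
  · rintro ⟨h1, h2, h3⟩ p hp
    cases p with
    | nil => exact h1 ((nil_mem_marked_node P a l r).1 hp)
    | cons c p =>
      cases c with
      | false => exact h2 p hp
      | true => exact h3 p hp

private theorem marked_node_unique {A : Type} (P : A → Prop) (a : A) (l r : Tr A) :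
    (∃! p, p ∈ marked P (.node a l r)) ↔
      (P a ∧ (∀ p, p ∉ marked P l) ∧ ∀ p, p ∉ marked P r) ∨
      (¬ P a ∧ (∃! p, p ∈ marked P l) ∧ ∀ p, p ∉ marked P r) ∨
      (¬ P a ∧ (∀ p, p ∉ marked P l) ∧ ∃! p, p ∈ marked P r) := by
  constructor
  · rintro ⟨p, hp, hu⟩
    cases p with
    | nil =>
      left
      refine ⟨(nil_mem_marked_node P a l r).1 hp, fun q hq => ?_, fun q hq => ?_⟩
      · have := hu (false :: q) hq
        simp at this
      · have := hu (true :: q) hq
        simp at this
    | cons c p =>
      cases c with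
      | false =>
        right; left
        refine ⟨fun hP => ?_, ⟨p, hp, fun q hq => ?_⟩, fun q hq => ?_⟩
        · have := hu [] ((nil_mem_marked_node P a l r).2 hP)
          simp at this
        · have := hu (false :: q) hq
          simpa using this
        · have := hu (true :: q) hq
          simp at this
      | true =>
        right; right
        refine ⟨fun hP => ?_, fun q hq => ?_, ⟨p, hp, fun q hq => ?_⟩⟩
        · have := hu [] ((nil_mem_marked_node P a l r).2 hP)
          simp at this
        · have := hu (false :: q) hq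
          simp at this
        · have := hu (true :: q) hq
          simpa using this
  · rintro (⟨h1, h2, h3⟩ | ⟨h1, ⟨p, hp, hu⟩, h3⟩ | ⟨h1, h2, ⟨p, hp, hu⟩⟩)
    · refine ⟨[], (nil_mem_marked_node P a l r).2 h1, fun q hq => ?_⟩
      cases q with
      | nil => rfl
      | cons c q =>
        cases c with
        | false => exact absurd hq (h2 q)
        | true => exact absurd hq (h3 q)
    · refine ⟨false :: p, hp, fun q hq => ?_⟩
      cases q with
      | nil => exact absurd ((nil_mem_marked_node P a l r).1 hq) h1
      | cons c q =>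
        cases c with
        | false => rw [hu q hq]
        | true => exact absurd hq (h3 q)
    · refine ⟨true :: p, hp, fun q hq => ?_⟩
      cases q with
      | nil => exact absurd ((nil_mem_marked_node P a l r).1 hq) h1
      | cons c q =>
        cases c with
        | false => exact absurd hq (h2 q)
        | true => rw [hu q hq]

/-- `Exactly one node has a label satisfying P` is recognizable. -/
theorem recog_unique {A : Type} (P : A → Prop) :
    Recog {t : Tr A | ∃! p, ∃ a, t.lab? p = some a ∧ P a} := by
  -- first component: no mark, second component: exactly one mark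
  let α : Alg A (Prop × Prop) := ⟨fun a => (¬ P a, P a), fun a x y =>
    (¬ P a ∧ x.1 ∧ y.1, (P a ∧ x.1 ∧ y.1) ∨ (¬ P a ∧ x.2 ∧ y.1) ∨ (¬ P a ∧ x.1 ∧ y.2))⟩
  have key : ∀ t : Tr A, ((∀ p, p ∉ marked P t) ↔ (α.eval t).1) ∧
      ((∃! p, p ∈ marked P t) ↔ (α.eval t).2) := by
    intro t
    induction t with
    | leaf a =>
      have h0 : ∀ p, p ∈ marked P (.leaf a) ↔ p = [] ∧ P a := by
        intro p
        constructor
        · rintro ⟨b, h1, h2⟩
          cases p with
          | nil =>
            simp only [Tr.lab?, Option.some.injEq] at h1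
            exact ⟨rfl, by rw [h1]; exact h2⟩
          | cons c p => simp [Tr.lab?] at h1
        · rintro ⟨rfl, h⟩
          exact ⟨a, rfl, h⟩
      constructor
      · show _ ↔ ¬ P a
        constructor
        · intro h hP
          exact h [] ((h0 []).2 ⟨rfl, hP⟩)
        · intro h p hp
          exact h ((h0 p).1 hp).2
      · show _ ↔ P a
        constructor
        · rintro ⟨p, hp, _⟩
          exact ((h0 p).1 hp).2
        · intro h
          exact ⟨[], (h0 []).2 ⟨rfl, h⟩, fun q hq => ((h0 q).1 hq).1⟩
    | node a l r ihl ihr =>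
      obtain ⟨l1, l2⟩ := ihl
      obtain ⟨r1, r2⟩ := ihr
      constructor
      · rw [marked_node_empty, l1, r1]
        exact Iff.rfl
      · rw [marked_node_unique, l1, r1, l2, r2]
        exact Iff.rfl
  exact ⟨Prop × Prop, inferInstance, α, {q | q.2}, fun t => (key t).2⟩

theorem Alg.eval_fill {A Q : Type} (α : Alg A Q) (C : Ctx A) (s : Tr A) :
    α.eval (C.fill s) = α.ctx C (α.eval s) := by
  induction C with
  | hole => rfl
  | left a C r ih => simp only [Ctx.fill, Alg.eval, Alg.ctx, ih]
  | right a l C ih => simp only [Ctx.fill, Alg.eval, Alg.ctx, ih]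

theorem Ctx.lab?_fill_of_prefix {A : Type} (C : Ctx A) (s : Tr A) (p : List Bool) :
    (C.fill s).lab? (C.pos ++ p) = s.lab? p := by
  induction C with
  | hole => rfl
  | left a C r ih => simpa only [Ctx.fill, Ctx.pos, List.cons_append, Tr.lab?] using ih
  | right a l C ih => simpa only [Ctx.fill, Ctx.pos, List.cons_append, Tr.lab?] using ih

theorem Ctx.lab?_fill_of_not_prefix {A : Type} (C : Ctx A) (s : Tr A) (p : List Bool)
    (h : ¬ C.pos <+: p) : (C.fill s).lab? p = C.lab? p := by
  induction C generalizing p with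
  | hole => exact absurd (List.nil_prefix) h
  | left a C r ih =>
    cases p with
    | nil => rfl
    | cons c p =>
      cases c with
      | false =>
        have h' : ¬ C.pos <+: p := fun hp => h (by
          simp only [Ctx.pos]
          exact List.cons_prefix_cons.2 ⟨rfl, hp⟩)
        simpa only [Ctx.fill, Tr.lab?, Ctx.lab?] using ih p h'
      | true => rfl
  | right a l C ih =>
    cases p with
    | nil => rfl
    | cons c p =>
      cases c with
      | false => rfl
      | true =>
        have h' : ¬ C.pos <+: p := fun hp => h (by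
          simp only [Ctx.pos]
          exact List.cons_prefix_cons.2 ⟨rfl, hp⟩)
        simpa only [Ctx.fill, Tr.lab?, Ctx.lab?] using ih p h'

theorem Ctx.lab?_of_prefix {A : Type} (C : Ctx A) (p : List Bool) :
    C.lab? (C.pos ++ p) = none := by
  induction C with
  | hole => rfl
  | left a C r ih => simpa only [Ctx.pos, List.cons_append, Ctx.lab?] using ih
  | right a l C ih => simpa only [Ctx.pos, List.cons_append, Ctx.lab?] using ih

theorem Ctx.fill_mapPos {A B : Type} (g : List Bool → A → B) (C : Ctx A) (s : Tr A) :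
    (C.fill s).mapPos g = (C.mapPos g).fill (s.mapPos fun p => g (C.pos ++ p)) := by
  induction C generalizing g with
  | hole => rfl
  | left a C r ih =>
    simp only [Ctx.fill, Ctx.pos, Ctx.mapPos, Tr.mapPos, List.cons_append]
    rw [ih (fun p => g (false :: p))]
  | right a l C ih =>
    simp only [Ctx.fill, Ctx.pos, Ctx.mapPos, Tr.mapPos, List.cons_append]
    rw [ih (fun p => g (true :: p))]

theorem Ctx.pos_mapPos {A B : Type} (g : List Bool → A → B) (C : Ctx A) :
    (C.mapPos g).pos = C.pos := by
  induction C generalizing g with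
  | hole => rfl
  | left a C r ih =>
    simp only [Ctx.mapPos, Ctx.pos]
    rw [ih (fun p => g (false :: p))]
  | right a l C ih =>
    simp only [Ctx.mapPos, Ctx.pos]
    rw [ih (fun p => g (true :: p))]

/-- Composition of contexts. -/
private def Ctx.comp {A : Type} : Ctx A → Ctx A → Ctx A
  | .hole, D => D
  | .left a C r, D => .left a (C.comp D) r
  | .right a l C, D => .right a l (C.comp D)

private theorem Ctx.fill_comp {A : Type} (C D : Ctx A) (s : Tr A) :
    (C.comp D).fill s = C.fill (D.fill s) := by
  induction C with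
  | hole => rfl
  | left a C r ih => simp only [Ctx.comp, Ctx.fill, ih]
  | right a l C ih => simp only [Ctx.comp, Ctx.fill, ih]

theorem myhill_nerode {A : Type} (K : Set (Tr A)) (Q : Type) [Finite Q] (c : Tr A → Q)
    (h : ∀ s s' : Tr A, c s = c s' → ∀ C : Ctx A, C.fill s ∈ K → C.fill s' ∈ K) : Recog K := by
  let τ : Tr A → Set (Ctx A) := fun s => {C | C.fill s ∈ K}
  have hτ : ∀ s s', c s = c s' → τ s = τ s' := by
    intro s s' hs
    ext C
    exact ⟨h s s' hs C, h s' s hs.symm C⟩
  have hfin : Finite (Set.range τ) := by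
    refine Finite.of_surjective (α := Set.range c)
      (fun q => (⟨τ q.2.choose, ⟨_, rfl⟩⟩ : Set.range τ)) ?_
    rintro ⟨_, s, rfl⟩
    refine ⟨⟨c s, ⟨s, rfl⟩⟩, ?_⟩
    apply Subtype.ext
    apply hτ
    exact (⟨s, rfl⟩ : ∃ s', c s' = c s).choose_spec
  have hrep : ∀ x : Set.range τ, ∃ s, τ s = x.1 := fun x => x.2
  choose rep hrep using hrep
  let α : Alg A (Set.range τ) := ⟨fun a => ⟨τ (.leaf a), ⟨_, rfl⟩⟩,
    fun a x y => ⟨τ (.node a (rep x) (rep y)), ⟨_, rfl⟩⟩⟩
  have hl : ∀ (a : A) (s s' r : Tr A), τ s = τ s' → τ (.node a s r) = τ (.node a s' r) := by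
    intro a s s' r hs
    ext C
    have h1 : (C.comp (.left a .hole r)) ∈ τ s ↔ (C.comp (.left a .hole r)) ∈ τ s' := by rw [hs]
    simp only [τ, Set.mem_ofPred_eq, Ctx.fill_comp, Ctx.fill] at h1 ⊢
    exact h1
  have hr : ∀ (a : A) (s r r' : Tr A), τ r = τ r' → τ (.node a s r) = τ (.node a s r') := by
    intro a s r r' hs
    ext C
    have h1 : (C.comp (.right a s .hole)) ∈ τ r ↔ (C.comp (.right a s .hole)) ∈ τ r' := by rw [hs]
    simp only [τ, Set.mem_ofPred_eq, Ctx.fill_comp, Ctx.fill] at h1 ⊢
    exact h1
  have key : ∀ t : Tr A, α.eval t = ⟨τ t, ⟨t, rfl⟩⟩ := by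
    intro t
    induction t with
    | leaf a => rfl
    | node a l r ihl ihr =>
      apply Subtype.ext
      simp only [Alg.eval]
      rw [ihl, ihr]
      show τ (.node a (rep ⟨τ l, _⟩) (rep ⟨τ r, _⟩)) = τ (.node a l r)
      rw [hl a _ l _ (hrep ⟨τ l, ⟨l, rfl⟩⟩), hr a l _ r (hrep ⟨τ r, ⟨r, rfl⟩⟩)]
  refine ⟨Set.range τ, hfin, α, {x | Ctx.hole ∈ x.1}, fun t => ?_⟩
  rw [Set.mem_ofPred_eq, key]
  exact Iff.rfl

end Pool.Agent.TreeMSO
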