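import Pool.Agent.TreeMSO.Tw1
import Pool.Agent.TreeMSO.Recog
import Pool.Agent.TreeMSO.Pos

/-!
# The output of an interpretation on `C.fill s` is a product tree
-/

set_option autoImplicit false

namespace Pool.Agent.TreeMSO

/-- Forget the marks. -/
def Tr.under {A M : Type} (t : Tr (A × M)) : Tr A := t.mapPos fun _ a => a.1

namespace PA

/-- Forget the marks. -/
abbrev under {A M : Type} (t : Tr (A × M)) : Tr A := t.under

theorem lab_under {A M : Type} (t : Tr (A × M)) (p : List Bool) :
    (under t).lab? p = (t.lab? p).map Prod.fst := by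
  rw [under, Tr.under, Tr.lab?_mapPos]

/-- Marks of two partial tuples at a position. -/
def mk {K : ℕ} (y y' : Fin K → Option (List Bool)) (p : List Bool) : Set (Bool × Fin K) :=
  {m | (if m.1 then y' else y) m.2 = some p}

/-- Tree with the marks of two partial tuples. -/
def annT {A : Type} {K : ℕ} (s : Tr A) (y y' : Fin K → Option (List Bool)) :
    Tr (A × Set (Bool × Fin K)) := s.mapPos fun p a => (a, mk y y' p)

/-- Context with the marks of two partial tuples. -/
def annC {A : Type} {K : ℕ} (C : Ctx A) (y y' : Fin K → Option (List Bool)) :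
    Ctx (A × Set (Bool × Fin K)) := C.mapPos fun p a => (a, mk y y' p)

/-- Merge partial tuples of a context and of a tree. -/
def merge {K : ℕ} (π : List Bool) (x y : Fin K → Option (List Bool)) : Fin K → Option (List Bool) :=
  fun l => match x l with
    | some p => some p
    | none => (y l).map (π ++ ·)

theorem ctx_mapPos_congr {A B : Type} (C : Ctx A) (g h : List Bool → A → B)
    (H : ∀ p a, C.lab? p = some a → g p a = h p a) : C.mapPos g = C.mapPos h := by
  induction C generalizing g h with
  | hole => rfl
  | left a C r ih =>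
    simp only [Ctx.mapPos]
    rw [H [] a rfl, ih _ _ (fun p a hp => H (false :: p) a hp),
      Tw1.mapPos_congr r _ _ (fun p a hp => H (true :: p) a hp)]
  | right a l C ih =>
    simp only [Ctx.mapPos]
    rw [H [] a rfl, ih _ _ (fun p a hp => H (true :: p) a hp),
      Tw1.mapPos_congr l _ _ (fun p a hp => H (false :: p) a hp)]

/-- Valid partial tuple of a context. -/
def VC {A : Type} {K : ℕ} (C : Ctx A) (x : Fin K → Option (List Bool)) : Prop :=
  ∀ l p, x l = some p → (C.lab? p).isSome

/-- Valid partial tuple of a tree. -/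
def VT {A : Type} {K : ℕ} (s : Tr A) (y : Fin K → Option (List Bool)) : Prop :=
  ∀ l p, y l = some p → (s.lab? p).isSome

theorem not_pos_of_lab {A : Type} {C : Ctx A} {p : List Bool} (h : (C.lab? p).isSome) :
    ¬ C.pos <+: p := by
  rintro ⟨q, rfl⟩
  rw [Ctx.lab?_of_prefix] at h
  simp at h

theorem merge_eq_of_ctx {A : Type} {K : ℕ} {C : Ctx A} {x y : Fin K → Option (List Bool)}
    {p : List Bool} (hp : (C.lab? p).isSome) (l : Fin K) :
    merge C.pos x y l = some p ↔ x l = some p := by
  unfold merge
  cases hx : x l with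
  | some q => simp
  | none =>
    simp only [Option.map_eq_some_iff, reduceCtorEq, iff_false]
    rintro ⟨q, -, rfl⟩
    exact not_pos_of_lab hp (List.prefix_append _ _)

theorem merge_eq_of_tree {A : Type} {K : ℕ} {C : Ctx A} {x y : Fin K → Option (List Bool)}
    (hx : VC C x) (hd : ∀ l, x l = none ∨ y l = none) (p : List Bool) (l : Fin K) :
    merge C.pos x y l = some (C.pos ++ p) ↔ y l = some p := by
  unfold merge
  cases hxl : x l with
  | some q =>
    rcases hd l with h | h
    · rw [h] at hxl; simp at hxl
    · simp only [h, Option.some.injEq, reduceCtorEq, iff_false]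
      rintro rfl
      exact not_pos_of_lab (hx l _ hxl) (List.prefix_append _ _)
  | none =>
    simp only [Option.map_eq_some_iff]
    constructor
    · rintro ⟨q, hq, hqp⟩
      rw [hq, List.append_cancel_left hqp]
    · intro h
      exact ⟨p, h, rfl⟩

theorem fill_ann {A : Type} {K : ℕ} (C : Ctx A) (s : Tr A)
    {x x' y y' : Fin K → Option (List Bool)} (hx : VC C x) (hx' : VC C x')
    (hd : ∀ l, x l = none ∨ y l = none) (hd' : ∀ l, x' l = none ∨ y' l = none) :
    (annC C x x').fill (annT s y y') =
      annT (C.fill s) (merge C.pos x y) (merge C.pos x' y') := by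
  unfold annT
  rw [Ctx.fill_mapPos]
  congr 1
  · unfold annC
    apply ctx_mapPos_congr
    intro p a hp
    have hp' : (C.lab? p).isSome := by rw [hp]; rfl
    refine Prod.ext rfl ?_
    ext m
    simp only [mk, Set.mem_ofPred_eq]
    cases m.1 with
    | false => exact (merge_eq_of_ctx hp' m.2).symm
    | true => exact (merge_eq_of_ctx hp' m.2).symm
  · congr 1
    funext p a
    refine Prod.ext rfl ?_
    ext m
    simp only [mk, Set.mem_ofPred_eq]
    cases m.1 with
    | false => exact (merge_eq_of_tree hx hd p m.2).symm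
    | true => exact (merge_eq_of_tree hx' hd' p m.2).symm

/-- The recognizable set of doubly marked trees satisfying a formula whose variables are read off
from the marks. -/
theorem recog_formula {A M : Type} {K : ℕ} {V' : Type} (φ : Fm (treeVocab A) V' 0 0)
    (g : V' → Bool × Fin K) :
    ∃ L : Set (Tr ((A × M) × Set (Bool × Fin K))), Recog L ∧
      ∀ (t : Tr (A × M)) (z z' : Fin K → Option (List Bool)) (v : V' → (under t).Node),
        (∀ i, (if (g i).1 then z' else z) (g i).2 = some (v i).1) →
        (annT t z z' ∈ L ↔ φ.Holds (treeStr (under t)) v) := by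
  obtain ⟨L, hL, hLt⟩ := tw1 φ
  refine ⟨_, hL.comap (fun a => (a.1.1, {i | g i ∈ a.2})), ?_⟩
  intro t z z' v hv
  rw [← hLt]
  simp only [Set.mem_ofPred_eq]
  have : (annT t z z').mapPos (fun _ a => (a.1.1, {i | g i ∈ a.2})) =
      (under t).ann (fun i => (v i).1) := by
    unfold annT under Tr.under Tr.ann
    rw [Tw1.mapPos_mapPos, Tw1.mapPos_mapPos]
    congr 1
    funext p a
    refine Prod.ext rfl ?_
    ext i
    simp only [mk, Set.mem_ofPred_eq]
    rw [hv i, Option.some.injEq]
  rw [this]

/-! ## The finite algebra -/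

instance finiteTSym {B : Type} [Finite B] : Finite (TSym B) := by
  refine Finite.of_surjective (α := B ⊕ Bool)
    (fun x => match x with
      | .inl b => TSym.lab b
      | .inr true => TSym.desc
      | .inr false => TSym.doc) ?_
  intro R
  cases R with
  | lab b => exact ⟨.inl b, rfl⟩
  | desc => exact ⟨.inr true, rfl⟩
  | doc => exact ⟨.inr false, rfl⟩

section Alg

variable {A B V : Type} (I : Interp (treeVocab A) (treeVocab B)) (c : V → I.Comp)

/-- The marks of the input. -/
abbrev VM : Type := (v : V) × Fin (I.dim (c v))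

/-- The coordinates of a node of the output as a partial tuple of length `K`. -/
def tup {K : ℕ} {t : Tr A} (u : (I.out (treeStr t)).U) : Fin K → Option (List Bool) :=
  fun l => if h : l.1 < I.dim u.1 then some (u.2.1 ⟨l.1, h⟩).1 else none

theorem tup_castLE {K : ℕ} (hK : ∀ i, I.dim i ≤ K) {t : Tr A} (u : (I.out (treeStr t)).U)
    (l : Fin (I.dim u.1)) : tup I u (Fin.castLE (hK u.1) l) = some (u.2.1 l).1 := by
  unfold tup
  rw [dif_pos (show (Fin.castLE (hK u.1) l).1 < I.dim u.1 from l.2)]
  rfl

/-- Index of the family of recognizable sets. -/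
abbrev Idx : Type :=
  I.Comp ⊕ ((R : (treeVocab B).Sym) × (Fin ((treeVocab B).ar R) → I.Comp) ×
    (Fin ((treeVocab B).ar R) → Bool)) ⊕ VM I c

theorem exists_alg [Finite B] [Finite V] {K : ℕ} (hK : ∀ i, I.dim i ≤ K) :
    ∃ (Q : Type) (_ : Finite Q) (α : Alg ((A × Set (VM I c)) × Set (Bool × Fin K)) Q)
      (Fd : I.Comp → Set Q)
      (Fr : (R : (treeVocab B).Sym) → (Fin ((treeVocab B).ar R) → I.Comp) →
        (Fin ((treeVocab B).ar R) → Bool) → Set Q)
      (Fm : VM I c → Set Q),
      (∀ (t : Tr (A × Set (VM I c))) (i : I.Comp) (z : Fin K → Option (List Bool))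
        (w : Fin (I.dim i) → (under t).Node), (∀ l, z (Fin.castLE (hK i) l) = some (w l).1) →
        (α.eval (annT t z z) ∈ Fd i ↔ (I.dom i).Holds (treeStr (under t)) w)) ∧
      (∀ (t : Tr (A × Set (VM I c))) (u u' : (I.out (treeStr (under t))).U)
        (R : (treeVocab B).Sym) (o : Fin ((treeVocab B).ar R) → Bool),
        (α.eval (annT t (tup I u) (tup I u')) ∈
            Fr R (fun a => (if o a then u' else u).1) o ↔
          (I.out (treeStr (under t))).rel R (fun a => if o a then u' else u))) ∧
      (∀ (t : Tr (A × Set (VM I c))) (m : VM I c) (z : Fin K → Option (List Bool)),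
        (α.eval (annT t z z) ∈ Fm m ↔
          ∃ p a, t.lab? p = some a ∧ m ∈ a.2 ∧ z (Fin.castLE (hK _) m.2) = some p)) := by
  have hfin := I.fin
  have h1 : ∀ i : I.Comp, ∃ L : Set (Tr ((A × Set (VM I c)) × Set (Bool × Fin K))), Recog L ∧
      ∀ (t : Tr (A × Set (VM I c))) (z z' : Fin K → Option (List Bool))
        (v : Fin (I.dim i) → (under t).Node),
        (∀ l, z (Fin.castLE (hK i) l) = some (v l).1) →
        (annT t z z' ∈ L ↔ (I.dom i).Holds (treeStr (under t)) v) := by
    intro i
    obtain ⟨L, hL, h⟩ := recog_formula (M := Set (VM I c)) (I.dom i)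
      (fun l => (false, Fin.castLE (hK i) l))
    exact ⟨L, hL, fun t z z' v hv => h t z z' v (by simpa using hv)⟩
  choose L1 hL1 h1 using h1
  have h2 : ∀ (R : (treeVocab B).Sym) (cs : Fin ((treeVocab B).ar R) → I.Comp)
      (o : Fin ((treeVocab B).ar R) → Bool),
      ∃ L : Set (Tr ((A × Set (VM I c)) × Set (Bool × Fin K))), Recog L ∧
      ∀ (t : Tr (A × Set (VM I c))) (z z' : Fin K → Option (List Bool))
        (v : ((j : Fin ((treeVocab B).ar R)) × Fin (I.dim (cs j))) → (under t).Node),
        (∀ m, (if o m.1 then z' else z) (Fin.castLE (hK (cs m.1)) m.2) = some (v m).1) →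
        (annT t z z' ∈ L ↔ (I.rel R cs).Holds (treeStr (under t)) v) := by
    intro R cs o
    obtain ⟨L, hL, h⟩ := recog_formula (M := Set (VM I c)) (I.rel R cs)
      (fun m => (o m.1, Fin.castLE (hK (cs m.1)) m.2))
    exact ⟨L, hL, fun t z z' v hv => h t z z' v hv⟩
  choose L2 hL2 h2 using h2
  let KK : Idx I c → Set (Tr ((A × Set (VM I c)) × Set (Bool × Fin K))) := fun x => match x with
    | .inl i => L1 i
    | .inr (.inl r) => L2 r.1 r.2.1 r.2.2
    | .inr (.inr m) => {t | ∃ p a, t.lab? p = some a ∧
        (m ∈ a.1.2 ∧ (false, Fin.castLE (hK _) m.2) ∈ a.2)}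
  have hKK : ∀ x, Recog (KK x) := by
    intro x
    match x with
    | .inl i => exact hL1 i
    | .inr (.inl r) => exact hL2 _ _ _
    | .inr (.inr m) => exact recog_exists _
  have : Finite (treeVocab B).Sym := finiteTSym
  obtain ⟨Q, hQ, α, F, hF⟩ := Recog.family hKK
  refine ⟨Q, hQ, α, fun i => F (.inl i), fun R cs o => F (.inr (.inl ⟨R, cs, o⟩)),
    fun m => F (.inr (.inr m)), ?_, ?_, ?_⟩
  · intro t i z w hw
    rw [← hF]
    exact h1 i t z z w hw
  · intro t u u' R o
    rw [← hF]
    let args : Fin ((treeVocab B).ar R) → (I.out (treeStr (under t))).U :=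
      fun a => if o a then u' else u
    refine h2 R (fun a => (args a).1) o t (tup I u) (tup I u') (fun m => (args m.1).2.1 m.2) ?_
    intro m
    have h3 : (if o m.1 then tup I u' else tup I u : Fin K → Option (List Bool)) =
        tup I (args m.1) := (apply_ite (tup I) _ _ _).symm
    rw [h3]
    exact tup_castLE I hK (args m.1) m.2
  · intro t m z
    rw [← hF]
    simp only [KK, Set.mem_ofPred_eq, annT, Tr.lab?_mapPos, Option.map_eq_some_iff]
    constructor
    · rintro ⟨p, _, ⟨a, ha, rfl⟩, hm1, hm2⟩
      exact ⟨p, a, ha, hm1, by simpa [mk] using hm2⟩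
    · rintro ⟨p, a, ha, hm, hz⟩
      exact ⟨p, _, ⟨a, ha, rfl⟩, hm, by simpa [mk] using hz⟩

/-! ## Splitting -/

/-- The part of a partial tuple in the context. -/
def spC {K : ℕ} (π : List Bool) (z : Fin K → Option (List Bool)) : Fin K → Option (List Bool) :=
  open Classical in fun l => (z l).bind fun p => if π <+: p then none else some p

/-- The part of a partial tuple in the tree. -/
def spT {K : ℕ} (π : List Bool) (z : Fin K → Option (List Bool)) : Fin K → Option (List Bool) :=
  open Classical in fun l => (z l).bind fun p => if π <+: p then some (p.drop π.length) else none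

theorem merge_sp {K : ℕ} (π : List Bool) (z : Fin K → Option (List Bool)) :
    merge π (spC π z) (spT π z) = z := by
  classical
  funext l
  unfold merge spC spT
  cases hz : z l with
  | none => simp
  | some p =>
    by_cases h : π <+: p
    · obtain ⟨q, rfl⟩ := h
      simp
    · simp [h]

theorem sp_disj {K : ℕ} (π : List Bool) (z : Fin K → Option (List Bool)) (l : Fin K) :
    spC π z l = none ∨ spT π z l = none := by
  classical
  unfold spC spT
  cases hz : z l with
  | none => simp
  | some p =>
    by_cases h : π <+: p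
    · left; simp [h]
    · right; simp [h]

theorem sp_cover {K : ℕ} (π : List Bool) (z : Fin K → Option (List Bool)) (l : Fin K) :
    z l = none ↔ spC π z l = none ∧ spT π z l = none := by
  classical
  unfold spC spT
  cases hz : z l with
  | none => simp
  | some p =>
    by_cases h : π <+: p
    · simp [h]
    · simp [h]

theorem spC_merge {M : Type} {K : ℕ} {C : Ctx M} {x y : Fin K → Option (List Bool)}
    (hx : VC C x) : spC C.pos (merge C.pos x y) = x := by
  classical
  funext l
  unfold spC merge
  cases hxl : x l with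
  | some p => simp [not_pos_of_lab (hx l p hxl)]
  | none =>
    cases hyl : y l with
    | none => simp
    | some q => simp

theorem spT_merge {M : Type} {K : ℕ} {C : Ctx M} {x y : Fin K → Option (List Bool)}
    (hx : VC C x) (hd : ∀ l, x l = none ∨ y l = none) :
    spT C.pos (merge C.pos x y) = y := by
  classical
  funext l
  unfold spT merge
  cases hxl : x l with
  | some p =>
    rcases hd l with h | h
    · rw [h] at hxl; simp at hxl
    · simp [not_pos_of_lab (hx l p hxl), h]
  | none =>
    cases hyl : y l with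
    | none => simp
    | some q => simp

theorem lab_of_not_pos {M : Type} {C : Ctx M} {s : Tr M} {p : List Bool}
    (h : ¬ C.pos <+: p) (hp : ((C.fill s).lab? p).isSome) : (C.lab? p).isSome := by
  rwa [Ctx.lab?_fill_of_not_prefix C s p h] at hp

theorem vc_spC {M : Type} {K : ℕ} {C : Ctx M} {s : Tr M} {z : Fin K → Option (List Bool)}
    (hz : VT (C.fill s) z) : VC C (spC C.pos z) := by
  classical
  intro l p hl
  unfold spC at hl
  cases hzl : z l with
  | none => simp [hzl] at hl
  | some q =>
    rw [hzl] at hl
    by_cases h : C.pos <+: q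
    · simp [h] at hl
    · simp [h] at hl
      subst hl
      exact lab_of_not_pos h (hz l _ hzl)

theorem vt_spT {M : Type} {K : ℕ} {C : Ctx M} {s : Tr M} {z : Fin K → Option (List Bool)}
    (hz : VT (C.fill s) z) : VT s (spT C.pos z) := by
  classical
  intro l p hl
  unfold spT at hl
  cases hzl : z l with
  | none => simp [hzl] at hl
  | some q =>
    rw [hzl] at hl
    by_cases h : C.pos <+: q
    · simp [h] at hl
      obtain ⟨r, rfl⟩ := h
      simp at hl
      subst hl
      have := hz l _ hzl
      rwa [Ctx.lab?_fill_of_prefix] at this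
    · simp [h] at hl

theorem vt_merge {M : Type} {K : ℕ} {C : Ctx M} {s : Tr M} {x y : Fin K → Option (List Bool)}
    (hx : VC C x) (hy : VT s y) : VT (C.fill s) (merge C.pos x y) := by
  intro l p hl
  unfold merge at hl
  cases hxl : x l with
  | some q =>
    simp [hxl] at hl
    subst hl
    have h := hx l _ hxl
    rwa [Ctx.lab?_fill_of_not_prefix C s _ (not_pos_of_lab h)]
  | none =>
    simp [hxl] at hl
    obtain ⟨q, hq, rfl⟩ := hl
    rw [Ctx.lab?_fill_of_prefix]
    exact hy l q hq

theorem vt_tup {K : ℕ} {M : Type} {t : Tr (A × M)} (u : (I.out (treeStr (under t))).U) :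
    VT t (tup I u : Fin K → Option (List Bool)) := by
  intro l p hl
  unfold tup at hl
  split_ifs at hl with h
  simp at hl
  subst hl
  have := (u.2.1 ⟨l.1, h⟩).2
  rwa [lab_under, Option.isSome_map] at this

end Alg

/-! ## The product tree -/

section Build

variable {A B V : Type}

/-- Types of pairs of first coordinates. -/
abbrev ST (I : Interp (treeVocab A) (treeVocab B)) (K : ℕ) (Q : Type) : Type :=
  I.Comp × I.Comp × Set (Fin K) × Prop × (Q → Q)

/-- Types of pairs of second coordinates. -/
abbrev TT (K : ℕ) (Q : Type) : Type := Set (Fin K) × Prop × Q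

/-- Relative position computed from the truth values of desc(u,v), desc(v,u), doc(u,v),
doc(v,u). -/
noncomputable def mkRel (D D' O O' : Prop) : Rel :=
  open Classical in
  if D ∧ D' then .eq else if D then .anc (decide O) else if D' then .des (decide O')
    else if O then .lt else .gt

theorem mkRel_eq (p q : List Bool) :
    mkRel (p <+: q) (q <+: p) (docLt p q) (docLt q p) = rel p q := by
  classical
  have h1 := prefix_iff_rel p q
  have h2 := prefix_iff_rel q p
  have h3 := rel_lt_docLt p q
  have h4 := rel_lt_docLt q p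
  rw [rel_inv p q] at h2 h4
  unfold mkRel
  cases h : rel p q with
  | eq => rw [h] at h1 h2; simp [Rel.inv] at h1 h2; simp [h1, h2]
  | anc b =>
    rw [h] at h1 h2 h3
    simp [Rel.inv] at h1 h2 h3
    simp only [h1, h2, and_false, if_false, if_true]
    rw [Rel.anc.injEq]
    cases b <;> simp_all
  | des b =>
    rw [h] at h1 h2 h4
    simp [Rel.inv] at h1 h2 h4
    simp only [h1, h2, false_and, if_false, if_true]
    rw [Rel.des.injEq]
    cases b <;> simp_all
  | lt => rw [h] at h1 h2 h3; simp [Rel.inv] at h1 h2 h3; simp [h1, h2, h3]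
  | gt => rw [h] at h1 h2 h3; simp [Rel.inv] at h1 h2 h3; simp [h1, h2, h3]

variable (I : Interp (treeVocab A) (treeVocab B)) (c : V → I.Comp)

/-- Orientation `(u, u')`. -/
def oF {n : ℕ} : Fin n → Bool := fun a => decide (a.1 = 1)

/-- Orientation `(u', u)`. -/
def oB {n : ℕ} : Fin n → Bool := fun a => decide (a.1 = 0)

/-- First coordinates types. -/
def tX {K : ℕ} {Q : Type} (α : Alg ((A × Set (VM I c)) × Set (Bool × Fin K)) Q)
    (C : Ctx (A × Set (VM I c))) (x x' : I.Comp × (Fin K → Option (List Bool))) : ST I K Q :=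
  (x.1, x'.1, {l | x.2 l ≠ none}, VC C x.2, α.ctx (annC C x.2 x'.2))

/-- Second coordinates types. -/
def tY {K : ℕ} {Q : Type} (α : Alg ((A × Set (VM I c)) × Set (Bool × Fin K)) Q)
    (s : Tr (A × Set (VM I c))) (y y' : Fin K → Option (List Bool)) : TT K Q :=
  ({l | y l ≠ none}, VT s y, α.eval (annT s y y'))

/-- The tables. -/
noncomputable def tabl {K : ℕ} {Q : Type} [Nonempty B] (Fd : I.Comp → Set Q)
    (Fr : (R : (treeVocab B).Sym) → (Fin ((treeVocab B).ar R) → I.Comp) →
        (Fin ((treeVocab B).ar R) → Bool) → Set Q)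
    (Fm : VM I c → Set Q) : Tab (ST I K Q) (TT K Q) (B × Set V) where
  dom σ τ := σ.2.2.2.1 ∧ τ.2.1 ∧
    (∀ l : Fin K, (l.1 < I.dim σ.1 → (l ∈ σ.2.2.1 ↔ l ∉ τ.1)) ∧
      (¬ l.1 < I.dim σ.1 → l ∉ σ.2.2.1 ∧ l ∉ τ.1)) ∧ σ.2.2.2.2 τ.2.2 ∈ Fd σ.1
  lab σ τ := (Classical.epsilon fun b => σ.2.2.2.2 τ.2.2 ∈ Fr (TSym.lab b) (fun _ => σ.1)
      (fun _ => false),
    {v | σ.1 = c v ∧ ∀ l : Fin (I.dim (c v)), σ.2.2.2.2 τ.2.2 ∈ Fm ⟨v, l⟩})
  rel σ τ := mkRel
    (σ.2.2.2.2 τ.2.2 ∈ Fr TSym.desc (fun a => if oF a then σ.2.1 else σ.1) oF)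
    (σ.2.2.2.2 τ.2.2 ∈ Fr TSym.desc (fun a => if oB a then σ.2.1 else σ.1) oB)
    (σ.2.2.2.2 τ.2.2 ∈ Fr TSym.doc (fun a => if oF a then σ.2.1 else σ.1) oF)
    (σ.2.2.2.2 τ.2.2 ∈ Fr TSym.doc (fun a => if oB a then σ.2.1 else σ.1) oB)

/-- First coordinate of a node. -/
def xOf {K : ℕ} {t : Tr A} (π : List Bool) (u : (I.out (treeStr t)).U) :
    I.Comp × (Fin K → Option (List Bool)) := (u.1, spC π (tup I u))

/-- Second coordinate of a node. -/
def yOf {K : ℕ} {t : Tr A} (π : List Bool) (u : (I.out (treeStr t)).U) :
    Fin K → Option (List Bool) := spT π (tup I u)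

theorem state_eq {K : ℕ} {Q : Type} (α : Alg ((A × Set (VM I c)) × Set (Bool × Fin K)) Q)
    (C : Ctx (A × Set (VM I c))) (s : Tr (A × Set (VM I c)))
    (u u' : (I.out (treeStr (under (C.fill s)))).U) :
    (tX I c α C (xOf I C.pos u) (xOf I C.pos u')).2.2.2.2
      (tY I c α s (yOf I C.pos u) (yOf I C.pos u')).2.2 =
      α.eval (annT (C.fill s) (tup I u) (tup I u')) := by
  simp only [tX, tY, xOf, yOf]
  rw [← Alg.eval_fill, fill_ann C s (vc_spC (vt_tup I u)) (vc_spC (vt_tup I u'))
    (sp_disj _ _) (sp_disj _ _), merge_sp, merge_sp]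

/-- `u` carries the mark `v`. -/
def Mkd (ts : Tr (A × Set (VM I c))) {t : Tr A} (v : V) (x : (I.out (treeStr t)).U) : Prop :=
  ∃ h : x.1 = c v, ∀ l : Fin (I.dim (c v)),
    ∃ a, ts.lab? (x.2.1 (Fin.cast (by rw [h]) l)).1 = some a ∧ (⟨v, l⟩ : VM I c) ∈ a.2

theorem build [Finite B] [Finite V] [Nonempty B] (hI : ∀ t : Tr A, ∃ t' : Tr B, (I.out (treeStr t)).Iso (treeStr t')) :
    ∃ (S T X Y : Type) (_ : Finite S) (_ : Finite T) (tab : Tab S T (B × Set V))
      (τX : Ctx (A × Set (VM I c)) → X → X → S)
      (τY : Tr (A × Set (VM I c)) → Y → Y → T),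
      ∀ (C : Ctx (A × Set (VM I c))) (s : Tr (A × Set (VM I c))),
        ∃ (W : PTree tab (τX C) (τY s)) (t' : Tr B)
          (e : (I.out (treeStr (under (C.fill s)))).U ≃ (treeStr t').U),
          (∀ (R : (treeVocab B).Sym) (a : Fin ((treeVocab B).ar R) →
              (I.out (treeStr (under (C.fill s)))).U),
            (I.out (treeStr (under (C.fill s)))).rel R a ↔ (treeStr t').rel R (fun j => e (a j))) ∧
          ∀ p : List Bool, W.lab p = none ∧ t'.lab? p = none ∨
            ∃ (b : B) (x : (I.out (treeStr (under (C.fill s)))).U),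
              t'.lab? p = some b ∧ (e x).1 = p ∧
              W.lab p = some (b, {v | Mkd I c (C.fill s) v x}) := by
  have hfin := I.fin
  obtain ⟨K, hK⟩ : ∃ K, ∀ i, I.dim i ≤ K := by
    obtain ⟨K, hK⟩ := (Set.finite_range I.dim).bddAbove
    exact ⟨K, fun i => hK ⟨i, rfl⟩⟩
  obtain ⟨Q, hQ, α, Fd, Fr, Fm, hd, hr, hm⟩ := exists_alg I c hK
  refine ⟨ST I K Q, TT K Q, I.Comp × (Fin K → Option (List Bool)), Fin K → Option (List Bool),
    inferInstance, inferInstance, tabl I c Fd Fr Fm, tX I c α, tY I c α, ?_⟩
  intro C s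
  obtain ⟨t', e, he⟩ := hI (under (C.fill s))
  classical
  let U := (I.out (treeStr (under (C.fill s)))).U
  have hroot : (t'.lab? []).isSome := Tr.lab?_nil_isSome t'
  let nd : List Bool → U := fun p =>
    if h : (t'.lab? p).isSome then e.symm ⟨p, h⟩ else e.symm ⟨[], hroot⟩
  have hnd : ∀ p, (t'.lab? p).isSome → (e (nd p)).1 = p := by
    intro p hp
    have : nd p = e.symm ⟨p, hp⟩ := dif_pos hp
    rw [this]
    exact congrArg Subtype.val (e.apply_symm_apply _)
  have hnd2 : ∀ u : U, nd (e u).1 = u := by
    intro u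
    have : nd (e u).1 = e.symm ⟨(e u).1, (e u).2⟩ := dif_pos (e u).2
    rw [this]
    exact e.symm_apply_apply u
  obtain ⟨N, hN⟩ := t'.lab?_bounded
  -- truth values
  have hrel : ∀ (u u' : U) (R : (treeVocab B).Sym) (o : Fin ((treeVocab B).ar R) → Bool),
      ((tX I c α C (xOf I C.pos u) (xOf I C.pos u')).2.2.2.2
        (tY I c α s (yOf I C.pos u) (yOf I C.pos u')).2.2 ∈
          Fr R (fun a => if o a then u'.1 else u.1) o) ↔
      (treeStr t').rel R (fun a => e (if o a then u' else u)) := by
    intro u u' R o
    rw [state_eq, ← he R (fun a => if o a then u' else u), ← hr (C.fill s) u u' R o]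
    have : (fun a => (if o a then u' else u).1) = fun a => if o a then u'.1 else u.1 := by
      funext a
      split_ifs <;> rfl
    rw [this]
  have hcell : ∀ (x : I.Comp × (Fin K → Option (List Bool))) (y : Fin K → Option (List Bool)),
      (tabl I c Fd Fr Fm).dom (tX I c α C x x) (tY I c α s y y) ↔
        ∃ u : U, xOf I C.pos u = x ∧ yOf I C.pos u = y := by
    intro x y
    constructor
    · rintro ⟨h1, h2, h3, h4⟩
      simp only [tX, tY, Set.mem_ofPred_eq, ne_eq] at h1 h2 h3 h4
      have hdis : ∀ l, x.2 l = none ∨ y l = none := by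
        intro l
        by_cases hl : l.1 < I.dim x.1
        · have := (h3 l).1 hl
          tauto
        · have := (h3 l).2 hl
          left; tauto
      have hVT : VT (C.fill s) (merge C.pos x.2 y) := vt_merge h1 h2
      have hsome : ∀ l : Fin (I.dim x.1), ((merge C.pos x.2 y) (Fin.castLE (hK _) l)).isSome := by
        intro l
        have h5 := (h3 (Fin.castLE (hK _) l)).1 l.2
        unfold merge
        cases hx : x.2 (Fin.castLE (hK _) l) with
        | some p => simp
        | none =>
          cases hy : y (Fin.castLE (hK _) l) with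
          | some p => simp
          | none => exfalso; rw [hx, hy] at h5; simp at h5
      let w : Fin (I.dim x.1) → (under (C.fill s)).Node := fun l =>
        ⟨((merge C.pos x.2 y) (Fin.castLE (hK _) l)).get (hsome l), by
          rw [lab_under, Option.isSome_map]
          exact hVT _ _ (Option.some_get _).symm⟩
      have hw : ∀ l, (merge C.pos x.2 y) (Fin.castLE (hK _) l) = some (w l).1 :=
        fun l => (Option.some_get _).symm
      rw [← Alg.eval_fill, fill_ann C s h1 h1 hdis hdis, hd (C.fill s) x.1 _ w hw] at h4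
      let u : U := ⟨x.1, w, h4⟩
      have hu : (tup I u : Fin K → Option (List Bool)) = merge C.pos x.2 y := by
        funext l
        unfold tup
        by_cases hl : l.1 < I.dim x.1
        · rw [dif_pos (show l.1 < I.dim u.1 from hl)]
          exact (hw ⟨l.1, hl⟩).symm
        · rw [dif_neg (show ¬ l.1 < I.dim u.1 from hl)]
          have h5 := (h3 l).2 hl
          unfold merge
          have hx : x.2 l = none := by tauto
          have hy : y l = none := by tauto
          rw [hx, hy]; rfl
      refine ⟨u, ?_, ?_⟩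
      · unfold xOf
        rw [hu, spC_merge h1]
      · unfold yOf
        rw [hu, spT_merge h1 hdis]
    · rintro ⟨u, rfl, rfl⟩
      have hst := state_eq I c α C s u u
      refine ⟨vc_spC (vt_tup I u), vt_spT (vt_tup I u), ?_, ?_⟩
      · intro l
        have h1 := sp_cover C.pos (tup I u) l
        have h2 := sp_disj C.pos (tup I u) l
        simp only [tX, tY, xOf, yOf, Set.mem_ofPred_eq, ne_eq]
        constructor
        · intro hl
          have h3 : tup I u l ≠ none := by
            unfold tup
            rw [dif_pos hl]; simp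
          tauto
        · intro hl
          have h3 : tup I u l = none := by
            unfold tup
            rw [dif_neg hl]
          tauto
      · rw [hst]
        show α.eval (annT (C.fill s) (tup I u) (tup I u)) ∈ Fd u.1
        rw [hd (C.fill s) u.1 (tup I u) u.2.1 (fun l => tup_castLE I hK u l)]
        exact u.2.2
  let W : PTree (tabl I c Fd Fr Fm) (tX I c α C) (tY I c α s) :=
    { lab := fun p => (t'.lab? p).map fun b => (b, {v | Mkd I c (C.fill s) v (nd p)})
      bound := N
      lab_bound := fun p hp => hN p (by simpa using hp)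
      closed := fun p b hp => by
        simp only [Option.isSome_map] at hp ⊢
        exact Tr.lab?_closed t' p b hp
      cx := fun p => xOf I C.pos (nd p)
      cy := fun p => yOf I C.pos (nd p)
      dom_iff := by
        intro x y
        rw [hcell x y]
        constructor
        · rintro ⟨u, rfl, rfl⟩
          refine ⟨(e u).1, ?_, ?_, ?_⟩
          · rw [Option.isSome_map]; exact (e u).2
          · rw [hnd2 u]
          · rw [hnd2 u]
        · rintro ⟨p, -, rfl, rfl⟩
          exact ⟨nd p, rfl, rfl⟩
      lab_eq := by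
        intro p hp
        rw [Option.isSome_map] at hp
        obtain ⟨b, hb⟩ := Option.isSome_iff_exists.1 hp
        rw [hb]
        simp only [Option.map_some, Option.some.injEq]
        have hlabb : ∀ b' : B, ((tX I c α C (xOf I C.pos (nd p)) (xOf I C.pos (nd p))).2.2.2.2
            (tY I c α s (yOf I C.pos (nd p)) (yOf I C.pos (nd p))).2.2 ∈
              Fr (TSym.lab b') (fun _ => (nd p).1) (fun _ => false)) ↔ b' = b := by
          intro b'
          have := hrel (nd p) (nd p) (TSym.lab b') (fun _ => false)
          simp only [Bool.false_eq_true, if_false] at this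
          rw [this]
          show t'.lab? (e (nd p)).1 = some b' ↔ b' = b
          rw [hnd p hp, hb]
          simp [eq_comm]
        refine Prod.ext ?_ ?_
        · show b = Classical.epsilon _
          have hex : ∃ b', (fun b' => (tX I c α C (xOf I C.pos (nd p)) (xOf I C.pos (nd p))).2.2.2.2
            (tY I c α s (yOf I C.pos (nd p)) (yOf I C.pos (nd p))).2.2 ∈
              Fr (TSym.lab b') (fun _ => (nd p).1) (fun _ => false)) b' := ⟨b, (hlabb b).2 rfl⟩
          have := Classical.epsilon_spec hex
          exact ((hlabb _).1 this).symm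
        · ext v
          show Mkd I c (C.fill s) v (nd p) ↔ _
          simp only [tabl, Set.mem_ofPred_eq]
          constructor
          · rintro ⟨h, hl⟩
            refine ⟨h, fun l => ?_⟩
            rw [state_eq, hm]
            obtain ⟨a, ha, hal⟩ := hl l
            refine ⟨_, a, ha, hal, ?_⟩
            have := tup_castLE I hK (nd p) (Fin.cast (by rw [h]) l)
            exact this
          · rintro ⟨h, hl⟩
            have h0 : (nd p).1 = c v := h
            refine ⟨h0, fun l => ?_⟩
            have h1 := hl l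
            rw [state_eq, hm] at h1
            obtain ⟨q, a, ha, hal, hq⟩ := h1
            have h2 := tup_castLE I hK (nd p) (Fin.cast (congrArg I.dim h0).symm l)
            have h3 : some q = some ((nd p).2.1 (Fin.cast (congrArg I.dim h0).symm l)).1 :=
              hq.symm.trans h2
            rw [Option.some.injEq] at h3
            exact ⟨a, by rw [← h3]; exact ha, hal⟩
      rel_eq := by
        intro p q hp hq
        rw [Option.isSome_map] at hp hq
        have h1 := hrel (nd p) (nd q) TSym.desc oF
        have h2 := hrel (nd p) (nd q) TSym.desc oB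
        have h3 := hrel (nd p) (nd q) TSym.doc oF
        have h4 := hrel (nd p) (nd q) TSym.doc oB
        have h1' : (treeStr t').rel TSym.desc (fun a => e (if oF a then nd q else nd p)) ↔
            p <+: q := by
          show (e (nd p)).1 <+: (e (nd q)).1 ↔ _
          rw [hnd p hp, hnd q hq]
        have h2' : (treeStr t').rel TSym.desc (fun a => e (if oB a then nd q else nd p)) ↔
            q <+: p := by
          show (e (nd q)).1 <+: (e (nd p)).1 ↔ _
          rw [hnd p hp, hnd q hq]
        have h3' : (treeStr t').rel TSym.doc (fun a => e (if oF a then nd q else nd p)) ↔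
            docLt p q := by
          show docLt (e (nd p)).1 (e (nd q)).1 ↔ _
          rw [hnd p hp, hnd q hq]
        have h4' : (treeStr t').rel TSym.doc (fun a => e (if oB a then nd q else nd p)) ↔
            docLt q p := by
          show docLt (e (nd q)).1 (e (nd p)).1 ↔ _
          rw [hnd p hp, hnd q hq]
        rw [← mkRel_eq p q, ← propext (h1.trans h1'), ← propext (h2.trans h2'),
          ← propext (h3.trans h3'), ← propext (h4.trans h4')]
        rfl }
  refine ⟨W, t', e, he, ?_⟩
  intro p
  cases hp : t'.lab? p with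
  | none =>
    left
    exact ⟨by show (t'.lab? p).map _ = none; rw [hp]; rfl, rfl⟩
  | some b =>
    right
    refine ⟨b, nd p, rfl, hnd p (by rw [hp]; rfl), ?_⟩
    show (t'.lab? p).map _ = _
    rw [hp]; rfl

end Build

end PA

theorem exists_ptree {A B V : Type} [Finite B] [Finite V] [Nonempty A]
    (I : Interp (treeVocab A) (treeVocab B))
    (hI : ∀ t : Tr A, ∃ t' : Tr B, (I.out (treeStr t)).Iso (treeStr t')) (c : V → I.Comp) :
    ∃ (S T X Y : Type) (_ : Finite S) (_ : Finite T) (tab : Tab S T (B × Set V))
      (τX : Ctx (A × Set ((v : V) × Fin (I.dim (c v)))) → X → X → S)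
      (τY : Tr (A × Set ((v : V) × Fin (I.dim (c v)))) → Y → Y → T),
      ∀ (C : Ctx (A × Set ((v : V) × Fin (I.dim (c v)))))
        (s : Tr (A × Set ((v : V) × Fin (I.dim (c v))))),
        ∃ (W : PTree tab (τX C) (τY s)) (t' : Tr B)
          (e : (I.out (treeStr (C.fill s).under)).U ≃ (treeStr t').U),
          (∀ (R : (treeVocab B).Sym) (a : Fin ((treeVocab B).ar R) →
              (I.out (treeStr (C.fill s).under)).U),
            (I.out (treeStr (C.fill s).under)).rel R a ↔ (treeStr t').rel R (fun j => e (a j))) ∧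
          ∀ p : List Bool, W.lab p = none ∧ t'.lab? p = none ∨
            ∃ (b : B) (x : (I.out (treeStr (C.fill s).under)).U),
              t'.lab? p = some b ∧ (e x).1 = p ∧
              W.lab p = some (b, {v | ∃ h : x.1 = c v, ∀ l : Fin (I.dim (c v)),
                ∃ a, (C.fill s).lab? (x.2.1 (Fin.cast (by rw [h]) l)).1 = some a ∧
                  (⟨v, l⟩ : (v : V) × Fin (I.dim (c v))) ∈ a.2}) := by
  have hB : Nonempty B := by
    obtain ⟨a⟩ := ‹Nonempty A›
    obtain ⟨t', -⟩ := hI (.leaf a)
    cases t' with
    | leaf b => exact ⟨b⟩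
    | node b l r => exact ⟨b⟩
  exact PA.build I c hI

end Pool.Agent.TreeMSO
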