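import Pool.Agent.TreeMSO.Base

/-!
# Recognizable sets of trees are definable in monadic second-order logic
-/
set_option autoImplicit false
namespace Pool.Agent.TreeMSO

namespace Tw2

/-! ### Subtrees -/

/-- The subtree at a position. -/
def sub? {A : Type} : Tr A → List Bool → Option (Tr A)
  | t, [] => some t
  | .leaf _, _ :: _ => none
  | .node _ l _, false :: p => sub? l p
  | .node _ _ r, true :: p => sub? r p

/-- The label of the root. -/
def rootLab {A : Type} : Tr A → A
  | .leaf a => a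
  | .node a _ _ => a

theorem sub?_nil {A : Type} (t : Tr A) : sub? t [] = some t := by
  cases t <;> rfl

theorem sub?_append {A : Type} (t : Tr A) (p q : List Bool) :
    sub? t (p ++ q) = (sub? t p).bind (fun s => sub? s q) := by
  induction p generalizing t with
  | nil => simp [sub?_nil]
  | cons b p ih =>
    cases t with
    | leaf a => rfl
    | node a l r =>
      cases b
      · exact ih l
      · exact ih r

theorem lab?_eq {A : Type} (t : Tr A) (p : List Bool) : t.lab? p = (sub? t p).map rootLab := by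
  induction p generalizing t with
  | nil => cases t <;> rfl
  | cons b p ih =>
    cases t with
    | leaf a => rfl
    | node a l r =>
      cases b
      · exact ih l
      · exact ih r

theorem lab?_mapPos' {A B : Type} (g : List Bool → A → B) (t : Tr A) (p : List Bool) :
    (t.mapPos g).lab? p = (t.lab? p).map (g p) := by
  induction p generalizing t g with
  | nil => cases t <;> rfl
  | cons b p ih =>
    cases t with
    | leaf a => rfl
    | node a l r =>
      cases b
      · exact ih (fun p => g (false :: p)) l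
      · exact ih (fun p => g (true :: p)) r

theorem isSome_lab?_iff {A : Type} (t : Tr A) (p : List Bool) :
    (t.lab? p).isSome ↔ ∃ s, sub? t p = some s := by
  rw [lab?_eq, Option.isSome_map, Option.isSome_iff_exists]

theorem closed_prefix {A : Type} (t : Tr A) (p q : List Bool) (h : (t.lab? (p ++ q)).isSome) :
    (t.lab? p).isSome := by
  rw [isSome_lab?_iff] at h ⊢
  obtain ⟨s, hs⟩ := h
  rw [sub?_append] at hs
  cases hp : sub? t p with
  | none => rw [hp] at hs; simp at hs
  | some s' => exact ⟨s', rfl⟩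

theorem docLt_append_iff (p q : List Bool) : docLt (p ++ q) p ↔ ∃ r, q = false :: r := by
  induction p with
  | nil =>
    cases q with
    | nil => simp [docLt]
    | cons b q => cases b <;> simp [docLt]
  | cons b p ih => simp [docLt, ih]

theorem docLt_append_iff' (p q : List Bool) : docLt p (p ++ q) ↔ ∃ r, q = true :: r := by
  induction p with
  | nil =>
    cases q with
    | nil => simp [docLt]
    | cons b q => cases b <;> simp [docLt]
  | cons b p ih => simp [docLt, ih]

/-! ### Definable predicates -/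

/-- A predicate of a tree, a valuation of the free variables, bound first-order variables and set
variables which is defined by a formula. -/
def Dfn {A V : Type} (n m : ℕ)
    (P : (t : Tr A) → (V → t.Node) → (Fin n → t.Node) → (Fin m → Set t.Node) → Prop) : Prop :=
  ∃ φ : Fm (treeVocab A) V n m, ∀ (t : Tr A) (v : V → t.Node) (w : Fin n → t.Node)
    (S : Fin m → Set t.Node), φ.Sat (treeStr t) v w S ↔ P t v w S

section
variable {A V : Type} {n m : ℕ}
  {P P' : (t : Tr A) → (V → t.Node) → (Fin n → t.Node) → (Fin m → Set t.Node) → Prop}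

theorem Dfn.congr (h : Dfn n m P) (h' : ∀ t v w S, P' t v w S ↔ P t v w S) : Dfn n m P' := by
  obtain ⟨φ, hφ⟩ := h
  exact ⟨φ, fun t v w S => (hφ t v w S).trans (h' t v w S).symm⟩

theorem Dfn.not (h : Dfn n m P) : Dfn n m (fun t v w S => ¬ P t v w S) := by
  obtain ⟨φ, hφ⟩ := h
  exact ⟨.not φ, fun t v w S => not_congr (hφ t v w S)⟩

theorem Dfn.and (h : Dfn n m P) (h' : Dfn n m P') :
    Dfn n m (fun t v w S => P t v w S ∧ P' t v w S) := by
  obtain ⟨φ, hφ⟩ := h
  obtain ⟨φ', hφ'⟩ := h'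
  exact ⟨.and φ φ', fun t v w S => and_congr (hφ t v w S) (hφ' t v w S)⟩

theorem Dfn.or (h : Dfn n m P) (h' : Dfn n m P') :
    Dfn n m (fun t v w S => P t v w S ∨ P' t v w S) :=
  (h.not.and h'.not).not.congr fun t v w S => by tauto

theorem Dfn.imp (h : Dfn n m P) (h' : Dfn n m P') :
    Dfn n m (fun t v w S => P t v w S → P' t v w S) :=
  (h.not.or h').congr fun t v w S => by tauto

theorem Dfn.iff (h : Dfn n m P) (h' : Dfn n m P') :
    Dfn n m (fun t v w S => (P t v w S ↔ P' t v w S)) :=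
  ((h.imp h').and (h'.imp h)).congr fun t v w S => by tauto

theorem Dfn.exE {P : (t : Tr A) → (V → t.Node) → (Fin (n + 1) → t.Node) →
      (Fin m → Set t.Node) → Prop} (h : Dfn (n + 1) m P) :
    Dfn n m (fun t v w S => ∃ u : t.Node, P t v (Fin.snoc w u) S) := by
  obtain ⟨φ, hφ⟩ := h
  exact ⟨.exE φ, fun t v w S => exists_congr fun u => hφ t v _ S⟩

theorem Dfn.allE {P : (t : Tr A) → (V → t.Node) → (Fin (n + 1) → t.Node) →
      (Fin m → Set t.Node) → Prop} (h : Dfn (n + 1) m P) :
    Dfn n m (fun t v w S => ∀ u : t.Node, P t v (Fin.snoc w u) S) :=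
  h.not.exE.not.congr fun t v w S => by simp

theorem Dfn.exS {P : (t : Tr A) → (V → t.Node) → (Fin n → t.Node) →
      (Fin (m + 1) → Set t.Node) → Prop} (h : Dfn n (m + 1) P) :
    Dfn n m (fun t v w S => ∃ X : Set t.Node, P t v w (Fin.snoc S X)) := by
  obtain ⟨φ, hφ⟩ := h
  exact ⟨.exS φ, fun t v w S => exists_congr fun u => hφ t v w _⟩

theorem Dfn.exSs {k : ℕ} {P : (t : Tr A) → (V → t.Node) → (Fin n → t.Node) →
      (Fin k → Set t.Node) → Prop} (h : Dfn n k P) :
    Dfn n 0 (fun t v w _ => ∃ X : Fin k → Set t.Node, P t v w X) := by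
  induction k with
  | zero =>
    refine h.congr fun t v w S => ?_
    constructor
    · rintro ⟨X, hX⟩
      rwa [Subsingleton.elim S X]
    · intro hX
      exact ⟨S, hX⟩
  | succ k ih =>
    refine (ih h.exS).congr fun t v w S => ?_
    constructor
    · rintro ⟨X, hX⟩
      exact ⟨Fin.init X, X (Fin.last k), by rwa [Fin.snoc_init_self]⟩
    · rintro ⟨X, Y, h⟩
      exact ⟨_, h⟩

/-- The root. -/
def root (t : Tr A) : t.Node := ⟨[], by cases t <;> rfl⟩

theorem Dfn.const (c : Prop) : Dfn n m (fun (t : Tr A) (_ : V → t.Node) _ _ => c) := by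
  have h : Dfn n m (fun (t : Tr A) (_ : V → t.Node) _ _ => True) :=
    ⟨.exE (.eq (Sum.inr (Fin.last n)) (Sum.inr (Fin.last n))), fun t v w S => by
      constructor
      · intro _; trivial
      · intro _; exact ⟨root t, rfl⟩⟩
  by_cases hc : c
  · exact h.congr fun t v w S => by simp [hc]
  · exact h.not.congr fun t v w S => by simp [hc]

theorem Dfn.all {ι : Type} [Finite ι]
    {P : ι → (t : Tr A) → (V → t.Node) → (Fin n → t.Node) → (Fin m → Set t.Node) → Prop}
    (h : ∀ i, Dfn n m (P i)) : Dfn n m (fun t v w S => ∀ i, P i t v w S) := by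
  have key : ∀ L : List ι, Dfn n m (fun t v w S => ∀ i ∈ L, P i t v w S) := by
    intro L
    induction L with
    | nil => exact (Dfn.const True).congr fun t v w S => by simp
    | cons i L ih => exact ((h i).and ih).congr fun t v w S => by simp
  have := Fintype.ofFinite ι
  exact (key Finset.univ.toList).congr fun t v w S => by simp

theorem Dfn.ex {ι : Type} [Finite ι]
    {P : ι → (t : Tr A) → (V → t.Node) → (Fin n → t.Node) → (Fin m → Set t.Node) → Prop}
    (h : ∀ i, Dfn n m (P i)) : Dfn n m (fun t v w S => ∃ i, P i t v w S) :=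
  (Dfn.all fun i => (h i).not).not.congr fun t v w S => by simp

theorem Dfn.eq (x y : V ⊕ Fin n) :
    Dfn n m (fun (t : Tr A) (v : V → t.Node) w _ => Sum.elim v w x = Sum.elim v w y) :=
  ⟨.eq x y, fun _ _ _ _ => Iff.rfl⟩

theorem Dfn.mem (x : V ⊕ Fin n) (j : Fin m) :
    Dfn n m (fun (t : Tr A) (v : V → t.Node) w S => Sum.elim v w x ∈ S j) :=
  ⟨.mem x j, fun _ _ _ _ => Iff.rfl⟩

theorem Dfn.lab (a : A) (x : V ⊕ Fin n) :
    Dfn n m (fun (t : Tr A) (v : V → t.Node) w _ => t.lab? (Sum.elim v w x).1 = some a) :=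
  ⟨.rel (τ := treeVocab A) (TSym.lab a) (fun _ : Fin 1 => x), fun _ _ _ _ => Iff.rfl⟩

theorem Dfn.desc (x y : V ⊕ Fin n) :
    Dfn n m (fun (t : Tr A) (v : V → t.Node) w _ =>
      (Sum.elim v w x).1 <+: (Sum.elim v w y).1) :=
  ⟨.rel (τ := treeVocab A) TSym.desc (![x, y] : Fin 2 → V ⊕ Fin n), fun _ _ _ _ => Iff.rfl⟩

theorem Dfn.doc (x y : V ⊕ Fin n) :
    Dfn n m (fun (t : Tr A) (v : V → t.Node) w _ =>
      docLt (Sum.elim v w x).1 (Sum.elim v w y).1) :=
  ⟨.rel (τ := treeVocab A) TSym.doc (![x, y] : Fin 2 → V ⊕ Fin n), fun _ _ _ _ => Iff.rfl⟩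

/-- The old variables in a scope with one more variable. -/
def lift (x : V ⊕ Fin n) : V ⊕ Fin (n + 1) := Sum.map id Fin.castSucc x

theorem elim_lift {U : Type} (v : V → U) (w : Fin n → U) (u : U) (x : V ⊕ Fin n) :
    Sum.elim v (Fin.snoc w u : Fin (n + 1) → U) (lift x) = Sum.elim v w x := by
  cases x with
  | inl i => rfl
  | inr i => simp [lift]

theorem elim_last {U : Type} (v : V → U) (w : Fin n → U) (u : U) :
    Sum.elim v (Fin.snoc w u : Fin (n + 1) → U) (Sum.inr (Fin.last n)) = u := by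
  simp

theorem left_iff (t : Tr A) (x y : t.Node) : y.1 = x.1 ++ [false] ↔
    (x.1 <+: y.1 ∧ docLt y.1 x.1) ∧ ∀ z : t.Node, (x.1 <+: z.1 ∧ docLt z.1 x.1) → y.1 <+: z.1 := by
  constructor
  · intro h
    refine ⟨⟨⟨[false], h.symm⟩, ?_⟩, ?_⟩
    · rw [h, docLt_append_iff]; exact ⟨[], rfl⟩
    · rintro z ⟨⟨q, hq⟩, hz⟩
      rw [← hq, docLt_append_iff] at hz
      obtain ⟨r, hr⟩ := hz
      rw [h, ← hq, hr]
      exact ⟨r, by simp⟩
  · rintro ⟨⟨⟨q, hq⟩, hy⟩, hmin⟩
    rw [← hq, docLt_append_iff] at hy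
    obtain ⟨r, hr⟩ := hy
    have hn : (t.lab? (x.1 ++ [false])).isSome := by
      apply closed_prefix t _ r
      have := y.2
      rw [← hq, hr] at this
      simpa using this
    have h1 := hmin ⟨x.1 ++ [false], hn⟩ ⟨⟨[false], rfl⟩, by
      change docLt (x.1 ++ [false]) x.1
      rw [docLt_append_iff]; exact ⟨[], rfl⟩⟩
    have h2 : y.1 <+: x.1 ++ [false] := h1
    refine h2.eq_of_length ?_
    have := h2.length_le
    rw [← hq, hr] at this ⊢
    simp only [List.length_append, List.length_cons, List.length_nil] at this ⊢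
    omega

theorem right_iff (t : Tr A) (x y : t.Node) : y.1 = x.1 ++ [true] ↔
    (x.1 <+: y.1 ∧ docLt x.1 y.1) ∧ ∀ z : t.Node, (x.1 <+: z.1 ∧ docLt x.1 z.1) → y.1 <+: z.1 := by
  constructor
  · intro h
    refine ⟨⟨⟨[true], h.symm⟩, ?_⟩, ?_⟩
    · rw [h, docLt_append_iff']; exact ⟨[], rfl⟩
    · rintro z ⟨⟨q, hq⟩, hz⟩
      rw [← hq, docLt_append_iff'] at hz
      obtain ⟨r, hr⟩ := hz
      rw [h, ← hq, hr]
      exact ⟨r, by simp⟩
  · rintro ⟨⟨⟨q, hq⟩, hy⟩, hmin⟩
    rw [← hq, docLt_append_iff'] at hy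
    obtain ⟨r, hr⟩ := hy
    have hn : (t.lab? (x.1 ++ [true])).isSome := by
      apply closed_prefix t _ r
      have := y.2
      rw [← hq, hr] at this
      simpa using this
    have h1 := hmin ⟨x.1 ++ [true], hn⟩ ⟨⟨[true], rfl⟩, by
      change docLt x.1 (x.1 ++ [true])
      rw [docLt_append_iff']; exact ⟨[], rfl⟩⟩
    have h2 : y.1 <+: x.1 ++ [true] := h1
    refine h2.eq_of_length ?_
    have := h2.length_le
    rw [← hq, hr] at this ⊢
    simp only [List.length_append, List.length_cons, List.length_nil] at this ⊢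
    omega

theorem Dfn.left (x y : V ⊕ Fin n) :
    Dfn n m (fun (t : Tr A) (v : V → t.Node) w _ =>
      (Sum.elim v w y).1 = (Sum.elim v w x).1 ++ [false]) := by
  refine (((Dfn.desc x y).and (Dfn.doc y x)).and
    (((Dfn.desc (lift x) (Sum.inr (Fin.last n))).and
      (Dfn.doc (Sum.inr (Fin.last n)) (lift x))).imp
      (Dfn.desc (lift y) (Sum.inr (Fin.last n)))).allE).congr fun t v w S => ?_
  rw [left_iff]
  simp only [elim_lift, elim_last]

theorem Dfn.right (x y : V ⊕ Fin n) :
    Dfn n m (fun (t : Tr A) (v : V → t.Node) w _ =>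
      (Sum.elim v w y).1 = (Sum.elim v w x).1 ++ [true]) := by
  refine (((Dfn.desc x y).and (Dfn.doc x y)).and
    (((Dfn.desc (lift x) (Sum.inr (Fin.last n))).and
      (Dfn.doc (lift x) (Sum.inr (Fin.last n)))).imp
      (Dfn.desc (lift y) (Sum.inr (Fin.last n)))).allE).congr fun t v w S => ?_
  rw [right_iff]
  simp only [elim_lift, elim_last]

theorem Dfn.labMarks [Finite V] (x : V ⊕ Fin n) (a : A) (M : Set V) :
    Dfn n m (fun (t : Tr A) (v : V → t.Node) w _ =>
      t.lab? (Sum.elim v w x).1 = some a ∧ {i | (v i).1 = (Sum.elim v w x).1} = M) := by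
  have h : Dfn n m (fun (t : Tr A) (v : V → t.Node) w _ =>
      ∀ i : V, ((v i = Sum.elim v w x) ↔ i ∈ M)) :=
    Dfn.all fun i => (Dfn.eq (Sum.inl i) x).iff (Dfn.const (i ∈ M))
  refine ((Dfn.lab a x).and h).congr fun t v w S => and_congr Iff.rfl ?_
  rw [Set.ext_iff]
  refine forall_congr' fun i => ?_
  refine iff_congr ?_ Iff.rfl
  exact Subtype.ext_iff.symm

end

/-! ### The run as a family of sets -/

section run
variable {A V Q : Type} {k : ℕ} (α : Alg (A × Set V) Q) (e : Q ≃ Fin k)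

/-- The local condition for the state `q` at the node `x`. -/
def RHS (t : Tr A) (v : V → t.Node) (X : Fin k → Set t.Node) (x : t.Node) (q : Fin k) : Prop :=
  ((¬ ∃ y : t.Node, y.1 = x.1 ++ [false]) ∧ ∃ a : A, ∃ M : Set V,
    (t.lab? x.1 = some a ∧ {i | (v i).1 = x.1} = M) ∧ e (α.leaf (a, M)) = q) ∨
  ∃ y z : t.Node, (y.1 = x.1 ++ [false] ∧ z.1 = x.1 ++ [true]) ∧ ∃ a : A, ∃ M : Set V,
    ∃ q1 q2 : Fin k, (t.lab? x.1 = some a ∧ {i | (v i).1 = x.1} = M) ∧ (y ∈ X q1 ∧ z ∈ X q2) ∧
      e (α.node (a, M) (e.symm q1) (e.symm q2)) = q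

theorem lab?_ann (t : Tr A) (v : V → List Bool) (p : List Bool) :
    (t.ann v).lab? p = (t.lab? p).map fun a => (a, {i | v i = p}) := lab?_mapPos' _ t p

theorem rhs_iff (t : Tr A) (v : V → t.Node) (X : Fin k → Set t.Node) (x : t.Node)
    (T' : Tr (A × Set V)) (hT : sub? (t.ann fun i => (v i).1) x.1 = some T')
    (hch : ∀ (b : Bool) (T'' : Tr (A × Set V)) (y : t.Node), y.1 = x.1 ++ [b] →
      sub? (t.ann fun i => (v i).1) y.1 = some T'' → sub? T' [b] = some T'' →
      ∀ q, y ∈ X q ↔ e (α.eval T'') = q) (q : Fin k) :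
    RHS α e t v X x q ↔ e (α.eval T') = q := by
  have hlab : (t.lab? x.1).map (fun a => (a, {i | (v i).1 = x.1})) = some (rootLab T') := by
    rw [← lab?_ann t (fun i => (v i).1) x.1, lab?_eq, hT]; rfl
  have hchild : ∀ b : Bool, sub? (t.ann fun i => (v i).1) (x.1 ++ [b]) = sub? T' [b] := by
    intro b; rw [sub?_append, hT]; rfl
  have hnode : ∀ (b : Bool) (T'' : Tr (A × Set V)), sub? T' [b] = some T'' →
      ∃ y : t.Node, y.1 = x.1 ++ [b] := by
    intro b T'' h
    refine ⟨⟨x.1 ++ [b], ?_⟩, rfl⟩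
    have h1 : ((t.ann fun i => (v i).1).lab? (x.1 ++ [b])).isSome := by
      rw [isSome_lab?_iff]; exact ⟨T'', by rw [hchild, h]⟩
    rw [lab?_ann, Option.isSome_map] at h1
    exact h1
  cases T' with
  | leaf c =>
    obtain ⟨a, ha, hc⟩ := Option.map_eq_some_iff.mp hlab
    have hno : ∀ b : Bool, ¬ ∃ y : t.Node, y.1 = x.1 ++ [b] := by
      rintro b ⟨y, hy⟩
      have h1 : ((t.ann fun i => (v i).1).lab? (x.1 ++ [b])).isSome := by
        rw [lab?_ann, Option.isSome_map, ← hy]; exact y.2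
      rw [isSome_lab?_iff] at h1
      obtain ⟨s, hs⟩ := h1
      rw [hchild] at hs
      exact absurd hs (by simp [sub?])
    have hc' : (a, {i | (v i).1 = x.1}) = c := hc
    constructor
    · rintro (⟨-, a', M, ⟨h1, h2⟩, h3⟩ | ⟨y, z, ⟨hy, -⟩, -⟩)
      · rw [ha] at h1
        obtain rfl := Option.some.inj h1
        rw [← h3, ← h2, hc']; rfl
      · exact absurd ⟨y, hy⟩ (hno false)
    · intro h
      exact Or.inl ⟨hno false, a, _, ⟨ha, rfl⟩, by rw [hc']; exact h⟩
  | node c l r =>
    obtain ⟨a, ha, hc⟩ := Option.map_eq_some_iff.mp hlab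
    have hc' : (a, {i | (v i).1 = x.1}) = c := hc
    have hl : sub? (Tr.node c l r) [false] = some l := sub?_nil l
    have hr : sub? (Tr.node c l r) [true] = some r := sub?_nil r
    obtain ⟨y, hy⟩ := hnode false l hl
    obtain ⟨z, hz⟩ := hnode true r hr
    have hyX := hch false l y hy (by rw [hy, hchild, hl]) hl
    have hzX := hch true r z hz (by rw [hz, hchild, hr]) hr
    constructor
    · rintro (⟨h, -⟩ | ⟨y', z', ⟨hy', hz'⟩, a', M, q1, q2, ⟨h1, h2⟩, ⟨hq1, hq2⟩, h3⟩)
      · exact absurd ⟨y, hy⟩ h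
      · obtain rfl : y' = y := Subtype.ext (hy'.trans hy.symm)
        obtain rfl : z' = z := Subtype.ext (hz'.trans hz.symm)
        rw [ha] at h1
        obtain rfl := Option.some.inj h1
        have e1 := (hyX q1).1 hq1
        have e2 := (hzX q2).1 hq2
        rw [← h3, ← e1, ← e2, ← h2, hc']
        simp [Alg.eval]
    · intro h
      refine Or.inr ⟨y, z, ⟨hy, hz⟩, a, _, e (α.eval l), e (α.eval r), ⟨ha, rfl⟩,
        ⟨(hyX _).2 rfl, (hzX _).2 rfl⟩, ?_⟩
      rw [hc', ← h]
      simp [Alg.eval]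

theorem run_unique (t : Tr A) (v : V → t.Node) (X : Fin k → Set t.Node)
    (hX : ∀ x q, x ∈ X q ↔ RHS α e t v X x q) (T' : Tr (A × Set V)) :
    ∀ x : t.Node, sub? (t.ann fun i => (v i).1) x.1 = some T' →
      ∀ q, x ∈ X q ↔ e (α.eval T') = q := by
  induction T' with
  | leaf c =>
    intro x hx q
    rw [hX, rhs_iff α e t v X x _ hx]
    intro b T'' y _ _ h
    exact absurd h (by simp [sub?])
  | node c l r ihl ihr =>
    intro x hx q
    rw [hX, rhs_iff α e t v X x _ hx]
    intro b T'' y hy hy' h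
    cases b
    · have h' : some l = some T'' := (sub?_nil l).symm.trans h
      obtain rfl := Option.some.inj h'
      exact ihl y hy'
    · have h' : some r = some T'' := (sub?_nil r).symm.trans h
      obtain rfl := Option.some.inj h'
      exact ihr y hy'

theorem run_exists (t : Tr A) (v : V → t.Node) :
    ∃ X : Fin k → Set t.Node, ∀ x q, x ∈ X q ↔ RHS α e t v X x q := by
  refine ⟨fun q => {x | ∃ T', sub? (t.ann fun i => (v i).1) x.1 = some T' ∧
    e (α.eval T') = q}, fun x q => ?_⟩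
  have hs : ((t.ann fun i => (v i).1).lab? x.1).isSome := by
    rw [lab?_ann, Option.isSome_map]; exact x.2
  rw [isSome_lab?_iff] at hs
  obtain ⟨T', hT'⟩ := hs
  rw [rhs_iff α e t v _ x T' hT']
  · constructor
    · rintro ⟨T'', h1, h2⟩
      rw [hT'] at h1
      obtain rfl := Option.some.inj h1
      exact h2
    · intro h
      exact ⟨T', hT', h⟩
  · intro b T'' y hy hy' _ q
    constructor
    · rintro ⟨T3, h1, h2⟩
      rw [hy'] at h1
      obtain rfl := Option.some.inj h1
      exact h2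
    · intro h
      exact ⟨T'', hy', h⟩

theorem accept_iff (F : Set Q) (t : Tr A) (v : V → t.Node) :
    (∃ X : Fin k → Set t.Node, (∀ x q, x ∈ X q ↔ RHS α e t v X x q) ∧
      ∃ r : t.Node, (∀ x : t.Node, r.1 <+: x.1) ∧ ∃ q : Fin k, e.symm q ∈ F ∧ r ∈ X q) ↔
    α.eval (t.ann fun i => (v i).1) ∈ F := by
  have hroot : ∀ r : t.Node, (∀ x : t.Node, r.1 <+: x.1) → r = root t := by
    intro r hr
    have := hr (root t)
    exact Subtype.ext (List.prefix_nil.mp this)
  constructor
  · rintro ⟨X, hX, r, hr, q, hq, hrq⟩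
    obtain rfl := hroot r hr
    have := (run_unique α e t v X hX _ (root t) (sub?_nil _) q).1 hrq
    rw [← this] at hq
    simpa using hq
  · intro h
    obtain ⟨X, hX⟩ := run_exists α e t v
    refine ⟨X, hX, root t, fun x => List.nil_prefix, e (α.eval (t.ann fun i => (v i).1)),
      by simpa using h, ?_⟩
    exact (run_unique α e t v X hX _ (root t) (sub?_nil _) _).2 rfl

end run

section
variable {A V : Type} [Finite A] [Finite V] {n m : ℕ}

theorem Dfn.rhs {Q : Type} (α : Alg (A × Set V) Q) (e : Q ≃ Fin m) (x : V ⊕ Fin n) (q : Fin m) :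
    Dfn n m (fun (t : Tr A) (v : V → t.Node) w S =>
      RHS α e t v S (Sum.elim v w x) q) := by
  unfold RHS
  refine Dfn.or (Dfn.and ?_ ?_) ?_
  · refine ((Dfn.left (lift x) (Sum.inr (Fin.last n))).exE.not).congr fun t v w S => ?_
    simp only [elim_lift, elim_last]
  · exact Dfn.ex fun a => Dfn.ex fun M => (Dfn.labMarks x a M).and (Dfn.const _)
  · have h : Dfn (n + 2) m (fun (t : Tr A) (v : V → t.Node) w S =>
        (((Sum.elim v w (lift (Sum.inr (Fin.last n)))).1 =
            (Sum.elim v w (lift (lift x))).1 ++ [false]) ∧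
          ((Sum.elim v w (Sum.inr (Fin.last (n + 1)))).1 =
            (Sum.elim v w (lift (lift x))).1 ++ [true])) ∧ ∃ a : A, ∃ M : Set V,
        ∃ q1 q2 : Fin m, (t.lab? (Sum.elim v w (lift (lift x))).1 = some a ∧
          {i | (v i).1 = (Sum.elim v w (lift (lift x))).1} = M) ∧
          ((Sum.elim v w (lift (Sum.inr (Fin.last n)))) ∈ S q1 ∧
            (Sum.elim v w (Sum.inr (Fin.last (n + 1)))) ∈ S q2) ∧
          e (α.node (a, M) (e.symm q1) (e.symm q2)) = q) :=
      ((Dfn.left _ _).and (Dfn.right _ _)).and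
        (Dfn.ex fun a => Dfn.ex fun M => Dfn.ex fun q1 => Dfn.ex fun q2 =>
          (Dfn.labMarks _ a M).and (((Dfn.mem _ q1).and (Dfn.mem _ q2)).and (Dfn.const _)))
    refine h.exE.exE.congr fun t v w S => ?_
    simp only [elim_lift, elim_last]

theorem main {Q : Type} [Finite Q] (α : Alg (A × Set V) Q) (F : Set Q) :
    Dfn 0 0 (fun (t : Tr A) (v : V → t.Node) _ _ => α.eval (t.ann fun i => (v i).1) ∈ F) := by
  obtain ⟨k, ⟨e⟩⟩ := Finite.exists_equiv_fin Q
  have h1 : Dfn 0 k (fun (t : Tr A) (v : V → t.Node) _ S =>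
      (∀ x q, x ∈ S q ↔ RHS α e t v S x q)) := by
    have h : Dfn 1 k (fun (t : Tr A) (v : V → t.Node) w S =>
        ∀ q, (Sum.elim v w (Sum.inr (Fin.last 0))) ∈ S q ↔
          RHS α e t v S (Sum.elim v w (Sum.inr (Fin.last 0))) q) :=
      Dfn.all fun q => (Dfn.mem _ q).iff (Dfn.rhs α e _ q)
    refine h.allE.congr fun t v w S => ?_
    simp only [elim_last]
  have h2 : Dfn 0 k (fun (t : Tr A) (v : V → t.Node) _ S =>
      ∃ r : t.Node, (∀ x : t.Node, r.1 <+: x.1) ∧ ∃ q : Fin k, e.symm q ∈ F ∧ r ∈ S q) := by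
    have h3 : Dfn 1 k (fun (t : Tr A) (v : V → t.Node) w S =>
        ∀ x : t.Node, (Sum.elim v w (Sum.inr (Fin.last 0))).1 <+: x.1) := by
      refine (Dfn.desc (lift (Sum.inr (Fin.last 0))) (Sum.inr (Fin.last 1))).allE.congr
        fun t v w S => ?_
      simp only [elim_lift, elim_last]
    have h : Dfn 1 k (fun (t : Tr A) (v : V → t.Node) w S =>
        (∀ x : t.Node, (Sum.elim v w (Sum.inr (Fin.last 0))).1 <+: x.1) ∧
        ∃ q : Fin k, e.symm q ∈ F ∧ (Sum.elim v w (Sum.inr (Fin.last 0))) ∈ S q) :=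
      h3.and (Dfn.ex fun q => (Dfn.const _).and (Dfn.mem _ q))
    refine h.exE.congr fun t v w S => ?_
    simp only [elim_last]
  refine (h1.and h2).exSs.congr fun t v w S => ?_
  exact (accept_iff α e F t v).symm

end

end Tw2

theorem tw2 {A V : Type} [Finite A] [Finite V] (K : Set (Tr (A × Set V))) (hK : Recog K) :
    ∃ φ : Fm (treeVocab A) V 0 0,
      ∀ (t : Tr A) (v : V → t.Node), φ.Holds (treeStr t) v ↔ t.ann (fun i => (v i).1) ∈ K := by
  obtain ⟨Q, hQ, α, F, hF⟩ := hK
  obtain ⟨φ, hφ⟩ := Tw2.main α F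
  exact ⟨φ, fun t v => (hφ t v _ _).trans (hF _).symm⟩

end Pool.Agent.TreeMSO
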