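import Pool.Agent.TreeMSO.Tw1
import Pool.Agent.TreeMSO.Tw2
import Pool.Agent.TreeMSO.Recog
import Pool.Agent.TreeMSO.Main
import Pool.Agent.TreeMSO.Compose
import Pool.Agent.TreeMSO.Ptree81

/-!
# Pulling back MSO formulas under tree-to-tree interpretations
-/

set_option autoImplicit false

namespace Pool.Agent.TreeMSO

/-! ## Runs on trees -/

/-- The subtree at a position. -/
def Tr.subAt {A : Type} : Tr A → List Bool → Option (Tr A)
  | t, [] => some t
  | .leaf _, _ :: _ => none
  | .node _ l _, false :: p => l.subAt p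
  | .node _ _ r, true :: p => r.subAt p

/-- Combination of states of absent/present subtrees. -/
def optComb {G Q : Type} (α : Alg G Q) : G → Option Q → Option Q → Option Q
  | g, none, none => some (α.leaf g)
  | g, some a, some b => some (α.node g a b)
  | _, _, _ => none

theorem Tr.run_local {G Q : Type} (α : Alg G Q) (t : Tr G) (p : List Bool) :
    (t.subAt p).map α.eval =
      step none (optComb α) t.lab? (fun p => (t.subAt p).map α.eval) p := by
  induction t generalizing p with
  | leaf a =>
    cases p with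
    | nil => simp [Tr.subAt, step, Tr.lab?, optComb, Alg.eval]
    | cons b p => simp [Tr.subAt, step, Tr.lab?]
  | node a l r ihl ihr =>
    cases p with
    | nil => simp [Tr.subAt, step, Tr.lab?, optComb, Alg.eval]
    | cons b p =>
      cases b with
      | false =>
        have := ihl p
        simp only [step] at this ⊢
        simp only [Tr.subAt, Tr.lab?, List.cons_append]
        exact this
      | true =>
        have := ihr p
        simp only [step] at this ⊢
        simp only [Tr.subAt, Tr.lab?, List.cons_append]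
        exact this

theorem Tr.isRun {G Q : Type} (α : Alg G Q) (t : Tr G) :
    IsRun none (optComb α) t.lab? none (fun p => (t.subAt p).map α.eval) := by
  intro p
  refine ⟨fun q h => by simp at h, fun _ => t.run_local α p⟩

/-! ## Marked output trees -/

/-- Trees over `B × Set V` in which every mark is on exactly one node and `ψ` holds of the
marked nodes. -/
def Good {B V : Type} (ψ : Fm (treeVocab B) V 0 0) (t' : Tr B) (marks : List Bool → Set V) : Prop :=
  ∃ xs : V → t'.Node, (∀ v (y : t'.Node), v ∈ marks y.1 ↔ y = xs v) ∧ ψ.Holds (treeStr t') xs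

theorem recog_good {B V : Type} [Finite V] (ψ : Fm (treeVocab B) V 0 0) :
    ∃ L : Set (Tr (B × Set V)), Recog L ∧ ∀ (o : Tr (B × Set V)) (t' : Tr B)
      (marks : List Bool → Set V), (∀ p, o.lab? p = (t'.lab? p).map fun b => (b, marks p)) →
      (o ∈ L ↔ Good ψ t' marks) := by
  obtain ⟨K, hK, hKt⟩ := tw1 ψ
  have hU : ∀ v : V, Recog {t : Tr (B × Set V) | ∃! p, ∃ a, t.lab? p = some a ∧ v ∈ a.2} :=
    fun v => recog_unique _
  obtain ⟨Q, hQ, α, F, hF⟩ := Recog.family hU
  have hU2 : Recog {t : Tr (B × Set V) | ∀ v, ∃! p, ∃ a, t.lab? p = some a ∧ v ∈ a.2} := by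
    refine ⟨Q, hQ, α, {q | ∀ v, q ∈ F v}, fun t => ?_⟩
    simp only [Set.mem_ofPred_eq]
    exact forall_congr' fun v => hF v t
  refine ⟨_, hK.inter hU2, ?_⟩
  intro o t' marks ho
  constructor
  · rintro ⟨hoK, hoU⟩
    simp only [Set.mem_ofPred_eq] at hoU
    choose pos hpos hposu using hoU
    have hpd : ∀ v, (t'.lab? (pos v)).isSome := by
      intro v
      obtain ⟨a, ha, -⟩ := hpos v
      rw [ho] at ha
      cases h : t'.lab? (pos v) with
      | none => simp [h] at ha
      | some b => simp
    let xs : V → t'.Node := fun v => ⟨pos v, hpd v⟩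
    have hann : o = t'.ann (fun v => (xs v).1) := by
      apply Tr.ext_lab?
      intro p
      rw [ho p, Tr.ann, Tr.lab?_mapPos]
      cases h : t'.lab? p with
      | none => simp
      | some b =>
        simp only [Option.map_some, Option.some.injEq, Prod.mk.injEq, true_and]
        ext v
        simp only [Set.mem_ofPred_eq]
        constructor
        · intro hv
          exact (hposu v p ⟨(b, marks p), by rw [ho, h]; rfl, hv⟩).symm
        · intro hv
          obtain ⟨a, ha, hva⟩ := hpos v
          have hv' : pos v = p := hv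
          rw [hv', ho, h] at ha
          simp only [Option.map_some, Option.some.injEq] at ha
          rw [← ha] at hva
          exact hva
    refine ⟨xs, ?_, ?_⟩
    · intro v y
      constructor
      · intro hv
        apply Subtype.ext
        obtain ⟨b, hb⟩ := Option.isSome_iff_exists.1 y.2
        exact hposu v y.1 ⟨(b, marks y.1), by rw [ho, hb]; rfl, hv⟩
      · rintro rfl
        obtain ⟨a, ha, hva⟩ := hpos v
        obtain ⟨b, hb⟩ := Option.isSome_iff_exists.1 (hpd v)
        rw [ho, hb] at ha
        simp only [Option.map_some, Option.some.injEq] at ha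
        rw [← ha] at hva
        exact hva
    · rw [← hKt t' xs, ← hann]; exact hoK
  · rintro ⟨xs, hxs, hψ⟩
    have hann : o = t'.ann (fun v => (xs v).1) := by
      apply Tr.ext_lab?
      intro p
      rw [ho p, Tr.ann, Tr.lab?_mapPos]
      cases h : t'.lab? p with
      | none => simp
      | some b =>
        simp only [Option.map_some, Option.some.injEq, Prod.mk.injEq, true_and]
        ext v
        have := hxs v ⟨p, by simp [h]⟩
        exact this.trans ⟨fun h => (congrArg Subtype.val h).symm, fun h => Subtype.ext h.symm⟩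
    refine ⟨?_, ?_⟩
    · rw [hann, hKt t' xs]; exact hψ
    · intro v
      refine ⟨(xs v).1, ?_, ?_⟩
      · obtain ⟨b, hb⟩ := Option.isSome_iff_exists.1 (xs v).2
        exact ⟨(b, marks (xs v).1), by rw [ho, hb]; rfl, (hxs v (xs v)).2 rfl⟩
      · rintro p ⟨a, ha, hva⟩
        rw [ho] at ha
        cases h : t'.lab? p with
        | none => simp [h] at ha
        | some b =>
          rw [h] at ha
          simp only [Option.map_some, Option.some.injEq] at ha
          rw [← ha] at hva
          have := (hxs v ⟨p, by simp [h]⟩).1 hva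
          exact congrArg Subtype.val this

/-! ## The pulled back language -/

/-- The node `x` of the output structure carries the mark `v`: its component is `c v` and its
coordinates are marked `(v, l)` in the input. -/
def Marked {A B V : Type} (I : Interp (treeVocab A) (treeVocab B)) (c : V → I.Comp)
    (ts : Tr (A × Set ((v : V) × Fin (I.dim (c v))))) {t : Tr A}
    (v : V) (x : (I.out (treeStr t)).U) : Prop :=
  ∃ h : x.1 = c v, ∀ l : Fin (I.dim (c v)),
    ∃ a, ts.lab? (x.2.1 (Fin.cast (by rw [h]) l)).1 = some a ∧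
      (⟨v, l⟩ : (v : V) × Fin (I.dim (c v))) ∈ a.2

/-- The pulled back language. -/
def PB {A B V : Type} (I : Interp (treeVocab A) (treeVocab B)) (c : V → I.Comp)
    (ψ : Fm (treeVocab B) V 0 0) : Set (Tr (A × Set ((v : V) × Fin (I.dim (c v))))) :=
  {ts | ∃ (xs : V → (I.out (treeStr ts.under)).U),
    (∀ v x, Marked I c ts v x ↔ x = xs v) ∧ ψ.Holds (I.out (treeStr ts.under)) xs}

theorem pb_iff {A B V : Type} (I : Interp (treeVocab A) (treeVocab B)) (c : V → I.Comp)
    (ψ : Fm (treeVocab B) V 0 0) (ts : Tr (A × Set ((v : V) × Fin (I.dim (c v)))))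
    (t' : Tr B) (e : (I.out (treeStr ts.under)).U ≃ (treeStr t').U)
    (he : ∀ (R : (treeVocab B).Sym) (a : Fin ((treeVocab B).ar R) →
              (I.out (treeStr ts.under)).U),
            (I.out (treeStr ts.under)).rel R a ↔ (treeStr t').rel R (fun j => e (a j)))
    (marks : List Bool → Set V)
    (hm : ∀ (x : (I.out (treeStr ts.under)).U) (v : V), v ∈ marks (e x).1 ↔ Marked I c ts v x) :
    ts ∈ PB I c ψ ↔ Good ψ t' marks := by
  constructor
  · rintro ⟨xs, hxs, hψ⟩
    refine ⟨fun v => e (xs v), ?_, ?_⟩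
    · intro v y
      obtain ⟨x, rfl⟩ := e.surjective y
      rw [hm x v, hxs v x]
      exact ⟨fun h => by rw [h], fun h => e.injective h⟩
    · exact (Fm.Holds_iso ψ e he xs).1 hψ
  · rintro ⟨xs, hxs, hψ⟩
    refine ⟨fun v => e.symm (xs v), ?_, ?_⟩
    · intro v x
      rw [← hm x v, hxs v (e x)]
      exact ⟨fun h => (e.symm_apply_eq.2 h.symm).symm, fun h => by rw [h]; exact e.apply_symm_apply _⟩
    · rw [Fm.Holds_iso ψ e he]
      have : (fun i => e (e.symm (xs i))) = xs := funext fun i => e.apply_symm_apply _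
      rw [this]
      exact hψ

theorem recog_pb {A B V : Type} [Finite A] [Finite B] [Finite V] [Nonempty A]
    (I : Interp (treeVocab A) (treeVocab B))
    (hI : ∀ t : Tr A, ∃ t' : Tr B, (I.out (treeStr t)).Iso (treeStr t')) (c : V → I.Comp)
    (ψ : Fm (treeVocab B) V 0 0) : Recog (PB I c ψ) := by
  obtain ⟨S, T, X, Y, hS, hT, tab, τX, τY, hW⟩ := exists_ptree I hI c
  obtain ⟨L, ⟨Q, hQ, α, F, hF⟩, hL⟩ := recog_good ψ
  obtain ⟨n, hn⟩ := ft S T (B × Set V) (Option Q) tab none (optComb α)
  obtain ⟨Q₁, hQ₁, code, hcode⟩ := ef_code T n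
  apply myhill_nerode _ Q₁ (fun s => code Y (τY s))
  intro s s' hss C hs
  -- the value of the output tree
  have key : ∀ s : Tr (A × Set ((v : V) × Fin (I.dim (c v)))),
      ∃ (W : PTree tab (τX C) (τY s)) (st : List Bool → Option Q) (o : Tr (B × Set V)),
        IsRun none (optComb α) W.lab none st ∧ st [] = some (α.eval o) ∧
          (C.fill s ∈ PB I c ψ ↔ o ∈ L) := by
    intro s
    obtain ⟨W, t', e, he, hp⟩ := hW C s
    let marks : List Bool → Set V := fun p => match W.lab p with
      | none => ∅
      | some g => g.2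
    let o : Tr (B × Set V) := t'.mapPos fun p b => (b, marks p)
    have hol : ∀ p, o.lab? p = (t'.lab? p).map fun b => (b, marks p) := fun p => by
      rw [Tr.lab?_mapPos]
    have hoW : o.lab? = W.lab := by
      funext p
      rw [hol]
      rcases hp p with ⟨h1, h2⟩ | ⟨b, x, h1, h2, h3⟩
      · rw [h1, h2]; rfl
      · rw [h1, h3]
        simp only [Option.map_some, marks, h3]
    refine ⟨W, fun p => (o.subAt p).map α.eval, o, ?_, ?_, ?_⟩
    · rw [← hoW]; exact o.isRun α
    · simp [Tr.subAt]
    · rw [hL o t' marks hol]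
      apply pb_iff I c ψ (C.fill s) t' e he marks
      intro x v
      rcases hp (e x).1 with ⟨h1, h2⟩ | ⟨b, x', h1, h2, h3⟩
      · have := (e x).2
        rw [h2] at this
        simp at this
      · have hx : x' = x := e.injective (Subtype.ext h2)
        subst hx
        simp only [marks, h3]
        rfl
  obtain ⟨W, st, o, hst, hso, hiff⟩ := key s
  obtain ⟨W', st', o', hst', hso', hiff'⟩ := key s'
  have hEF := hcode Y Y (τY s) (τY s') hss
  have := hn X Y Y (τX C) (τY s) (τY s') W W' st st' hst hst' hEF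
  rw [hso, hso', Option.some.injEq] at this
  rw [hiff', hF, ← this, ← hF, ← hiff]
  exact hs

theorem Tr.under_ann {A V : Type} (t : Tr A) (v : V → List Bool) : (t.ann v).under = t := by
  apply Tr.ext_lab?
  intro p
  rw [Tr.under, Tr.lab?_mapPos, Tr.ann, Tr.lab?_mapPos]
  cases t.lab? p <;> simp

theorem pb_ann {A B V : Type} (I : Interp (treeVocab A) (treeVocab B)) (c : V → I.Comp)
    (ψ : Fm (treeVocab B) V 0 0) (t : Tr A)
    (z : ((v : V) × Fin (I.dim (c v))) → t.Node) :
    t.ann (fun i => (z i).1) ∈ PB I c ψ ↔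
      ∃ h : ∀ v, (I.dom (c v)).Holds (treeStr t) (fun l => z ⟨v, l⟩),
            ψ.Holds (I.out (treeStr t)) (fun v => ⟨c v, fun l => z ⟨v, l⟩, h v⟩) := by
  have hu := t.under_ann (fun i => (z i).1)
  have hlab : ∀ p, (t.ann fun i => (z i).1).lab? p =
      (t.lab? p).map fun a => (a, {i | (z i).1 = p}) := by
    intro p; rw [Tr.ann, Tr.lab?_mapPos]
  generalize t.ann (fun i => (z i).1) = ts at hu hlab
  subst hu
  -- marked nodes
  have hM : ∀ (v : V) (x : (I.out (treeStr ts.under)).U), Marked I c ts v x ↔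
      ∃ h : (I.dom (c v)).Holds (treeStr ts.under) (fun l => z ⟨v, l⟩),
        x = ⟨c v, fun l => z ⟨v, l⟩, h⟩ := by
    rintro v ⟨i, x, hx⟩
    constructor
    · rintro ⟨h, hl⟩
      simp only at h
      subst h
      have hxz : x = fun l => z ⟨v, l⟩ := by
        funext l
        obtain ⟨a, ha, hal⟩ := hl l
        simp only [Fin.cast_eq_self] at ha
        rw [hlab] at ha
        obtain ⟨b, hb⟩ := Option.isSome_iff_exists.1 (x l).2
        rw [hb] at ha
        simp only [Option.map_some, Option.some.injEq] at ha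
        rw [← ha] at hal
        exact (Subtype.ext hal).symm
      subst hxz
      exact ⟨hx, rfl⟩
    · rintro ⟨h, hxx⟩
      cases hxx
      refine ⟨rfl, fun l => ?_⟩
      simp only [Fin.cast_eq_self]
      rw [hlab]
      obtain ⟨b, hb⟩ := Option.isSome_iff_exists.1 (z ⟨v, l⟩).2
      refine ⟨(b, {i | (z i).1 = (z ⟨v, l⟩).1}), by rw [hb]; rfl, rfl⟩
  constructor
  · rintro ⟨xs, hxs, hψ⟩
    have h : ∀ v, (I.dom (c v)).Holds (treeStr ts.under) (fun l => z ⟨v, l⟩) := by
      intro v
      obtain ⟨h, -⟩ := (hM v (xs v)).1 ((hxs v (xs v)).2 rfl)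
      exact h
    refine ⟨h, ?_⟩
    have : xs = fun v => ⟨c v, fun l => z ⟨v, l⟩, h v⟩ := by
      funext v
      exact ((hxs v _).1 ((hM v ⟨c v, fun l => z ⟨v, l⟩, h v⟩).2 ⟨h v, rfl⟩)).symm
    rw [← this]; exact hψ
  · rintro ⟨h, hψ⟩
    refine ⟨_, fun v x => ?_, hψ⟩
    rw [hM v x]
    exact ⟨fun ⟨_, hx⟩ => hx, fun hx => ⟨h v, hx⟩⟩

/-- Pull-back of MSO formulas under a tree-to-tree interpretation. -/
theorem pullback {A B : Type} [Finite A] [Finite B] (I : Interp (treeVocab A) (treeVocab B))
    (hI : ∀ t : Tr A, ∃ t' : Tr B, (I.out (treeStr t)).Iso (treeStr t'))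
    {V : Type} [Finite V] (c : V → I.Comp) (ψ : Fm (treeVocab B) V 0 0) :
    ∃ φ : Fm (treeVocab A) ((v : V) × Fin (I.dim (c v))) 0 0,
      ∀ (t : Tr A) (z : ((v : V) × Fin (I.dim (c v))) → t.Node),
        φ.Holds (treeStr t) z ↔
          ∃ h : ∀ v, (I.dom (c v)).Holds (treeStr t) (fun l => z ⟨v, l⟩),
            ψ.Holds (I.out (treeStr t)) (fun v => ⟨c v, fun l => z ⟨v, l⟩, h v⟩) := by
  cases isEmpty_or_nonempty A with
  | inl hA =>
    refine ⟨.exE (.eq (.inr 0) (.inr 0)), fun t => ?_⟩
    cases t with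
    | leaf a => exact hA.elim a
    | node a l r => exact hA.elim a
  | inr hA =>
    obtain ⟨φ, hφ⟩ := tw2 (PB I c ψ) (recog_pb I hI c ψ)
    refine ⟨φ, fun t z => ?_⟩
    rw [hφ t z, pb_ann]

end Pool.Agent.TreeMSO
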