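import Pool.Agent.TreeMSO.Base

/-!
# MSO definable sets of trees are recognizable (Thatcher-Wright, first direction)
-/

set_option autoImplicit false

namespace Pool.Agent.TreeMSO

namespace Tw1

/-! ## Generalities -/

theorem lab_mapPos {A B : Type} (t : Tr A) (g : List Bool → A → B) (p : List Bool) :
    (t.mapPos g).lab? p = (t.lab? p).map (g p) := by
  induction t generalizing g p with
  | leaf a =>
    cases p with
    | nil => rfl
    | cons b p => rfl
  | node a l r ihl ihr =>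
    cases p with
    | nil => rfl
    | cons b p =>
      cases b with
      | false => exact ihl _ p
      | true => exact ihr _ p

theorem mapPos_mapPos {A B C : Type} (t : Tr A) (g : List Bool → A → B) (h : List Bool → B → C) :
    (t.mapPos g).mapPos h = t.mapPos (fun p a => h p (g p a)) := by
  induction t generalizing g h with
  | leaf a => rfl
  | node a l r ihl ihr =>
    simp only [Tr.mapPos]
    rw [ihl, ihr]

theorem mapPos_congr {A B : Type} (t : Tr A) (g h : List Bool → A → B)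
    (H : ∀ p a, t.lab? p = some a → g p a = h p a) : t.mapPos g = t.mapPos h := by
  induction t generalizing g h with
  | leaf a =>
    simp only [Tr.mapPos]
    rw [H [] a rfl]
  | node a l r ihl ihr =>
    simp only [Tr.mapPos]
    rw [H [] a rfl, ihl _ _ (fun p b hb => H (false :: p) b hb),
      ihr _ _ (fun p b hb => H (true :: p) b hb)]

/-! ## Small automata -/

/-- some node satisfies `P` -/
def exAlg {L : Type} (P : L → Prop) : Alg L Prop where
  leaf l := P l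
  node l b c := P l ∨ b ∨ c

theorem exAlg_eval {L : Type} (P : L → Prop) (t : Tr L) :
    (exAlg P).eval t ↔ ∃ p l, t.lab? p = some l ∧ P l := by
  induction t with
  | leaf a =>
    constructor
    · intro h
      exact ⟨[], a, rfl, h⟩
    · rintro ⟨p, l, h1, h2⟩
      cases p with
      | nil =>
        obtain rfl : a = l := by simpa [Tr.lab?] using h1
        exact h2
      | cons b p => simp [Tr.lab?] at h1
  | node a l r ihl ihr =>
    show (P a ∨ (exAlg P).eval l ∨ (exAlg P).eval r) ↔ _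
    rw [ihl, ihr]
    constructor
    · rintro (h | ⟨p, x, h1, h2⟩ | ⟨p, x, h1, h2⟩)
      · exact ⟨[], a, rfl, h⟩
      · exact ⟨false :: p, x, h1, h2⟩
      · exact ⟨true :: p, x, h1, h2⟩
    · rintro ⟨p, x, h1, h2⟩
      match p, h1 with
      | [], h1 =>
        obtain rfl : a = x := by simpa [Tr.lab?] using h1
        exact Or.inl h2
      | false :: p, h1 => exact Or.inr (Or.inl ⟨p, x, h1, h2⟩)
      | true :: p, h1 => exact Or.inr (Or.inr ⟨p, x, h1, h2⟩)

/-- some node with `X` is related by `R` to some node with `Y` -/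
def relAlg {L : Type} (X Y : L → Prop) (c : Prop → Prop → Prop → Prop → Prop → Prop → Prop) :
    Alg L (Prop × Prop × Prop) where
  leaf l := (X l, Y l, c (X l) False False (Y l) False False)
  node l b d := (X l ∨ b.1 ∨ d.1, Y l ∨ b.2.1 ∨ d.2.1,
    b.2.2 ∨ d.2.2 ∨ c (X l) b.1 d.1 (Y l) b.2.1 d.2.1)

theorem relAlg_eval {L : Type} (X Y : L → Prop)
    (c : Prop → Prop → Prop → Prop → Prop → Prop → Prop) (R : List Bool → List Bool → Prop)
    (h00 : ∀ b p q, R (b :: p) (b :: q) ↔ R p q)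
    (hc : ∀ (Z U : List Bool → Prop),
      c (Z []) (∃ p, Z (false :: p)) (∃ p, Z (true :: p)) (U []) (∃ p, U (false :: p))
        (∃ p, U (true :: p)) ↔ ∃ p q, Z p ∧ U q ∧ R p q ∧
          ¬ ∃ b p' q', p = b :: p' ∧ q = b :: q')
    (t : Tr L) :
    ((relAlg X Y c).eval t).1 = (∃ p l, t.lab? p = some l ∧ X l) ∧
    ((relAlg X Y c).eval t).2.1 = (∃ p l, t.lab? p = some l ∧ Y l) ∧
    ((relAlg X Y c).eval t).2.2 = (∃ p l q l', t.lab? p = some l ∧ X l ∧ t.lab? q = some l' ∧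
      Y l' ∧ R p q) := by
  induction t with
  | leaf a =>
    have key : ∀ (Z : L → Prop), (∃ p l, (Tr.leaf a).lab? p = some l ∧ Z l) ↔ Z a := by
      intro Z
      constructor
      · rintro ⟨p, l, h1, h2⟩
        cases p with
        | nil =>
          obtain rfl : a = l := by simpa [Tr.lab?] using h1
          exact h2
        | cons b p => simp [Tr.lab?] at h1
      · intro h
        exact ⟨[], a, rfl, h⟩
    refine ⟨propext (key X).symm, propext (key Y).symm, propext ?_⟩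
    show c (X a) False False (Y a) False False ↔ _
    have h := hc (fun p => p = [] ∧ X a) (fun p => p = [] ∧ Y a)
    simp only [reduceCtorEq, false_and, exists_false, true_and] at h
    rw [h]
    constructor
    · rintro ⟨p, q, ⟨rfl, hX⟩, ⟨rfl, hY⟩, hR, -⟩
      exact ⟨[], a, [], a, rfl, hX, rfl, hY, hR⟩
    · rintro ⟨p, l, q, l', h1, h2, h3, h4, h5⟩
      have hp : p = [] ∧ a = l := by
        cases p with
        | nil => exact ⟨rfl, by simpa [Tr.lab?] using h1⟩
        | cons b p => simp [Tr.lab?] at h1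
      have hq : q = [] ∧ a = l' := by
        cases q with
        | nil => exact ⟨rfl, by simpa [Tr.lab?] using h3⟩
        | cons b p => simp [Tr.lab?] at h3
      obtain ⟨rfl, rfl⟩ := hp
      obtain ⟨rfl, rfl⟩ := hq
      exact ⟨[], [], ⟨rfl, h2⟩, ⟨rfl, h4⟩, h5, by rintro ⟨b, p', q', h, -⟩; cases h⟩
  | node a l r ihl ihr =>
    obtain ⟨l1, l2, l3⟩ := ihl
    obtain ⟨r1, r2, r3⟩ := ihr
    have key : ∀ (Z : L → Prop), (∃ p x, (Tr.node a l r).lab? p = some x ∧ Z x) ↔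
        (Z a ∨ (∃ p x, l.lab? p = some x ∧ Z x) ∨ (∃ p x, r.lab? p = some x ∧ Z x)) := by
      intro Z
      constructor
      · rintro ⟨p, x, h1, h2⟩
        match p, h1 with
        | [], h1 =>
          obtain rfl : a = x := by simpa [Tr.lab?] using h1
          exact Or.inl h2
        | false :: p, h1 => exact Or.inr (Or.inl ⟨p, x, h1, h2⟩)
        | true :: p, h1 => exact Or.inr (Or.inr ⟨p, x, h1, h2⟩)
      · rintro (h | ⟨p, x, h1, h2⟩ | ⟨p, x, h1, h2⟩)
        · exact ⟨[], a, rfl, h⟩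
        · exact ⟨false :: p, x, h1, h2⟩
        · exact ⟨true :: p, x, h1, h2⟩
    refine ⟨?_, ?_, ?_⟩
    · show (X a ∨ ((relAlg X Y c).eval l).1 ∨ ((relAlg X Y c).eval r).1) = _
      rw [l1, r1]
      exact propext (key X).symm
    · show (Y a ∨ ((relAlg X Y c).eval l).2.1 ∨ ((relAlg X Y c).eval r).2.1) = _
      rw [l2, r2]
      exact propext (key Y).symm
    · show (((relAlg X Y c).eval l).2.2 ∨ ((relAlg X Y c).eval r).2.2 ∨
        c (X a) ((relAlg X Y c).eval l).1 ((relAlg X Y c).eval r).1 (Y a)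
          ((relAlg X Y c).eval l).2.1 ((relAlg X Y c).eval r).2.1) = _
      rw [l1, l2, l3, r1, r2, r3]
      apply propext
      have h := hc (fun p => ∃ x, (Tr.node a l r).lab? p = some x ∧ X x)
        (fun p => ∃ x, (Tr.node a l r).lab? p = some x ∧ Y x)
      have e0 : ∀ Z : L → Prop, (∃ x, (Tr.node a l r).lab? [] = some x ∧ Z x) = Z a := by
        intro Z
        simp [Tr.lab?]
      simp only [e0] at h
      have e1 : ∀ Z : L → Prop, (∃ p, ∃ x, (Tr.node a l r).lab? (false :: p) = some x ∧ Z x) =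
          (∃ p x, l.lab? p = some x ∧ Z x) := fun Z => rfl
      have e2 : ∀ Z : L → Prop, (∃ p, ∃ x, (Tr.node a l r).lab? (true :: p) = some x ∧ Z x) =
          (∃ p x, r.lab? p = some x ∧ Z x) := fun Z => rfl
      simp only [e1, e2] at h
      rw [h]
      constructor
      · rintro (⟨p, x, q, y, h1, h2, h3, h4, h5⟩ | ⟨p, x, q, y, h1, h2, h3, h4, h5⟩ |
          ⟨p, q, ⟨x, h1, h2⟩, ⟨y, h3, h4⟩, h5, -⟩)
        · exact ⟨false :: p, x, false :: q, y, h1, h2, h3, h4, (h00 _ _ _).mpr h5⟩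
        · exact ⟨true :: p, x, true :: q, y, h1, h2, h3, h4, (h00 _ _ _).mpr h5⟩
        · exact ⟨p, x, q, y, h1, h2, h3, h4, h5⟩
      · rintro ⟨p, x, q, y, h1, h2, h3, h4, h5⟩
        by_cases hb : ∃ b p' q', p = b :: p' ∧ q = b :: q'
        · obtain ⟨b, p', q', rfl, rfl⟩ := hb
          rw [h00] at h5
          cases b with
          | false => exact Or.inl ⟨p', x, q', y, h1, h2, h3, h4, h5⟩
          | true => exact Or.inr (Or.inl ⟨p', x, q', y, h1, h2, h3, h4, h5⟩)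
        · exact Or.inr (Or.inr ⟨p, q, ⟨x, h1, h2⟩, ⟨y, h3, h4⟩, h5, hb⟩)

/-! ## Quantifiers -/

/-- guess a set of positions -/
def exSAlg {L L' Q : Type} (α : Alg L' Q) (f : L → Prop → L') : Alg L (Set Q) where
  leaf l := {q | ∃ b, α.leaf (f l b) = q}
  node l S T := {q | ∃ b, ∃ q1 ∈ S, ∃ q2 ∈ T, α.node (f l b) q1 q2 = q}

theorem exSAlg_eval {L L' Q : Type} (α : Alg L' Q) (f : L → Prop → L') (t : Tr L) :
    (exSAlg α f).eval t =
      {q | ∃ P : Set (List Bool), α.eval (t.mapPos fun p l => f l (p ∈ P)) = q} := by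
  induction t with
  | leaf a =>
    ext q
    show (∃ b, α.leaf (f a b) = q) ↔ _
    constructor
    · rintro ⟨b, rfl⟩
      refine ⟨{p | b}, ?_⟩
      rfl
    · rintro ⟨P, rfl⟩
      exact ⟨_, rfl⟩
  | node a l r ihl ihr =>
    ext q
    show (∃ b, ∃ q1 ∈ (exSAlg α f).eval l, ∃ q2 ∈ (exSAlg α f).eval r,
      α.node (f a b) q1 q2 = q) ↔ _
    rw [ihl, ihr]
    constructor
    · rintro ⟨b, q1, ⟨P1, rfl⟩, q2, ⟨P2, rfl⟩, rfl⟩
      refine ⟨{p | (p = [] ∧ b) ∨ (∃ p' ∈ P1, p = false :: p') ∨ (∃ p' ∈ P2, p = true :: p')}, ?_⟩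
      simp only [Tr.mapPos, Alg.eval]
      have e0 : ([] ∈ {p | (p = [] ∧ b) ∨ (∃ p' ∈ P1, p = false :: p') ∨
          (∃ p' ∈ P2, p = true :: p')}) = b := by
        simp
      have e1 : ∀ p, (false :: p ∈ {p | (p = [] ∧ b) ∨ (∃ p' ∈ P1, p = false :: p') ∨
          (∃ p' ∈ P2, p = true :: p')}) = (p ∈ P1) := by
        intro p
        simp
      have e2 : ∀ p, (true :: p ∈ {p | (p = [] ∧ b) ∨ (∃ p' ∈ P1, p = false :: p') ∨
          (∃ p' ∈ P2, p = true :: p')}) = (p ∈ P2) := by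
        intro p
        simp
      simp only [e0, e1, e2]
    · rintro ⟨P, rfl⟩
      refine ⟨[] ∈ P, _, ⟨{p | false :: p ∈ P}, rfl⟩, _, ⟨{p | true :: p ∈ P}, rfl⟩, ?_⟩
      rfl

/-- guess a node -/
def exEAlg {L L' Q : Type} (α : Alg L' Q) (f0 f1 : L → L') : Alg L (Q × Set Q) where
  leaf l := (α.leaf (f0 l), {α.leaf (f1 l)})
  node l S T := (α.node (f0 l) S.1 T.1, {q | α.node (f1 l) S.1 T.1 = q ∨
    (∃ q1 ∈ S.2, α.node (f0 l) q1 T.1 = q) ∨ (∃ q2 ∈ T.2, α.node (f0 l) S.1 q2 = q)})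

theorem exEAlg_eval {L L' Q : Type} (α : Alg L' Q) (f0 f1 : L → L') (t : Tr L) :
    ((exEAlg α f0 f1).eval t).1 = α.eval (t.mapPos fun _ l => f0 l) ∧
    ((exEAlg α f0 f1).eval t).2 = {q | ∃ p, (t.lab? p).isSome ∧
      α.eval (t.mapPos fun p' l => if p' = p then f1 l else f0 l) = q} := by
  induction t with
  | leaf a =>
    refine ⟨rfl, ?_⟩
    ext q
    show q = α.leaf (f1 a) ↔ _
    constructor
    · rintro rfl
      exact ⟨[], rfl, rfl⟩
    · rintro ⟨p, hp, rfl⟩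
      cases p with
      | nil => rfl
      | cons b p => simp [Tr.lab?] at hp
  | node a l r ihl ihr =>
    obtain ⟨l1, l2⟩ := ihl
    obtain ⟨r1, r2⟩ := ihr
    refine ⟨?_, ?_⟩
    · show α.node (f0 a) ((exEAlg α f0 f1).eval l).1 ((exEAlg α f0 f1).eval r).1 = _
      rw [l1, r1]
      rfl
    · ext q
      show (α.node (f1 a) ((exEAlg α f0 f1).eval l).1 ((exEAlg α f0 f1).eval r).1 = q ∨
        (∃ q1 ∈ ((exEAlg α f0 f1).eval l).2,
          α.node (f0 a) q1 ((exEAlg α f0 f1).eval r).1 = q) ∨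
        (∃ q2 ∈ ((exEAlg α f0 f1).eval r).2,
          α.node (f0 a) ((exEAlg α f0 f1).eval l).1 q2 = q)) ↔ _
      rw [l1, l2, r1, r2]
      constructor
      · rintro (rfl | ⟨q1, ⟨p, hp, rfl⟩, rfl⟩ | ⟨q2, ⟨p, hp, rfl⟩, rfl⟩)
        · refine ⟨[], rfl, ?_⟩
          simp [Tr.mapPos, Alg.eval]
        · refine ⟨false :: p, hp, ?_⟩
          simp [Tr.mapPos, Alg.eval]
        · refine ⟨true :: p, hp, ?_⟩
          simp [Tr.mapPos, Alg.eval]
      · rintro ⟨p, hp, rfl⟩
        match p, hp with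
        | [], hp =>
          left
          simp [Tr.mapPos, Alg.eval]
        | false :: p, hp =>
          right; left
          refine ⟨_, ⟨p, hp, rfl⟩, ?_⟩
          simp [Tr.mapPos, Alg.eval]
        | true :: p, hp =>
          right; right
          refine ⟨_, ⟨p, hp, rfl⟩, ?_⟩
          simp [Tr.mapPos, Alg.eval]

/-! ## The general statement -/

/-- the annotated tree -/
def annF {A W : Type} {m : ℕ} (t : Tr A) (x : W → List Bool) (S : Fin m → Set (List Bool)) :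
    Tr (A × Set W × Set (Fin m)) :=
  t.mapPos fun p a => (a, {i | x i = p}, {j | p ∈ S j})

/-- recognizability of the models of a formula with variables in scope -/
def Good {A V : Type} {n m : ℕ} (φ : Fm (treeVocab A) V n m) : Prop :=
  ∃ (Q : Type) (_ : Finite Q) (α : Alg (A × Set (V ⊕ Fin n) × Set (Fin m)) Q) (F : Set Q),
    ∀ (t : Tr A) (v : V → t.Node) (w : Fin n → t.Node) (S : Fin m → Set t.Node),
      α.eval (annF t (fun i => (Sum.elim v w i).1) (fun j => {p | ∃ u ∈ S j, u.1 = p})) ∈ F ↔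
        φ.Sat (treeStr t) v w S

theorem annF_lab {A W : Type} {m : ℕ} (t : Tr A) (x : W → List Bool)
    (S : Fin m → Set (List Bool)) (P : A × Set W × Set (Fin m) → Prop) :
    (∃ p l, (annF t x S).lab? p = some l ∧ P l) ↔
      ∃ p a, t.lab? p = some a ∧ P (a, {i | x i = p}, {j | p ∈ S j}) := by
  unfold annF
  simp only [lab_mapPos, Option.map_eq_some_iff]
  constructor
  · rintro ⟨p, l, ⟨a, h1, rfl⟩, h2⟩
    exact ⟨p, a, h1, h2⟩
  · rintro ⟨p, a, h1, h2⟩
    exact ⟨p, _, ⟨a, h1, rfl⟩, h2⟩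

theorem annF_lab2 {A W : Type} {m : ℕ} (t : Tr A) (x : W → List Bool)
    (S : Fin m → Set (List Bool)) (i j : W) (hi : (t.lab? (x i)).isSome)
    (hj : (t.lab? (x j)).isSome) (R : List Bool → List Bool → Prop) :
    (∃ p l q l', (annF t x S).lab? p = some l ∧ i ∈ l.2.1 ∧ (annF t x S).lab? q = some l' ∧
      j ∈ l'.2.1 ∧ R p q) ↔ R (x i) (x j) := by
  unfold annF
  simp only [lab_mapPos, Option.map_eq_some_iff]
  constructor
  · rintro ⟨p, l, q, l', ⟨a, h1, rfl⟩, h2, ⟨b, h3, rfl⟩, h4, h5⟩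
    have e1 : x i = p := h2
    have e2 : x j = q := h4
    rwa [e1, e2]
  · intro h
    obtain ⟨a, ha⟩ := Option.isSome_iff_exists.mp hi
    obtain ⟨b, hb⟩ := Option.isSome_iff_exists.mp hj
    exact ⟨x i, _, x j, _, ⟨a, ha, rfl⟩, rfl, ⟨b, hb, rfl⟩, rfl, h⟩

theorem good_lab {A V : Type} {n m : ℕ} (a : A) (x : Fin 1 → V ⊕ Fin n) :
    Good (Fm.rel (τ := treeVocab A) (n := n) (m := m) (TSym.lab a) x) := by
  refine ⟨Prop, inferInstance, exAlg (fun l => l.1 = a ∧ x 0 ∈ l.2.1), {p | p},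
    fun t v w S => ?_⟩
  show (exAlg _).eval _ ↔ _
  rw [exAlg_eval, annF_lab t _ _ (fun l => l.1 = a ∧ x 0 ∈ l.2.1)]
  show _ ↔ t.lab? (Sum.elim v w (x 0)).1 = some a
  constructor
  · rintro ⟨p, b, h1, rfl, h2⟩
    have h3 : (Sum.elim v w (x 0)).1 = p := h2
    rw [h3]
    exact h1
  · intro h
    exact ⟨_, a, h, rfl, rfl⟩

theorem good_eq {A V : Type} {n m : ℕ} (x y : V ⊕ Fin n) :
    Good (Fm.eq (τ := treeVocab A) (n := n) (m := m) x y) := by
  refine ⟨Prop, inferInstance, exAlg (fun l => x ∈ l.2.1 ∧ y ∈ l.2.1), {p | p},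
    fun t v w S => ?_⟩
  show (exAlg _).eval _ ↔ _
  rw [exAlg_eval, annF_lab t _ _ (fun l => x ∈ l.2.1 ∧ y ∈ l.2.1)]
  show _ ↔ Sum.elim v w x = Sum.elim v w y
  constructor
  · rintro ⟨p, b, h1, h2, h3⟩
    have h2' : (Sum.elim v w x).1 = p := h2
    have h3' : (Sum.elim v w y).1 = p := h3
    exact Subtype.ext (h2'.trans h3'.symm)
  · intro h
    obtain ⟨b, hb⟩ := Option.isSome_iff_exists.mp (Sum.elim v w x).2
    exact ⟨_, b, hb, rfl, congrArg Subtype.val h.symm⟩

theorem good_mem {A V : Type} {n m : ℕ} (x : V ⊕ Fin n) (Z : Fin m) :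
    Good (Fm.mem (τ := treeVocab A) (n := n) (m := m) x Z) := by
  refine ⟨Prop, inferInstance, exAlg (fun l => x ∈ l.2.1 ∧ Z ∈ l.2.2), {p | p},
    fun t v w S => ?_⟩
  show (exAlg _).eval _ ↔ _
  rw [exAlg_eval, annF_lab t _ _ (fun l => x ∈ l.2.1 ∧ Z ∈ l.2.2)]
  show _ ↔ Sum.elim v w x ∈ S Z
  constructor
  · rintro ⟨p, b, h1, h2, u, hu, hup⟩
    have h2' : (Sum.elim v w x).1 = p := h2
    have : Sum.elim v w x = u := Subtype.ext (h2'.trans hup.symm)
    rw [this]
    exact hu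
  · intro h
    obtain ⟨b, hb⟩ := Option.isSome_iff_exists.mp (Sum.elim v w x).2
    exact ⟨_, b, hb, rfl, _, h, rfl⟩

theorem good_desc {A V : Type} {n m : ℕ} (x : Fin 2 → V ⊕ Fin n) :
    Good (Fm.rel (τ := treeVocab A) (n := n) (m := m) TSym.desc x) := by
  refine ⟨Prop × Prop × Prop, inferInstance, relAlg (fun l => x 0 ∈ l.2.1) (fun l => x 1 ∈ l.2.1)
    (fun a _ _ b c d => a ∧ (b ∨ c ∨ d)), {p | p.2.2}, fun t v w S => ?_⟩
  show ((relAlg _ _ _).eval _).2.2 ↔ _
  rw [(relAlg_eval _ _ _ (fun p q => p <+: q) ?_ ?_ _).2.2]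
  · rw [annF_lab2 t _ _ (x 0) (x 1) (Sum.elim v w (x 0)).2 (Sum.elim v w (x 1)).2]
    rfl
  · intro b p q
    simp
  · intro Z U
    constructor
    · rintro ⟨hZ, hU⟩
      rcases hU with hU | ⟨p, hU⟩ | ⟨p, hU⟩
      · exact ⟨[], [], hZ, hU, List.nil_prefix, by rintro ⟨b, p', q', h, -⟩; cases h⟩
      · exact ⟨[], _, hZ, hU, List.nil_prefix, by rintro ⟨b, p', q', h, -⟩; cases h⟩
      · exact ⟨[], _, hZ, hU, List.nil_prefix, by rintro ⟨b, p', q', h, -⟩; cases h⟩
    · rintro ⟨p, q, hZ, hU, hpq, hn⟩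
      cases p with
      | nil =>
        refine ⟨hZ, ?_⟩
        match q, hU with
        | [], hU => exact Or.inl hU
        | false :: q, hU => exact Or.inr (Or.inl ⟨q, hU⟩)
        | true :: q, hU => exact Or.inr (Or.inr ⟨q, hU⟩)
      | cons b p =>
        obtain ⟨q', rfl⟩ := hpq
        exact absurd ⟨b, p, p ++ q', rfl, rfl⟩ hn

theorem good_doc {A V : Type} {n m : ℕ} (x : Fin 2 → V ⊕ Fin n) :
    Good (Fm.rel (τ := treeVocab A) (n := n) (m := m) TSym.doc x) := by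
  refine ⟨Prop × Prop × Prop, inferInstance, relAlg (fun l => x 0 ∈ l.2.1) (fun l => x 1 ∈ l.2.1)
    (fun a a0 _ b _ b1 => (a ∧ b1) ∨ (a0 ∧ b) ∨ (a0 ∧ b1)), {p | p.2.2}, fun t v w S => ?_⟩
  show ((relAlg _ _ _).eval _).2.2 ↔ _
  rw [(relAlg_eval _ _ _ docLt ?_ ?_ _).2.2]
  · rw [annF_lab2 t _ _ (x 0) (x 1) (Sum.elim v w (x 0)).2 (Sum.elim v w (x 1)).2]
    rfl
  · intro b p q
    simp [docLt]
  · intro Z U
    constructor
    · rintro (⟨hZ, p, hU⟩ | ⟨⟨p, hZ⟩, hU⟩ | ⟨⟨p, hZ⟩, q, hU⟩)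
      · exact ⟨[], true :: p, hZ, hU, rfl, by rintro ⟨b, p', q', h, -⟩; cases h⟩
      · exact ⟨false :: p, [], hZ, hU, rfl, by rintro ⟨b, p', q', -, h⟩; cases h⟩
      · refine ⟨false :: p, true :: q, hZ, hU, Or.inl ⟨rfl, rfl⟩, ?_⟩
        rintro ⟨b, p', q', h, h'⟩
        cases h
        cases h'
    · rintro ⟨p, q, hZ, hU, hpq, hn⟩
      match p, q, hZ, hU, hpq, hn with
      | [], [], hZ, hU, hpq, hn => exact absurd hpq (by simp [docLt])
      | [], b :: q, hZ, hU, hpq, hn =>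
        obtain rfl : b = true := hpq
        exact Or.inl ⟨hZ, q, hU⟩
      | b :: p, [], hZ, hU, hpq, hn =>
        obtain rfl : b = false := hpq
        exact Or.inr (Or.inl ⟨⟨p, hZ⟩, hU⟩)
      | a :: p, b :: q, hZ, hU, hpq, hn =>
        rcases hpq with ⟨rfl, rfl⟩ | ⟨rfl, -⟩
        · exact Or.inr (Or.inr ⟨⟨p, hZ⟩, q, hU⟩)
        · exact absurd ⟨a, p, q, rfl, rfl⟩ hn

theorem good_not {A V : Type} {n m : ℕ} {φ : Fm (treeVocab A) V n m} (h : Good φ) :
    Good (Fm.not φ) := by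
  obtain ⟨Q, hQ, α, F, H⟩ := h
  refine ⟨Q, hQ, α, Fᶜ, fun t v w S => ?_⟩
  show ¬ _ ↔ ¬ _
  rw [H]

/-- product automaton -/
def prodAlg {L Q Q' : Type} (α : Alg L Q) (β : Alg L Q') : Alg L (Q × Q') where
  leaf l := (α.leaf l, β.leaf l)
  node l p q := (α.node l p.1 q.1, β.node l p.2 q.2)

theorem prodAlg_eval {L Q Q' : Type} (α : Alg L Q) (β : Alg L Q') (t : Tr L) :
    (prodAlg α β).eval t = (α.eval t, β.eval t) := by
  induction t with
  | leaf a => rfl
  | node a l r ihl ihr =>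
    simp only [Alg.eval, ihl, ihr]
    rfl

theorem good_and {A V : Type} {n m : ℕ} {φ ψ : Fm (treeVocab A) V n m} (h : Good φ)
    (h' : Good ψ) : Good (Fm.and φ ψ) := by
  obtain ⟨Q, hQ, α, F, H⟩ := h
  obtain ⟨Q', hQ', β, F', H'⟩ := h'
  refine ⟨Q × Q', inferInstance, prodAlg α β, {p | p.1 ∈ F ∧ p.2 ∈ F'}, fun t v w S => ?_⟩
  rw [prodAlg_eval]
  show _ ∧ _ ↔ _ ∧ _
  rw [H, H']

theorem good_exS {A V : Type} {n m : ℕ} {φ : Fm (treeVocab A) V n (m + 1)} (h : Good φ) :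
    Good (Fm.exS φ) := by
  obtain ⟨Q, hQ, α, F, H⟩ := h
  refine ⟨Set Q, inferInstance, exSAlg α (fun l b => (l.1, l.2.1,
    {j | (∃ k, j = Fin.castSucc k ∧ k ∈ l.2.2) ∨ (j = Fin.last m ∧ b)})),
    {T | ∃ q ∈ T, q ∈ F}, fun t v w S => ?_⟩
  rw [exSAlg_eval]
  show (∃ q, (∃ P, _) ∧ _) ↔ ∃ P, _
  have key : ∀ (P' : Set (List Bool)) (P : Set t.Node), (∀ u : t.Node, u ∈ P ↔ u.1 ∈ P') →
      (annF t (fun i => (Sum.elim v w i).1) (fun j => {p | ∃ u ∈ S j, u.1 = p})).mapPos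
        (fun p l => (l.1, l.2.1,
          {j | (∃ k, j = Fin.castSucc k ∧ k ∈ l.2.2) ∨ (j = Fin.last m ∧ p ∈ P')})) =
      annF t (fun i => (Sum.elim v w i).1)
        (fun j => {p | ∃ u ∈ (Fin.snoc S P : Fin (m + 1) → Set t.Node) j, u.1 = p}) := by
    intro P' P hP
    unfold annF
    rw [mapPos_mapPos]
    refine mapPos_congr _ _ _ fun p a hp => ?_
    refine Prod.ext rfl (Prod.ext rfl ?_)
    ext j
    simp only [Set.mem_ofPred_eq]
    refine Fin.lastCases ?_ (fun k => ?_) j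
    · constructor
      · rintro (⟨k, hk, -⟩ | ⟨-, hp'⟩)
        · exact absurd hk.symm (Fin.castSucc_ne_last k)
        · refine ⟨⟨p, by rw [hp]; rfl⟩, ?_, rfl⟩
          rw [Fin.snoc_last]
          exact (hP _).mpr hp'
      · rintro ⟨u, hu, rfl⟩
        rw [Fin.snoc_last] at hu
        exact Or.inr ⟨rfl, (hP _).mp hu⟩
    · constructor
      · rintro (⟨k', hk, u, hu, hup⟩ | ⟨hk, -⟩)
        · obtain rfl : k = k' := Fin.castSucc_injective m hk
          refine ⟨u, ?_, hup⟩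
          rw [Fin.snoc_castSucc]
          exact hu
        · exact absurd hk (Fin.castSucc_ne_last k)
      · rintro ⟨u, hu, hup⟩
        rw [Fin.snoc_castSucc] at hu
        exact Or.inl ⟨k, rfl, u, hu, hup⟩
  constructor
  · rintro ⟨q, ⟨P', rfl⟩, hq⟩
    refine ⟨{u | u.1 ∈ P'}, ?_⟩
    refine (H t v w (Fin.snoc S {u | u.1 ∈ P'})).mp ?_
    rw [← key P' {u | u.1 ∈ P'} (fun u => Iff.rfl)]
    exact hq
  · rintro ⟨P, hP⟩
    refine ⟨_, ⟨{p | ∃ u ∈ P, u.1 = p}, rfl⟩, ?_⟩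
    rw [key {p | ∃ u ∈ P, u.1 = p} P]
    · exact (H t v w (Fin.snoc S P)).mpr hP
    · intro u
      constructor
      · intro hu
        exact ⟨u, hu, rfl⟩
      · rintro ⟨u', hu', h⟩
        rwa [← Subtype.ext h]

theorem good_exE {A V : Type} {n m : ℕ} {φ : Fm (treeVocab A) V (n + 1) m} (h : Good φ) :
    Good (Fm.exE φ) := by
  obtain ⟨Q, hQ, α, F, H⟩ := h
  let f0 : A × Set (V ⊕ Fin n) × Set (Fin m) → A × Set (V ⊕ Fin (n + 1)) × Set (Fin m) :=
    fun l => (l.1, {i | (∃ k, i = Sum.inl k ∧ Sum.inl k ∈ l.2.1) ∨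
      (∃ k, i = Sum.inr (Fin.castSucc k) ∧ Sum.inr k ∈ l.2.1)}, l.2.2)
  let f1 : A × Set (V ⊕ Fin n) × Set (Fin m) → A × Set (V ⊕ Fin (n + 1)) × Set (Fin m) :=
    fun l => (l.1, {i | (∃ k, i = Sum.inl k ∧ Sum.inl k ∈ l.2.1) ∨
      (∃ k, i = Sum.inr (Fin.castSucc k) ∧ Sum.inr k ∈ l.2.1) ∨
      i = Sum.inr (Fin.last n)}, l.2.2)
  refine ⟨Q × Set Q, inferInstance, exEAlg α f0 f1, {T | ∃ q ∈ T.2, q ∈ F}, fun t v w S => ?_⟩
  show (∃ q ∈ ((exEAlg α f0 f1).eval _).2, q ∈ F) ↔ ∃ u, _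
  rw [(exEAlg_eval α f0 f1 _).2]
  have key : ∀ u : t.Node,
      (annF t (fun i => (Sum.elim v w i).1) (fun j => {p | ∃ u ∈ S j, u.1 = p})).mapPos
        (fun p' l => if p' = u.1 then f1 l else f0 l) =
      annF t (fun i => (Sum.elim v (Fin.snoc w u : Fin (n + 1) → t.Node) i).1)
        (fun j => {p | ∃ u ∈ S j, u.1 = p}) := by
    intro u
    unfold annF
    rw [mapPos_mapPos]
    refine mapPos_congr _ _ _ fun p a hp => ?_
    have e : (if p = u.1 then f1 (a, {i | (Sum.elim v w i).1 = p}, {j | ∃ u ∈ S j, u.1 = p})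
        else f0 (a, {i | (Sum.elim v w i).1 = p}, {j | ∃ u ∈ S j, u.1 = p})) =
        (a, {i | (∃ k, i = Sum.inl k ∧ (v k).1 = p) ∨
          (∃ k, i = Sum.inr (Fin.castSucc k) ∧ (w k).1 = p) ∨
          (i = Sum.inr (Fin.last n) ∧ p = u.1)}, {j | ∃ u ∈ S j, u.1 = p}) := by
      split_ifs with h
      · simp only [f1, h, and_true]
        rfl
      · simp only [f0, h, and_false, or_false]
        rfl
    refine e.trans ?_
    refine Prod.ext rfl (Prod.ext ?_ rfl)
    ext i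
    simp only [Set.mem_ofPred_eq]
    rcases i with i | i
    · constructor
      · rintro (⟨k, hk, h⟩ | ⟨k, hk, -⟩ | ⟨hk, -⟩)
        · cases hk
          exact h
        · cases hk
        · cases hk
      · intro h
        exact Or.inl ⟨i, rfl, h⟩
    · refine Fin.lastCases ?_ (fun k => ?_) i
      · constructor
        · rintro (⟨k, hk, -⟩ | ⟨k, hk, -⟩ | ⟨-, h⟩)
          · cases hk
          · exact absurd (Sum.inr_injective hk).symm (Fin.castSucc_ne_last k)
          · rw [Sum.elim_inr, Fin.snoc_last]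
            exact h.symm
        · intro h
          rw [Sum.elim_inr, Fin.snoc_last] at h
          exact Or.inr (Or.inr ⟨rfl, h.symm⟩)
      · constructor
        · rintro (⟨k', hk, -⟩ | ⟨k', hk, h⟩ | ⟨hk, -⟩)
          · cases hk
          · obtain rfl : k = k' := Fin.castSucc_injective n (Sum.inr_injective hk)
            rw [Sum.elim_inr, Fin.snoc_castSucc]
            exact h
          · exact absurd (Sum.inr_injective hk) (Fin.castSucc_ne_last k)
        · intro h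
          rw [Sum.elim_inr, Fin.snoc_castSucc] at h
          exact Or.inr (Or.inl ⟨k, rfl, h⟩)
  constructor
  · rintro ⟨q, ⟨p, hp, rfl⟩, hq⟩
    have hp' : (t.lab? p).isSome := by
      unfold annF at hp
      rw [lab_mapPos] at hp
      simpa using hp
    refine ⟨⟨p, hp'⟩, ?_⟩
    refine (H t v (Fin.snoc w ⟨p, hp'⟩) S).mp ?_
    rw [← key ⟨p, hp'⟩]
    exact hq
  · rintro ⟨u, hu⟩
    refine ⟨_, ⟨u.1, ?_, rfl⟩, ?_⟩
    · unfold annF
      rw [lab_mapPos]
      simpa using u.2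
    · rw [key u]
      exact (H t v (Fin.snoc w u) S).mpr hu

theorem good_all {A V : Type} {n m : ℕ} (φ : Fm (treeVocab A) V n m) : Good φ := by
  induction φ with
  | rel R a =>
    cases R with
    | lab b => exact good_lab b a
    | desc => exact good_desc a
    | doc => exact good_doc a
  | eq x y => exact good_eq x y
  | mem x X => exact good_mem x X
  | not φ ih => exact good_not ih
  | and φ ψ ih ih' => exact good_and ih ih'
  | exE φ ih => exact good_exE ih
  | exS φ ih => exact good_exS ih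

end Tw1

open Tw1 in
theorem tw1 {A V : Type} (φ : Fm (treeVocab A) V 0 0) :
    ∃ K : Set (Tr (A × Set V)), Recog K ∧
      ∀ (t : Tr A) (v : V → t.Node), t.ann (fun i => (v i).1) ∈ K ↔ φ.Holds (treeStr t) v := by
  obtain ⟨Q, hQ, α, F, H⟩ := good_all φ
  let f : A × Set V → A × Set (V ⊕ Fin 0) × Set (Fin 0) :=
    fun l => (l.1, {i | ∃ k, i = Sum.inl k ∧ k ∈ l.2}, ∅)
  refine ⟨{t | α.eval (t.mapPos fun _ l => f l) ∈ F}, ⟨Q, hQ, ⟨fun l => α.leaf (f l),
    fun l p q => α.node (f l) p q⟩, F, ?_⟩, ?_⟩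
  · intro t
    have e : α.eval (t.mapPos fun _ l => f l) =
        (⟨fun l => α.leaf (f l), fun l p q => α.node (f l) p q⟩ : Alg (A × Set V) Q).eval t := by
      induction t with
      | leaf a => rfl
      | node a l r ihl ihr =>
        simp only [Tr.mapPos, Alg.eval, ihl, ihr]
    show _ ∈ F ↔ _
    rw [e]
  · intro t v
    refine Iff.trans ?_ (H t v Fin.elim0 Fin.elim0)
    show α.eval ((t.ann (fun i => (v i).1)).mapPos fun _ l => f l) ∈ F ↔ _
    have e : (t.ann (fun i => (v i).1)).mapPos (fun _ l => f l) =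
        annF t (fun i => (Sum.elim v (Fin.elim0 : Fin 0 → t.Node) i).1)
          (fun j => {p | ∃ u ∈ (Fin.elim0 : Fin 0 → Set t.Node) j, u.1 = p}) := by
      unfold Tr.ann annF
      rw [mapPos_mapPos]
      refine mapPos_congr _ _ _ fun p a hp => ?_
      refine Prod.ext rfl (Prod.ext ?_ ?_)
      · ext i
        rcases i with i | i
        · constructor
          · rintro ⟨k, hk, h⟩
            cases hk
            exact h
          · intro h
            exact ⟨i, rfl, h⟩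
        · exact i.elim0
      · ext j
        exact j.elim0
    rw [e]

end Pool.Agent.TreeMSO
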